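import Pool.Agent.H71TB.Exp

/-!
# Integer matrices without roots of unity: integer vectors see the expanding part
-/

set_option autoImplicit false

open Polynomial
open scoped BigOperators

noncomputable section

namespace Pool.Agent.H71TB

/-- splitting of a real polynomial by the size of its roots -/
theorem split_real : ∀ (n : ℕ) (f : ℝ[X]), f.natDegree ≤ n → f ≠ 0 → ∃ P Q : ℝ[X], f = P * Q ∧
    (∀ z : ℂ, aeval z P = 0 → 1 < ‖z‖) ∧ (∀ z : ℂ, aeval z Q = 0 → ‖z‖ ≤ 1) := by
  intro n
  induction n with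
  | zero =>
    intro f hf hf0
    refine ⟨1, f, by simp, fun z hz => ?_, fun z hz => ?_⟩
    · simp at hz
    · obtain ⟨c, hc⟩ := natDegree_eq_zero.1 (Nat.le_zero.1 hf)
      rw [← hc] at hz hf0
      rw [aeval_C] at hz
      have : c = 0 := by
        have := (algebraMap ℝ ℂ).injective (hz.trans (map_zero _).symm)
        exact this
      rw [this] at hf0
      simp at hf0
  | succ n ih =>
    intro f hf hf0
    by_cases h0 : f.natDegree = 0
    · exact ih f (by omega) hf0
    have hdeg : f.degree ≠ 0 := fun h => h0 (natDegree_eq_of_degree_eq_some h)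
    obtain ⟨z, hz⟩ := IsAlgClosed.exists_aeval_eq_zero ℂ f hdeg
    have key : ∃ g : ℝ[X], g ∣ f ∧ 1 ≤ g.natDegree ∧ ∀ w : ℂ, aeval w g = 0 → ‖w‖ = ‖z‖ := by
      by_cases him : z.im = 0
      · have hzr : z = (z.re : ℂ) := by
          apply Complex.ext <;> simp [him]
        refine ⟨X - C z.re, ?_, by simp, fun w hw => ?_⟩
        · rw [dvd_iff_isRoot, IsRoot.def]
          have h1 : (aeval (algebraMap ℝ ℂ z.re) f) = algebraMap ℝ ℂ (eval z.re f) :=
            aeval_algebraMap_apply_eq_algebraMap_eval _ _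
          have h2 : (algebraMap ℝ ℂ z.re) = z := by
            rw [Complex.coe_algebraMap]; exact hzr.symm
          rw [h2, hz] at h1
          exact (algebraMap ℝ ℂ).injective (h1.symm.trans (map_zero _).symm)
        · have h1 : w = (z.re : ℂ) := by
            simpa [sub_eq_zero] using hw
          rw [h1, ← hzr]
      · refine ⟨_, quadratic_dvd_of_aeval_eq_zero_im_ne_zero f hz him, ?_, fun w hw => ?_⟩
        · have : (X ^ 2 - C (2 * z.re) * X + C (‖z‖ ^ 2) : ℝ[X]) =
              C 1 * X ^ 2 + C (-(2 * z.re)) * X + C (‖z‖ ^ 2) := by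
            simp only [map_neg, map_one]; ring
          rw [this, natDegree_quadratic one_ne_zero]
          norm_num
        · have h1 : (w - z) * (w - (starRingEnd ℂ) z) = 0 := by
            have h2 : aeval w (X ^ 2 - C (2 * z.re) * X + C (‖z‖ ^ 2) : ℝ[X]) =
                w ^ 2 - (2 * z.re : ℝ) * w + ((‖z‖ ^ 2 : ℝ) : ℂ) := by
              simp
            rw [h2] at hw
            have h3 : ((2 * z.re : ℝ) : ℂ) = z + (starRingEnd ℂ) z := by
              rw [Complex.add_conj]
            have h4 : ((‖z‖ ^ 2 : ℝ) : ℂ) = z * (starRingEnd ℂ) z := by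
              rw [Complex.mul_conj, Complex.normSq_eq_norm_sq]
            rw [h3, h4] at hw
            linear_combination hw
          rcases mul_eq_zero.1 h1 with h | h
          · rw [sub_eq_zero.1 h]
          · rw [sub_eq_zero.1 h, Complex.norm_conj]
    obtain ⟨g, ⟨h, hh⟩, hg1, hgw⟩ := key
    have hg0 : g ≠ 0 := fun h' => hf0 (by rw [hh, h', zero_mul])
    have hh0 : h ≠ 0 := fun h' => hf0 (by rw [hh, h', mul_zero])
    have hdg : f.natDegree = g.natDegree + h.natDegree := by
      rw [hh, natDegree_mul hg0 hh0]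
    obtain ⟨P, Q, hPQ, hP, hQ⟩ := ih h (by omega) hh0
    by_cases hz1 : 1 < ‖z‖
    · refine ⟨g * P, Q, by rw [hh, hPQ, mul_assoc], fun w hw => ?_, hQ⟩
      rw [map_mul] at hw
      rcases mul_eq_zero.1 hw with h' | h'
      · rw [hgw w h']; exact hz1
      · exact hP w h'
    · refine ⟨P, g * Q, by rw [hh, hPQ]; ring, hP, fun w hw => ?_⟩
      rw [map_mul] at hw
      rcases mul_eq_zero.1 hw with h' | h'
      · rw [hgw w h']; exact not_lt.1 hz1
      · exact hQ w h'

/-- an algebraic integer is a root of unity or zero if its conjugates lie in the unit disc -/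
theorem kronecker {m : ℚ[X]} (hm : ∀ z : ℂ, aeval z m = 0 → ‖z‖ ≤ 1) {μ : ℂ}
    (hμ : aeval μ m = 0) (hint : IsIntegral ℤ μ) (hμ0 : μ ≠ 0) : ∃ n, 0 < n ∧ μ ^ n = 1 := by
  have hmon := minpoly.monic hint
  have hq : minpoly ℚ μ = (minpoly ℤ μ).map (algebraMap ℤ ℚ) :=
    minpoly.isIntegrallyClosed_eq_field_fractions' ℚ hint
  have hdvd : minpoly ℚ μ ∣ m := minpoly.dvd ℚ μ hμ
  have hr : ∀ z ∈ ((minpoly ℤ μ).map (Int.castRingHom ℂ)).roots, ‖z‖ ≤ 1 := by
    intro z hz
    apply hm
    rw [mem_roots', IsRoot.def, eval_map] at hz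
    have h1 : aeval z (minpoly ℚ μ) = 0 := by
      rw [hq, aeval_map_algebraMap]
      exact hz.2
    obtain ⟨c, hc⟩ := hdvd
    rw [hc, map_mul, h1, zero_mul]
  apply pow_eq_one_of_mahlerMeasure_eq_one (p := minpoly ℤ μ) _ hμ0
  · rw [mem_aroots]
    exact ⟨hmon.ne_zero, minpoly.aeval ℤ μ⟩
  · rw [mahlerMeasure_eq_leadingCoeff_mul_prod_roots]
    rw [(hmon.map _).leadingCoeff, norm_one, one_mul]
    apply Multiset.prod_eq_one
    intro x hx
    obtain ⟨a, ha, rfl⟩ := Multiset.mem_map.1 hx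
    exact max_eq_left (hr a ha)

/-- a polynomial in a matrix applied to a row vector -/
theorem vecMul_aeval {d : ℕ} {K : Type*} [CommRing K] (a : Matrix (Fin d) (Fin d) K)
    (k : Fin d → K) (f : K[X]) {n : ℕ} (hn : f.natDegree < n) :
    Matrix.vecMul k (aeval a f) = ∑ i ∈ Finset.range n, f.coeff i • Matrix.vecMul k (a ^ i) := by
  rw [aeval_eq_sum_range' hn, Matrix.vecMul_sum]
  refine Finset.sum_congr rfl fun i _ => ?_
  rw [Matrix.vecMul_smul]

/-- If an integer vector `k` is killed by a polynomial in `A` all of whose roots lie in the closed unit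
disc, where `A` is nonsingular and has no root of unity as an eigenvalue, then `k = 0`. -/
theorem ann_int {d : ℕ} {A : Matrix (Fin d) (Fin d) ℤ} (hdet : A.det ≠ 0)
    (herg : ∀ n : ℕ, 1 ≤ n → (A ^ n - 1).det ≠ 0) (k : Fin d → ℤ) {Q : ℝ[X]}
    (hQ : ∀ z : ℂ, aeval z Q = 0 → ‖z‖ ≤ 1)
    (hk : Matrix.vecMul (kR k) (aeval (rM A) Q) = 0) : k = 0 := by
  by_contra hk0
  obtain ⟨a, ha⟩ : ∃ a : Matrix (Fin d) (Fin d) ℚ, a = A.map (Int.castRingHom ℚ) := ⟨_, rfl⟩
  obtain ⟨kq, hkq⟩ : ∃ kq : Fin d → ℚ, kq = fun i => (k i : ℚ) := ⟨_, rfl⟩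
  have hkq0 : kq ≠ 0 := by
    intro h
    apply hk0
    funext i
    have := congrFun h i
    rw [hkq] at this
    simpa using this
  -- the annihilator ideal
  obtain ⟨I, hI⟩ : ∃ I : Ideal ℚ[X], ∀ g, g ∈ I ↔ Matrix.vecMul kq (aeval a g) = 0 := by
    refine ⟨{ carrier := {g | Matrix.vecMul kq (aeval a g) = 0}, add_mem' := ?_,
              zero_mem' := ?_, smul_mem' := ?_ }, fun g => Iff.rfl⟩
    · intro g h hg hh
      change Matrix.vecMul kq (aeval a g) = 0 at hg
      change Matrix.vecMul kq (aeval a h) = 0 at hh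
      show Matrix.vecMul kq (aeval a (g + h)) = 0
      rw [map_add, Matrix.vecMul_add, hg, hh, add_zero]
    · simp
    · intro c g hg
      change Matrix.vecMul kq (aeval a g) = 0 at hg
      show Matrix.vecMul kq (aeval a (c • g)) = 0
      rw [smul_eq_mul, mul_comm, map_mul, ← Matrix.vecMul_vecMul, hg, Matrix.zero_vecMul]
  obtain ⟨m, hm⟩ : ∃ m : ℚ[X], I = Ideal.span {m} := (IsPrincipalIdealRing.principal I).1
  have hmem : ∀ g, g ∈ I ↔ m ∣ g := fun g => by rw [hm, Ideal.mem_span_singleton]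
  have hmI : m ∈ I := (hmem m).2 dvd_rfl
  have hch : m ∣ a.charpoly := by
    rw [← hmem, hI, Matrix.aeval_self_charpoly, Matrix.vecMul_zero]
  have hch0 : a.charpoly ≠ 0 := (Matrix.charpoly_monic a).ne_zero
  have hm0 : m ≠ 0 := fun h => hch0 (by rw [h, zero_dvd_iff] at hch; exact hch)
  have hmdeg : m.degree ≠ 0 := by
    intro h
    have h1 : m ∣ 1 := by
      rw [eq_C_of_degree_eq_zero h]
      exact (isUnit_C.2 (IsUnit.mk0 _ fun h' => hm0 (by
        rw [eq_C_of_degree_eq_zero h, h', C_0]))).dvd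
    rw [← hmem, hI, map_one, Matrix.vecMul_one] at h1
    exact hkq0 h1
  -- `m` divides `Q`
  have hcast : ∀ (i : ℕ) (j : Fin d), (Matrix.vecMul (kR k) (rM A ^ i)) j =
      ((Matrix.vecMul kq (a ^ i) j : ℚ) : ℝ) := by
    intro i j
    have e1 : rM A ^ i = (a ^ i).map (Rat.castHom ℝ) := by
      rw [Matrix.map_pow, ha]
      congr 1
    rw [e1]
    simp only [Matrix.vecMul, dotProduct, Matrix.map_apply, Rat.coe_castHom, Rat.cast_sum,
      Rat.cast_mul, hkq, kR, Rat.cast_intCast]
  have hdvd : m.map (Rat.castHom ℝ) ∣ Q := by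
    obtain ⟨mR, hmR⟩ : ∃ mR, mR = m.map (Rat.castHom ℝ) := ⟨_, rfl⟩
    have hmR0 : mR ≠ 0 := by
      rw [hmR, Polynomial.map_ne_zero_iff (Rat.castHom ℝ).injective]; exact hm0
    rw [← hmR]
    rw [← EuclideanDomain.mod_eq_zero]
    obtain ⟨r, hr⟩ : ∃ r, r = Q % mR := ⟨_, rfl⟩
    rw [← hr]
    have hkm : Matrix.vecMul (kR k) (aeval (rM A) mR) = 0 := by
      have h1 := (hI m).1 hmI
      rw [vecMul_aeval _ _ _ (Nat.lt_succ_self _)] at h1
      rw [vecMul_aeval _ _ _ (Nat.lt_succ_self _), hmR, natDegree_map]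
      funext j
      have h2 := congrFun h1 j
      simp only [Finset.sum_apply, Pi.smul_apply, Pi.zero_apply, smul_eq_mul, coeff_map,
        Rat.coe_castHom] at h2 ⊢
      simp only [hcast]
      have h3 := congrArg (fun q : ℚ => (q : ℝ)) h2
      simpa using h3
    have hkr : Matrix.vecMul (kR k) (aeval (rM A) r) = 0 := by
      have h1 : Q = mR * (Q / mR) + r := by rw [hr]; exact (EuclideanDomain.div_add_mod Q mR).symm
      rw [h1, map_add, map_mul, Matrix.vecMul_add, ← Matrix.vecMul_vecMul, hkm,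
        Matrix.zero_vecMul, zero_add] at hk
      exact hk
    have hrdeg : r.degree < m.degree := by
      have := EuclideanDomain.mod_lt Q hmR0
      rw [← hr] at this
      have h2 : r.degree < mR.degree := this
      rwa [hmR, degree_map] at h2
    by_cases hr0 : r = 0
    · exact hr0
    have hrn : r.natDegree < m.natDegree := natDegree_lt_natDegree hr0 hrdeg
    -- test with `ℚ`-linear functionals
    have hφ : ∀ φ : ℝ →ₗ[ℚ] ℚ, ∀ i, φ (r.coeff i) = 0 := by
      intro φ
      obtain ⟨g, hg⟩ : ∃ g : ℚ[X], g = ∑ i ∈ Finset.range m.natDegree, C (φ (r.coeff i)) * X ^ i :=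
        ⟨_, rfl⟩
      have hgc : ∀ i, g.coeff i = if i < m.natDegree then φ (r.coeff i) else 0 := by
        intro i
        rw [hg, finsetSum_coeff]
        simp only [coeff_C_mul, coeff_X_pow, mul_ite, mul_one, mul_zero]
        rw [Finset.sum_ite_eq]
        simp
      have hgdeg : g.degree < m.degree := by
        rw [degree_eq_natDegree hm0, degree_lt_iff_coeff_zero]
        intro i hi
        rw [hgc, if_neg (by omega)]
      have hgn : g.natDegree < m.natDegree := by
        by_cases hg0 : g = 0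
        · rw [hg0, natDegree_zero]; omega
        · exact natDegree_lt_natDegree hg0 hgdeg
      have hgI : g ∈ I := by
        rw [hI, vecMul_aeval _ _ _ hgn]
        rw [vecMul_aeval _ _ _ hrn] at hkr
        funext j
        have h2 := congrFun hkr j
        simp only [Finset.sum_apply, Pi.smul_apply, Pi.zero_apply, smul_eq_mul, hcast] at h2 ⊢
        have h3 := congrArg φ h2
        rw [map_sum, map_zero] at h3
        rw [← h3]
        refine Finset.sum_congr rfl fun i hi => ?_
        rw [hgc, if_pos (Finset.mem_range.1 hi)]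
        have h4 : r.coeff i * ((Matrix.vecMul kq (a ^ i) j : ℚ) : ℝ) =
            (Matrix.vecMul kq (a ^ i) j) • r.coeff i := by
          rw [Rat.smul_def, mul_comm]
        rw [h4, map_smul, smul_eq_mul, mul_comm]
      have h0 : g = 0 := by
        rw [hmem] at hgI
        by_contra hne
        exact absurd (degree_le_of_dvd hgI hne) (not_le.2 hgdeg)
      intro i
      by_cases hi : i < m.natDegree
      · have := hgc i
        rw [h0, if_pos hi] at this
        simpa using this.symm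
      · rw [coeff_eq_zero_of_natDegree_lt (by omega), map_zero]
    ext i
    rw [coeff_zero]
    exact (Module.forall_dual_apply_eq_zero_iff ℚ (r.coeff i)).1 fun φ => hφ φ i
  -- a root of `m`
  obtain ⟨μ, hμ⟩ := IsAlgClosed.exists_aeval_eq_zero ℂ m hmdeg
  have hroots : ∀ z : ℂ, aeval z m = 0 → ‖z‖ ≤ 1 := by
    intro z hz
    apply hQ
    obtain ⟨c, hc⟩ := hdvd
    have h1 : aeval z (m.map (Rat.castHom ℝ)) = 0 := by
      have : (Rat.castHom ℝ) = algebraMap ℚ ℝ := rfl
      rw [this, aeval_map_algebraMap, hz]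
    rw [hc, map_mul, h1, zero_mul]
  -- `μ` is an eigenvalue of `A`
  have hint0 : aeval μ A.charpoly = 0 := by
    obtain ⟨c, hc⟩ := hch
    have h1 : aeval μ a.charpoly = 0 := by rw [hc, map_mul, hμ, zero_mul]
    rw [ha, Matrix.charpoly_map] at h1
    have : (Int.castRingHom ℚ) = algebraMap ℤ ℚ := rfl
    rwa [this, aeval_map_algebraMap] at h1
  have hint : IsIntegral ℤ μ := ⟨A.charpoly, Matrix.charpoly_monic A, hint0⟩
  obtain ⟨aC, haC⟩ : ∃ aC : Matrix (Fin d) (Fin d) ℂ, aC = A.map (Int.castRingHom ℂ) := ⟨_, rfl⟩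
  have hev : ∃ w : Fin d → ℂ, w ≠ 0 ∧ aC.mulVec w = μ • w := by
    have h1 : (Matrix.scalar (Fin d) μ - aC).det = 0 := by
      rw [← Matrix.eval_charpoly, haC, Matrix.charpoly_map, eval_map]
      exact hint0
    obtain ⟨w, hw0, hw⟩ := Matrix.exists_mulVec_eq_zero_iff.2 h1
    refine ⟨w, hw0, ?_⟩
    rw [Matrix.sub_mulVec, sub_eq_zero] at hw
    rw [← hw]
    simp [Matrix.scalar_apply, ← Matrix.smul_one_eq_diagonal, Matrix.smul_mulVec]
  obtain ⟨w, hw0, hw⟩ := hev
  by_cases hμ0 : μ = 0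
  · have h1 : aC.det = 0 := Matrix.exists_mulVec_eq_zero_iff.1 ⟨w, hw0, by rw [hw, hμ0, zero_smul]⟩
    rw [haC, ← RingHom.mapMatrix_apply, ← RingHom.map_det] at h1
    exact hdet (by simpa using h1)
  · obtain ⟨n, hn, hn1⟩ := kronecker hroots hμ hint hμ0
    have h2 : ∀ n : ℕ, (aC ^ n).mulVec w = μ ^ n • w := by
      intro n
      induction n with
      | zero => simp
      | succ n ih =>
        rw [pow_succ, ← Matrix.mulVec_mulVec, hw, Matrix.mulVec_smul, ih, smul_smul, pow_succ,
          mul_comm]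
    have h1 : (aC ^ n - 1).det = 0 := Matrix.exists_mulVec_eq_zero_iff.1 ⟨w, hw0, by
      rw [Matrix.sub_mulVec, h2 n, hn1, one_smul, Matrix.one_mulVec, sub_self]⟩
    have h3 : aC ^ n - 1 = (A ^ n - 1).map (Int.castRingHom ℂ) := by
      rw [haC, ← RingHom.mapMatrix_apply, ← RingHom.mapMatrix_apply, map_sub, map_pow, map_one]
    rw [h3, ← RingHom.mapMatrix_apply, ← RingHom.map_det] at h1
    exact herg n hn (by simpa using h1)

end Pool.Agent.H71TB
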