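import Pool.Agent.H71TB.Alg1

/-!
# Contraction from the spectrum
-/

set_option autoImplicit false

open Polynomial Filter
open scoped BigOperators Topology ENNReal NNReal

noncomputable section

namespace Pool.Agent.H71TB

section
attribute [local instance] Matrix.linftyOpNormedRing Matrix.linftyOpNormedAlgebra
  Matrix.linftyOpNormedAddCommGroup

theorem pow_bd {d : ℕ} (hd : 0 < d) (a : Matrix (Fin d) (Fin d) ℂ)
    (h : ∀ z ∈ spectrum ℂ a, ‖z‖ < 1) : ∃ C κ : ℝ, 1 ≤ C ∧ 0 < κ ∧ κ < 1 ∧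
      ∀ n i j, ‖(a ^ n) i j‖ ≤ C * κ ^ n := by
  have : Nonempty (Fin d) := ⟨⟨0, hd⟩⟩
  have : CompleteSpace (Matrix (Fin d) (Fin d) ℂ) := FiniteDimensional.complete ℂ _
  have h1 : spectralRadius ℂ a < ((1 : ℝ≥0) : ℝ≥0∞) :=
    spectrum.spectralRadius_lt_of_forall_lt a fun z hz => by
      have := h z hz
      exact_mod_cast this
  obtain ⟨κ₁, hκ₁, hκ₁1⟩ := ENNReal.lt_iff_exists_nnreal_btwn.1 h1
  have hκ₁2 : κ₁ < 1 := by exact_mod_cast hκ₁1
  have h2 := (spectrum.pow_nnnorm_pow_one_div_tendsto_nhds_spectralRadius a).eventually_lt_const hκ₁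
  obtain ⟨n₀, hn₀⟩ := eventually_atTop.1 h2
  obtain ⟨κ, hκ⟩ : ∃ κ : ℝ, κ = max (κ₁ : ℝ) (1 / 2) := ⟨_, rfl⟩
  have hκ0 : 0 < κ := by rw [hκ]; exact lt_max_of_lt_right (by norm_num)
  have hκ1 : κ < 1 := by
    rw [hκ]; exact max_lt (by exact_mod_cast hκ₁2) (by norm_num)
  have h3 : ∀ n, n₀ + 1 ≤ n → ‖a ^ n‖ ≤ κ ^ n := by
    intro n hn
    have h4 := hn₀ n (by omega)
    have hn0 : (0:ℝ) < n := by exact_mod_cast (by omega : 0 < n)
    have h5 : (‖a ^ n‖₊ : ℝ≥0∞) < (κ₁ : ℝ≥0∞) ^ (n : ℝ) := by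
      have h6 := ENNReal.rpow_lt_rpow h4 hn0
      rwa [← ENNReal.rpow_mul, one_div, inv_mul_cancel₀ hn0.ne', ENNReal.rpow_one] at h6
    rw [ENNReal.rpow_natCast] at h5
    have h7 : ‖a ^ n‖₊ < κ₁ ^ n := by exact_mod_cast h5
    have h8 : ‖a ^ n‖ < (κ₁ : ℝ) ^ n := by exact_mod_cast h7
    refine h8.le.trans ?_
    gcongr
    rw [hκ]; exact le_max_left _ _
  obtain ⟨C, hC⟩ : ∃ C : ℝ, C = 1 + ∑ n ∈ Finset.range (n₀ + 1), ‖a ^ n‖ / κ ^ n := ⟨_, rfl⟩
  have hsum : 0 ≤ ∑ n ∈ Finset.range (n₀ + 1), ‖a ^ n‖ / κ ^ n :=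
    Finset.sum_nonneg fun n _ => by positivity
  refine ⟨C, κ, by rw [hC]; linarith, hκ0, hκ1, fun n i j => ?_⟩
  have h9 : ‖a ^ n‖ ≤ C * κ ^ n := by
    by_cases hn : n₀ + 1 ≤ n
    · refine (h3 n hn).trans ?_
      have : 1 ≤ C := by rw [hC]; linarith
      exact le_mul_of_one_le_left (by positivity) this
    · rw [← div_le_iff₀ (by positivity), hC]
      have h10 := Finset.single_le_sum (f := fun n => ‖a ^ n‖ / κ ^ n)
        (fun n _ => by positivity) (Finset.mem_range.2 (not_le.1 hn))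
      have h11 : ‖a ^ n‖ / κ ^ n ≤ ∑ n ∈ Finset.range (n₀ + 1), ‖a ^ n‖ / κ ^ n := h10
      linarith
  refine le_trans ?_ h9
  have h10 := Matrix.linfty_opNorm_mulVec (a ^ n) (Pi.single j (1:ℂ))
  rw [Pi.norm_single, norm_one, mul_one] at h10
  have h11 := norm_le_pi_norm ((a ^ n).mulVec (Pi.single j (1:ℂ))) i
  have h12 : (a ^ n).mulVec (Pi.single j (1:ℂ)) i = (a ^ n) i j := by
    simp [Matrix.mulVec_single]
  rw [h12] at h11
  exact h11.trans h10

end

theorem contr_of_spec {d : ℕ} (hd : 0 < d) (b : Matrix (Fin d) (Fin d) ℝ)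
    (h : ∀ z ∈ spectrum ℂ (b.map (algebraMap ℝ ℂ)), ‖z‖ < 1) : ∃ C κ : ℝ, 1 ≤ C ∧ 0 < κ ∧ κ < 1 ∧
      (∀ n (x : Fin d → ℝ), ‖(b ^ n).mulVec x‖ ≤ C * κ ^ n * ‖x‖) ∧
      ∀ n (x : Fin d → ℝ), ‖Matrix.vecMul x (b ^ n)‖ ≤ C * κ ^ n * ‖x‖ := by
  obtain ⟨C, κ, hC, hκ, hκ1, hbd⟩ := pow_bd hd _ h
  have hbd' : ∀ n i j, |(b ^ n) i j| ≤ C * κ ^ n := by
    intro n i j
    have h1 := hbd n i j
    have h2 : (b.map (algebraMap ℝ ℂ)) ^ n = (b ^ n).map (algebraMap ℝ ℂ) := by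
      rw [← RingHom.mapMatrix_apply, ← RingHom.mapMatrix_apply, map_pow]
    rw [h2, Matrix.map_apply, Complex.coe_algebraMap, Complex.norm_real, Real.norm_eq_abs] at h1
    exact h1
  have hd1 : (1:ℝ) ≤ d := by exact_mod_cast hd
  refine ⟨d * C, κ, by nlinarith, hκ, hκ1, fun n x => ?_, fun n x => ?_⟩
  · rw [pi_norm_le_iff_of_nonneg (by positivity)]
    intro i
    rw [Real.norm_eq_abs]
    refine (Finset.abs_sum_le_sum_abs (fun j => (b ^ n) i j * x j) Finset.univ).trans ?_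
    calc ∑ j, |(b ^ n) i j * x j| ≤ ∑ _j : Fin d, C * κ ^ n * ‖x‖ := by
          refine Finset.sum_le_sum fun j _ => ?_
          rw [abs_mul]
          have := norm_le_pi_norm x j
          rw [Real.norm_eq_abs] at this
          exact mul_le_mul (hbd' n i j) this (abs_nonneg _) (by positivity)
      _ = d * C * κ ^ n * ‖x‖ := by simp; ring
  · rw [pi_norm_le_iff_of_nonneg (by positivity)]
    intro j
    rw [Real.norm_eq_abs]
    refine (Finset.abs_sum_le_sum_abs (fun i => x i * (b ^ n) i j) Finset.univ).trans ?_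
    calc ∑ i, |x i * (b ^ n) i j| ≤ ∑ _j : Fin d, C * κ ^ n * ‖x‖ := by
          refine Finset.sum_le_sum fun i _ => ?_
          rw [abs_mul, mul_comm]
          have := norm_le_pi_norm x i
          rw [Real.norm_eq_abs] at this
          exact mul_le_mul (hbd' n i j) this (abs_nonneg _) (by positivity)
      _ = d * C * κ ^ n * ‖x‖ := by simp; ring

/-- The spectral decomposition of an integer matrix, by polynomials in the matrix. -/
theorem spec_dec {d : ℕ} (hd : 0 < d) (a : Matrix (Fin d) (Fin d) ℝ) :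
    ∃ (Q w b b' : ℝ[X]) (C κ : ℝ), (∀ z : ℂ, aeval z Q = 0 → ‖z‖ ≤ 1) ∧
      (∀ k : Fin d → ℝ, Matrix.vecMul k (aeval a w) = 0 → Matrix.vecMul k (aeval a Q) = 0) ∧
      aeval a w * aeval a w = aeval a w ∧ a * aeval a w = aeval a w * aeval a b ∧
      aeval a b * aeval a b' = 1 ∧ 1 ≤ C ∧ 0 < κ ∧ κ < 1 ∧
      (∀ n (x : Fin d → ℝ), ‖((aeval a b') ^ n).mulVec x‖ ≤ C * κ ^ n * ‖x‖) ∧
      ∀ n (x : Fin d → ℝ), ‖Matrix.vecMul x ((aeval a b') ^ n)‖ ≤ C * κ ^ n * ‖x‖ := by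
  have hch0 : a.charpoly ≠ 0 := (Matrix.charpoly_monic a).ne_zero
  obtain ⟨P, Q, hPQ, hP, hQ⟩ := split_real _ a.charpoly le_rfl hch0
  have hcop : IsCoprime P Q := by
    refine (isCoprime_iff_aeval_ne_zero_of_isAlgClosed ℝ ℂ P Q).2 ?_
    intro z
    by_contra hcon
    push Not at hcon
    exact absurd (hQ z hcon.2) (not_le.2 (hP z hcon.1))
  have hcop2 : IsCoprime (X : ℝ[X]) P := by
    refine (isCoprime_iff_aeval_ne_zero_of_isAlgClosed ℝ ℂ X P).2 ?_
    intro z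
    by_contra hcon
    push Not at hcon
    have h1 := hP z hcon.2
    rw [aeval_X] at hcon
    rw [hcon.1, norm_zero] at h1
    linarith
  obtain ⟨S, T, h1⟩ := hcop
  obtain ⟨Y, Z, h2⟩ := hcop2
  have hCH : aeval a (P * Q) = 0 := by rw [← hPQ]; exact Matrix.aeval_self_charpoly a
  have h3 : (2 : ℝ[X]) * C (1 / 2) = 1 := by
    have : (2 : ℝ[X]) = C 2 := rfl
    rw [this, ← C_mul]
    norm_num
  obtain ⟨b', hb'⟩ : ∃ b' : ℝ[X], b' = Y * (T * Q) + C (1 / 2) * (S * P) := ⟨_, rfl⟩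
  have hspec : ∀ z ∈ spectrum ℂ ((aeval a b').map (algebraMap ℝ ℂ)), ‖z‖ < 1 := by
    intro z hz
    have e1 : (aeval a b').map (algebraMap ℝ ℂ) =
        aeval (a.map (algebraMap ℝ ℂ)) (b'.map (algebraMap ℝ ℂ)) := by
      rw [aeval_map_algebraMap]
      have := aeval_algHom_apply ((Algebra.ofId ℝ ℂ).mapMatrix (m := Fin d)) a b'
      rw [show (a.map (algebraMap ℝ ℂ)) = (Algebra.ofId ℝ ℂ).mapMatrix (m := Fin d) a from rfl,
        this]
      rfl
    rw [e1] at hz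
    have : Nonempty (Fin d) := ⟨⟨0, hd⟩⟩
    have hne : (spectrum ℂ (a.map (algebraMap ℝ ℂ))).Nonempty :=
      spectrum.nonempty_of_isAlgClosed_of_finiteDimensional ℂ _
    rw [spectrum.map_polynomial_aeval_of_nonempty _ _ hne] at hz
    obtain ⟨l, hl, rfl⟩ := hz
    rw [Matrix.mem_spectrum_iff_isRoot_charpoly, Matrix.charpoly_map, hPQ, Polynomial.map_mul,
      IsRoot.def, eval_mul, eval_map_algebraMap, eval_map_algebraMap] at hl
    simp only
    rw [eval_map_algebraMap, hb']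
    have e2 := congrArg (aeval l) h1
    have e3 := congrArg (aeval l) h2
    simp only [map_add, map_mul, map_one, aeval_X, aeval_C] at e2 e3 ⊢
    rcases mul_eq_zero.1 hl with h | h
    · rw [h, mul_zero, zero_add] at e2
      rw [h, mul_zero, add_zero] at e3
      rw [e2, h, mul_zero, mul_zero, add_zero, mul_one]
      have h4 := hP l h
      have h5 : ‖aeval l Y‖ * ‖l‖ = 1 := by rw [← norm_mul, e3, norm_one]
      by_contra hcon
      push Not at hcon
      nlinarith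
    · rw [h, mul_zero, add_zero] at e2
      rw [e2, h, mul_zero, mul_zero, zero_add, mul_one]
      simp
      norm_num
  obtain ⟨C', κ, hC, hκ, hκ1, hc1, hc2⟩ := contr_of_spec hd _ hspec
  refine ⟨Q, T * Q, X * (T * Q) + 2 * (S * P), b', C', κ, hQ, ?_, ?_, ?_, ?_, hC, hκ, hκ1, hc1, hc2⟩
  · intro k hk
    have e1 : aeval a Q = aeval a (T * Q) * aeval a Q + aeval a (P * Q) * aeval a S := by
      rw [← map_mul, ← map_mul, ← map_add]
      congr 1
      linear_combination (-Q) * h1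
    rw [e1, hCH, zero_mul, add_zero, ← Matrix.vecMul_vecMul, hk, Matrix.zero_vecMul]
  · have e1 : T * Q * (T * Q) = T * Q - P * Q * (S * T) := by
      linear_combination (T * Q) * h1
    rw [← map_mul, e1, map_sub, map_mul _ (P * Q), hCH, zero_mul, sub_zero]
  · have e1 : X * (T * Q) = T * Q * (X * (T * Q) + 2 * (S * P)) + P * Q * (S * T * (X - 2)) := by
      linear_combination (-X * (T * Q)) * h1
    have e2 : a * aeval a (T * Q) = aeval a (X * (T * Q)) := by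
      rw [map_mul _ X, aeval_X]
    have e3 := congrArg (aeval a) e1
    rw [map_add, map_mul _ (P * Q), hCH, zero_mul, add_zero, map_mul _ (T * Q)] at e3
    rw [e2, e3]
  · have e1 : (X * (T * Q) + 2 * (S * P)) * b' = 1 + P * Q *
        (-Z * T ^ 2 * Q - 2 * S * T + C (1 / 2) * X * S * T + 2 * Y * S * T) := by
      rw [hb']
      linear_combination (T * Q + S * P + 1) * h1 + (T * Q) ^ 2 * h2 + (S * P) ^ 2 * h3
    rw [← map_mul, e1, map_add, map_mul _ (P * Q), hCH, zero_mul, add_zero, map_one]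

end Pool.Agent.H71TB
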