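import Pool.Agent.H71TB.Alg2

/-!
# The Diophantine property of the expanding space of an ergodic integer matrix
-/

set_option autoImplicit false

open Polynomial Filter
open scoped BigOperators Topology ENNReal NNReal

noncomputable section

namespace Pool.Agent.H71TB

/-- The Krylov space of a row vector. -/
theorem krylov {d : ℕ} (a : Matrix (Fin d) (Fin d) ℝ) (k : Fin d → ℝ) :
    ∃ e ≤ d, LinearIndependent ℝ (fun i : Fin e => Matrix.vecMul k (a ^ (i : ℕ))) ∧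
      ∀ j, Matrix.vecMul k (a ^ j) ∈
        Submodule.span ℝ (Set.range fun i : Fin e => Matrix.vecMul k (a ^ (i : ℕ))) := by
  classical
  obtain ⟨p, hp⟩ : ∃ p : ℕ → Prop, ∀ e, p e ↔
      LinearIndependent ℝ (fun i : Fin e => Matrix.vecMul k (a ^ (i : ℕ))) := ⟨_, fun e => Iff.rfl⟩
  have hp0 : p 0 := (hp 0).2 linearIndependent_empty_type
  obtain ⟨e, he, hpe, hne⟩ : ∃ e ≤ d, p e ∧ ¬ p (e + 1) := by
    refine ⟨Nat.findGreatest p d, Nat.findGreatest_le d,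
      Nat.findGreatest_spec (P := p) (Nat.zero_le d) hp0, fun h => ?_⟩
    have h1 := (hp _).1 h
    have h2 := h1.fintype_card_le_finrank
    rw [Fintype.card_fin, Module.finrank_fintype_fun_eq_card, Fintype.card_fin] at h2
    exact absurd (Nat.le_findGreatest h2 h) (by omega)
  rw [hp] at hpe
  refine ⟨e, he, hpe, ?_⟩
  have hmem : Matrix.vecMul k (a ^ e) ∈
      Submodule.span ℝ (Set.range fun i : Fin e => Matrix.vecMul k (a ^ (i : ℕ))) := by
    by_contra hcon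
    apply hne
    rw [hp]
    have h1 := hpe.finSnoc hcon
    have h2 : (fun i : Fin (e + 1) => Matrix.vecMul k (a ^ (i : ℕ))) =
        Fin.snoc (fun i : Fin e => Matrix.vecMul k (a ^ (i : ℕ))) (Matrix.vecMul k (a ^ e)) := by
      funext i
      refine Fin.lastCases ?_ (fun j => ?_) i
      · simp
      · simp
    rw [h2]
    exact h1
  intro j
  induction j with
  | zero =>
    rcases Nat.eq_zero_or_pos e with h0 | h0
    · subst h0; exact hmem
    · exact Submodule.subset_span ⟨⟨0, h0⟩, rfl⟩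
  | succ j ih =>
    rw [pow_succ, ← Matrix.vecMul_vecMul]
    refine Submodule.span_induction (p := fun x _ => Matrix.vecMul x a ∈
      Submodule.span ℝ (Set.range fun i : Fin e => Matrix.vecMul k (a ^ (i : ℕ)))) ?_ ?_ ?_ ?_ ih
    · rintro x ⟨i, rfl⟩
      show Matrix.vecMul (Matrix.vecMul k (a ^ (i : ℕ))) a ∈ _
      rw [Matrix.vecMul_vecMul, ← pow_succ]
      rcases Nat.lt_or_ge ((i : ℕ) + 1) e with h | h
      · exact Submodule.subset_span ⟨⟨(i : ℕ) + 1, h⟩, rfl⟩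
      · have : (i : ℕ) + 1 = e := by have := i.2; omega
        rw [this]; exact hmem
    · rw [Matrix.zero_vecMul]; exact Submodule.zero_mem _
    · intro x y _ _ hx hy
      rw [Matrix.add_vecMul]; exact Submodule.add_mem _ hx hy
    · intro c x _ hx
      rw [Matrix.smul_vecMul]; exact Submodule.smul_mem _ _ hx

/-- a crude norm of a matrix -/
def mbR {d : ℕ} (m : Matrix (Fin d) (Fin d) ℝ) : ℝ := ∑ i, ∑ j, |m i j|

theorem mbR_nonneg {d : ℕ} (m : Matrix (Fin d) (Fin d) ℝ) : 0 ≤ mbR m :=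
  Finset.sum_nonneg fun _ _ => Finset.sum_nonneg fun _ _ => abs_nonneg _

theorem mbR_bd {d : ℕ} (m : Matrix (Fin d) (Fin d) ℝ) (x : Fin d → ℝ) (j : Fin d) :
    |Matrix.vecMul x m j| ≤ mbR m * ‖x‖ := by
  have h1 : |Matrix.vecMul x m j| ≤ ∑ i, |x i * m i j| :=
    Finset.abs_sum_le_sum_abs (fun i => x i * m i j) Finset.univ
  refine h1.trans ?_
  rw [mbR, Finset.sum_mul]
  refine Finset.sum_le_sum fun i _ => ?_
  rw [abs_mul, mul_comm]
  have h2 := norm_le_pi_norm x i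
  rw [Real.norm_eq_abs] at h2
  have h3 : |m i j| ≤ ∑ j, |m i j| :=
    Finset.single_le_sum (f := fun j => |m i j|) (fun _ _ => abs_nonneg _) (Finset.mem_univ j)
  exact mul_le_mul h3 h2 (abs_nonneg _) (Finset.sum_nonneg fun _ _ => abs_nonneg _)

theorem norm_le_of_abs {d : ℕ} {a : EuclideanSpace ℝ (Fin d)} {M : ℝ} (hM : 0 ≤ M)
    (h : ∀ i, |a i| ≤ M) : ‖a‖ ≤ d * M := by
  rw [EuclideanSpace.norm_eq]
  rw [Real.sqrt_le_left (by positivity)]
  calc ∑ i, ‖a i‖ ^ 2 ≤ ∑ _i : Fin d, M ^ 2 := by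
        refine Finset.sum_le_sum fun i _ => ?_
        rw [Real.norm_eq_abs]
        exact pow_le_pow_left₀ (abs_nonneg _) (h i) 2
    _ = d * M ^ 2 := by simp
    _ ≤ (d * M) ^ 2 := by
        rcases Nat.eq_zero_or_pos d with h0 | h0
        · subst h0; simp
        · have : (1:ℝ) ≤ d := by exact_mod_cast h0
          nlinarith [sq_nonneg M]

/-- pigeonhole for a linear map of `ℝ^e` with a nontrivial kernel -/
theorem pigeon {d e : ℕ} (he : e ≤ d) (hd : 0 < d) (τ : (Fin e → ℝ) →ₗ[ℝ] EuclideanSpace ℝ (Fin d))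
    (hker : ∃ c, c ≠ 0 ∧ τ c = 0) {C D : ℝ} (hC : 1 ≤ C) (hD : 1 ≤ D)
    (hτ : ∀ (c : Fin e → ℝ) (M : ℝ), 0 ≤ M → (∀ i, |c i| ≤ M) → ‖τ c‖ ≤ C * D * M) :
    ∃ n : Fin e → ℤ, n ≠ 0 ∧ (∀ i, |(n i : ℝ)| ≤ 2 * ((4 * d * C + 5) * D) ^ d) ∧
      ‖τ fun i => (n i : ℝ)‖ ≤ 1 / 2 := by
  have hd1 : (1:ℝ) ≤ d := by exact_mod_cast hd
  obtain ⟨e', he'⟩ : ∃ e', e' = Module.finrank ℝ (LinearMap.range τ) := ⟨_, rfl⟩
  have hlt : e' < e := by
    have h1 := LinearMap.finrank_range_add_finrank_ker τ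
    rw [Module.finrank_fintype_fun_eq_card, Fintype.card_fin] at h1
    have h2 : 0 < Module.finrank ℝ (LinearMap.ker τ) := by
      rw [Module.finrank_pos_iff]
      obtain ⟨c, hc0, hc⟩ := hker
      exact ⟨⟨⟨c, hc⟩, 0, fun h => hc0 (congrArg Subtype.val h)⟩⟩
    omega
  have o : OrthonormalBasis (Fin e') ℝ (LinearMap.range τ) := by
    rw [he']; exact stdOrthonormalBasis ℝ _
  obtain ⟨G, hG⟩ : ∃ G : (Fin e → ℝ) →ₗ[ℝ] EuclideanSpace ℝ (Fin e'), ∀ c, ‖G c‖ = ‖τ c‖ := by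
    refine ⟨o.repr.toLinearMap ∘ₗ τ.rangeRestrict, fun c => ?_⟩
    show ‖o.repr (τ.rangeRestrict c)‖ = _
    rw [LinearIsometryEquiv.norm_map]
    rfl
  have hGj : ∀ c j, |G c j| ≤ ‖τ c‖ := fun c j => by
    rw [← hG]
    have := PiLp.norm_apply_le (G c) j
    rwa [Real.norm_eq_abs] at this
  obtain ⟨C₃, hC₃⟩ : ∃ C₃ : ℝ, C₃ = (4 * d * C + 5) * D := ⟨_, rfl⟩
  have hC₃1 : 1 ≤ C₃ := by
    rw [hC₃]
    have : 1 ≤ 4 * d * C + 5 := by nlinarith
    nlinarith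
  obtain ⟨Q, hQ⟩ : ∃ Q : ℕ, Q = ⌈C₃ ^ d⌉₊ := ⟨_, rfl⟩
  have hQ1 : C₃ ^ d ≤ Q := by rw [hQ]; exact Nat.le_ceil _
  have hQ2 : (Q : ℝ) ≤ 2 * C₃ ^ d := by
    have h1 := Nat.ceil_lt_add_one (show 0 ≤ C₃ ^ d by positivity)
    have h2 : 1 ≤ C₃ ^ d := one_le_pow₀ hC₃1
    rw [hQ]; linarith
  have hQ3 : (1:ℝ) ≤ Q := (one_le_pow₀ hC₃1).trans hQ1
  obtain ⟨L, hL⟩ : ∃ L : ℕ, L = ⌈2 * d * (C * D * Q)⌉₊ + 1 := ⟨_, rfl⟩
  have hL1 : 2 * d * (C * D * Q) + 1 ≤ L := by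
    rw [hL]; push_cast
    linarith [Nat.le_ceil (2 * d * (C * D * Q))]
  have hL2 : (L : ℝ) ≤ 2 * d * (C * D * Q) + 2 := by
    rw [hL]; push_cast
    linarith [Nat.ceil_lt_add_one (show 0 ≤ 2 * d * (C * D * Q) by positivity)]
  have hL3 : (2 * L + 1 : ℝ) ≤ C₃ * Q := by
    have h1 : 1 ≤ D * Q := by nlinarith
    rw [hC₃]
    nlinarith
  have hcard : (Fintype.piFinset fun _ : Fin e' => Finset.Icc (-(L:ℤ)) L).card <
      (Finset.univ : Finset (Fin e → Fin (Q + 1))).card := by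
    rw [Finset.card_univ, Fintype.card_fun, Fintype.card_fin, Fintype.card_fin,
      Fintype.card_piFinset_const, Int.card_Icc]
    have h1 : ((L:ℤ) + 1 - (-(L:ℤ))).toNat = 2 * L + 1 := by omega
    rw [h1]
    have h2 : ((2 * L + 1 : ℕ) : ℝ) ^ e' < ((Q + 1 : ℕ) : ℝ) ^ e := by
      push_cast
      calc (2 * (L:ℝ) + 1) ^ e' ≤ (C₃ * Q) ^ e' := by gcongr
        _ = C₃ ^ e' * (Q : ℝ) ^ e' := mul_pow _ _ _
        _ ≤ C₃ ^ d * (Q : ℝ) ^ e' := by
            have : C₃ ^ e' ≤ C₃ ^ d := pow_le_pow_right₀ hC₃1 (by omega)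
            gcongr
        _ ≤ Q * (Q : ℝ) ^ e' := by gcongr
        _ = (Q : ℝ) ^ (e' + 1) := by ring
        _ ≤ (Q : ℝ) ^ e := pow_le_pow_right₀ hQ3 (by omega)
        _ < ((Q : ℝ) + 1) ^ e := by
            apply pow_lt_pow_left₀ (by linarith) (by positivity) (by omega)
    exact_mod_cast h2
  obtain ⟨cR, hcR⟩ : ∃ cR : (Fin e → Fin (Q + 1)) → Fin e → ℝ, ∀ c i, cR c i = ((c i : ℕ) : ℝ) :=
    ⟨fun c i => ((c i : ℕ) : ℝ), fun _ _ => rfl⟩
  have hcQ : ∀ c i, |cR c i| ≤ Q := fun c i => by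
    rw [hcR, abs_of_nonneg (by positivity)]
    exact_mod_cast (Nat.lt_succ_iff.1 (c i).2)
  obtain ⟨c, -, c', -, hne, heq⟩ := Finset.exists_ne_map_eq_of_card_lt_of_maps_to hcard
    (f := fun c => fun j => ⌊2 * d * (G (cR c) j)⌋) (by
      intro c _
      rw [Finset.mem_coe, Fintype.mem_piFinset]
      intro j
      have h1 := (hGj (cR c) j).trans (hτ (cR c) Q (by positivity) (hcQ c))
      rw [abs_le] at h1
      have h2 : |2 * d * (G (cR c) j)| ≤ 2 * d * (C * D * Q) := by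
        rw [abs_mul, abs_of_nonneg (by positivity : (0:ℝ) ≤ 2 * d)]
        gcongr
        rw [abs_le]; exact h1
      rw [abs_le] at h2
      rw [Finset.mem_Icc]
      constructor
      · rw [Int.le_floor]
        push_cast
        linarith [h2.1]
      · have h3 := Int.floor_le (2 * d * (G (cR c) j))
        have h4 : ((⌊2 * d * (G (cR c) j)⌋ : ℤ) : ℝ) ≤ L := by linarith [h2.2]
        exact_mod_cast h4)
  refine ⟨fun i => ((c i : ℕ) : ℤ) - ((c' i : ℕ) : ℤ), fun h => hne ?_, fun i => ?_, ?_⟩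
  · funext i
    have h1 := congrFun h i
    simp only [Pi.zero_apply] at h1
    apply Fin.ext
    omega
  · rw [← hC₃]
    push_cast
    rw [abs_le]
    have h1 : ((c i : ℕ) : ℝ) ≤ Q := by exact_mod_cast (Nat.lt_succ_iff.1 (c i).2)
    have h2 : ((c' i : ℕ) : ℝ) ≤ Q := by exact_mod_cast (Nat.lt_succ_iff.1 (c' i).2)
    have h3 : (0:ℝ) ≤ ((c i : ℕ) : ℝ) := by positivity
    have h4 : (0:ℝ) ≤ ((c' i : ℕ) : ℝ) := by positivity
    constructor <;> linarith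
  · have h1 : (fun i => ((((c i : ℕ) : ℤ) - ((c' i : ℕ) : ℤ) : ℤ) : ℝ)) = cR c - cR c' := by
      funext i
      rw [Pi.sub_apply, hcR, hcR]
      push_cast
      ring
    rw [h1, ← hG, map_sub]
    have h2 : ∀ j, |(G (cR c) - G (cR c')) j| ≤ 1 / (2 * d) := by
      intro j
      have h3 := congrFun heq j
      have h4 : |2 * d * (G (cR c) j) - 2 * d * (G (cR c') j)| < 1 :=
        Int.abs_sub_lt_one_of_floor_eq_floor h3
      have h5 : (G (cR c) - G (cR c')) j = G (cR c) j - G (cR c') j := rfl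
      rw [h5, le_div_iff₀ (by positivity)]
      rw [← mul_sub, abs_mul, abs_of_nonneg (by positivity : (0:ℝ) ≤ 2 * d)] at h4
      linarith
    have h3 := norm_le_of_abs (by positivity) h2
    refine h3.trans ?_
    rw [mul_one_div, div_le_div_iff₀ (by positivity) (by norm_num)]
    have : (e' : ℝ) ≤ d := by exact_mod_cast (by omega : e' ≤ d)
    linarith

end Pool.Agent.H71TB
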