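import Pool.Agent.H71TB.Alg3

/-!
# Ergodic integer matrices have uniformly expanded Diophantine directions
-/

set_option autoImplicit false

open Polynomial Filter
open scoped BigOperators Topology ENNReal NNReal

noncomputable section

namespace Pool.Agent.H71TB

theorem vecMul_kR {d : ℕ} (k : Fin d → ℤ) (A : Matrix (Fin d) (Fin d) ℤ) (i : ℕ) :
    Matrix.vecMul (kR k) (rM A ^ i) = kR (Matrix.vecMul k (A ^ i)) := by
  rw [← rM_pow]
  funext j
  simp [kR, rM, Matrix.vecMul, dotProduct]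

theorem dio_of {d : ℕ} (hd : 0 < d) (A : Matrix (Fin d) (Fin d) ℤ) (f : ℝ[X])
    (hid : aeval (rM A) f * aeval (rM A) f = aeval (rM A) f)
    (hf : ∀ k : Fin d → ℤ, Matrix.vecMul (kR k) (aeval (rM A) f) = 0 → k = 0) :
    ∃ c₀ : ℝ, 0 < c₀ ∧ ∀ (k : Fin d → ℤ) (D : ℝ), k ≠ 0 → (∀ i, |(k i : ℝ)| ≤ D) →
      c₀ ≤ ‖Matrix.vecMul (kR k) (aeval (rM A) f)‖ * D ^ d := by
  obtain ⟨a, ha⟩ : ∃ a, a = rM A := ⟨_, rfl⟩
  obtain ⟨w, hw⟩ : ∃ w, w = aeval a f := ⟨_, rfl⟩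
  rw [← ha, ← hw] at hid hf ⊢
  have hd1 : (1:ℝ) ≤ d := by exact_mod_cast hd
  have hcomm : ∀ i : ℕ, a ^ i * w = w * a ^ i := by
    intro i
    rw [hw]
    have h1 : a ^ i = aeval a (X ^ i : ℝ[X]) := by rw [map_pow, aeval_X]
    rw [h1, ← map_mul, ← map_mul, mul_comm]
  obtain ⟨C₁, hC₁⟩ : ∃ C₁ : ℝ, C₁ = 1 + ∑ i ∈ Finset.range d, mbR (a ^ i * (1 - w)) := ⟨_, rfl⟩
  obtain ⟨C₂, hC₂⟩ : ∃ C₂ : ℝ, C₂ = 1 + ∑ i ∈ Finset.range d, mbR (a ^ i) := ⟨_, rfl⟩
  have hC₁b : ∀ i < d, mbR (a ^ i * (1 - w)) ≤ C₁ := fun i hi => by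
    have := Finset.single_le_sum (f := fun i => mbR (a ^ i * (1 - w)))
      (fun _ _ => mbR_nonneg _) (Finset.mem_range.2 hi)
    rw [hC₁]
    linarith
  have hC₂b : ∀ i < d, mbR (a ^ i) ≤ C₂ := fun i hi => by
    have := Finset.single_le_sum (f := fun i => mbR (a ^ i))
      (fun _ _ => mbR_nonneg _) (Finset.mem_range.2 hi)
    rw [hC₂]
    linarith
  have hC₁1 : 1 ≤ C₁ := by
    rw [hC₁]
    linarith [Finset.sum_nonneg fun i (_ : i ∈ Finset.range d) => mbR_nonneg (a ^ i * (1 - w))]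
  have hC₂1 : 1 ≤ C₂ := by
    rw [hC₂]
    linarith [Finset.sum_nonneg fun i (_ : i ∈ Finset.range d) => mbR_nonneg (a ^ i)]
  obtain ⟨C₃, hC₃⟩ : ∃ C₃ : ℝ, C₃ = 4 * d * (d * d * C₁) + 5 := ⟨_, rfl⟩
  have hC₃1 : 1 ≤ C₃ := by
    rw [hC₃]
    have : 0 ≤ 4 * (d:ℝ) * (d * d * C₁) := by positivity
    linarith
  refine ⟨1 / (4 * d * C₂ * C₃ ^ d), by positivity, fun k D hk hD => ?_⟩
  obtain ⟨e, hed, hli, hsp⟩ := krylov a (kR k)
  -- `D ≥ 1`
  have hD1 : 1 ≤ D := by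
    obtain ⟨i, hi⟩ : ∃ i, k i ≠ 0 := by
      by_contra hcon
      push Not at hcon
      exact hk (funext hcon)
    refine le_trans ?_ (hD i)
    have := Int.one_le_abs hi
    exact_mod_cast this
  have hkn : ‖kR k‖ ≤ D := by
    rw [pi_norm_le_iff_of_nonneg (by linarith)]
    intro i
    exact hD i
  obtain ⟨x, hx⟩ : ∃ x : Fin e → Fin d → ℝ, x = fun i : Fin e => Matrix.vecMul (kR k) (a ^ (i : ℕ)) :=
    ⟨_, rfl⟩
  rw [← hx] at hli hsp
  have hxi : ∀ i, x i = Matrix.vecMul (kR k) (a ^ (i : ℕ)) := fun i => by rw [hx]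
  obtain ⟨τ, hτ⟩ : ∃ τ : (Fin e → ℝ) →ₗ[ℝ] EuclideanSpace ℝ (Fin d), ∀ c,
      τ c = WithLp.toLp 2 (Matrix.vecMul (∑ i, c i • x i) (1 - w)) := by
    refine ⟨(WithLp.linearEquiv 2 ℝ (Fin d → ℝ)).symm.toLinearMap ∘ₗ
      (Matrix.vecMulLinear (1 - w)) ∘ₗ (Fintype.linearCombination ℝ x), fun c => ?_⟩
    rfl
  have hτj : ∀ c j, τ c j = Matrix.vecMul (∑ i, c i • x i) (1 - w) j := fun c j => by rw [hτ]
  have hker : ∃ c, c ≠ 0 ∧ τ c = 0 := by
    have h1 : Matrix.vecMul (kR k) w ∈ Submodule.span ℝ (Set.range x) := by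
      rw [hw, vecMul_aeval _ _ _ (Nat.lt_succ_self _)]
      exact Submodule.sum_mem _ fun i _ => Submodule.smul_mem _ _ (hsp i)
    rw [Submodule.mem_span_range_iff_exists_fun] at h1
    obtain ⟨c, hc⟩ := h1
    refine ⟨c, fun h0 => hk (hf k ?_), ?_⟩
    · rw [← hc, h0]; simp
    · rw [hτ, hc, Matrix.vecMul_vecMul, mul_sub, mul_one, hid, sub_self, Matrix.vecMul_zero]
      rfl
  have hτb : ∀ (c : Fin e → ℝ) (M : ℝ), 0 ≤ M → (∀ i, |c i| ≤ M) →
      ‖τ c‖ ≤ (d * d * C₁) * D * M := by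
    intro c M hM hcM
    have h1 : ∀ j, |τ c j| ≤ d * (M * (C₁ * D)) := by
      intro j
      rw [hτj, Matrix.sum_vecMul, Finset.sum_apply]
      refine (Finset.abs_sum_le_sum_abs _ _).trans ?_
      calc ∑ i, |Matrix.vecMul (c i • x i) (1 - w) j| ≤ ∑ _i : Fin e, M * (C₁ * D) := by
            refine Finset.sum_le_sum fun i _ => ?_
            rw [Matrix.smul_vecMul, Pi.smul_apply, smul_eq_mul, abs_mul, hxi,
              Matrix.vecMul_vecMul]
            have h2 := mbR_bd (a ^ (i : ℕ) * (1 - w)) (kR k) j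
            have h3 := hC₁b i (by omega)
            have h4 : mbR (a ^ (i : ℕ) * (1 - w)) * ‖kR k‖ ≤ C₁ * D := by
              gcongr
            exact mul_le_mul (hcM i) (h2.trans h4) (abs_nonneg _) hM
        _ = e * (M * (C₁ * D)) := by simp
        _ ≤ d * (M * (C₁ * D)) := by gcongr
    have h2 := norm_le_of_abs (by positivity) h1
    refine h2.trans (le_of_eq ?_)
    ring
  have hdd : 1 ≤ d * d * C₁ := by nlinarith
  obtain ⟨n, hn0, hnb, hn⟩ := pigeon hed hd τ hker hdd hD1 hτb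
  rw [← hC₃] at hnb
  obtain ⟨v, hv⟩ : ∃ v : Fin d → ℤ, v = ∑ i, n i • Matrix.vecMul k (A ^ (i : ℕ)) := ⟨_, rfl⟩
  have hvR : kR v = ∑ i, (n i : ℝ) • x i := by
    funext j
    rw [hv, Finset.sum_apply]
    simp only [kR, Finset.sum_apply, Pi.smul_apply, smul_eq_mul, Int.cast_sum, Int.cast_mul, hxi]
    rw [ha]
    refine Finset.sum_congr rfl fun i _ => ?_
    have := congrFun (vecMul_kR k A i) j
    simp only [kR] at this
    rw [← this]
  have hv0 : v ≠ 0 := by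
    intro h0
    apply hn0
    have h1 : ∑ i, (n i : ℝ) • x i = 0 := by
      rw [← hvR, h0]
      funext j
      simp [kR]
    have h2 := (Fintype.linearIndependent_iff.1 hli) (fun i => (n i : ℝ)) h1
    funext i
    exact_mod_cast h2 i
  obtain ⟨j, hj⟩ : ∃ j, v j ≠ 0 := by
    by_contra hcon
    push Not at hcon
    exact hv0 (funext hcon)
  have hj1 : 1 ≤ |kR v j| := by
    have := Int.one_le_abs hj
    show (1:ℝ) ≤ |((v j : ℤ) : ℝ)|
    exact_mod_cast this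
  have hdec : kR v j = Matrix.vecMul (kR v) w j + τ (fun i => (n i : ℝ)) j := by
    rw [hτj, ← hvR, Matrix.vecMul_sub, Matrix.vecMul_one, Pi.sub_apply]
    ring
  have h1 : |τ (fun i => (n i : ℝ)) j| ≤ 1 / 2 := by
    have := PiLp.norm_apply_le (τ fun i => (n i : ℝ)) j
    rw [Real.norm_eq_abs] at this
    exact this.trans hn
  have h2 : 1 / 2 ≤ |Matrix.vecMul (kR v) w j| := by
    have := abs_add_le (Matrix.vecMul (kR v) w j) (τ (fun i => (n i : ℝ)) j)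
    rw [← hdec] at this
    linarith
  have h3 : |Matrix.vecMul (kR v) w j| ≤
      d * (2 * (C₃ * D) ^ d * (C₂ * ‖Matrix.vecMul (kR k) w‖)) := by
    rw [hvR, Matrix.sum_vecMul, Finset.sum_apply]
    refine (Finset.abs_sum_le_sum_abs _ _).trans ?_
    calc ∑ i, |Matrix.vecMul ((n i : ℝ) • x i) w j| ≤
        ∑ _i : Fin e, 2 * (C₃ * D) ^ d * (C₂ * ‖Matrix.vecMul (kR k) w‖) := by
          refine Finset.sum_le_sum fun i _ => ?_
          rw [Matrix.smul_vecMul, Pi.smul_apply, smul_eq_mul, abs_mul, hxi,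
            Matrix.vecMul_vecMul, hcomm, ← Matrix.vecMul_vecMul]
          have h4 := mbR_bd (a ^ (i : ℕ)) (Matrix.vecMul (kR k) w) j
          have h5 := hC₂b i (by omega)
          have h6 : mbR (a ^ (i : ℕ)) * ‖Matrix.vecMul (kR k) w‖ ≤
              C₂ * ‖Matrix.vecMul (kR k) w‖ := by gcongr
          exact mul_le_mul (hnb i) (h4.trans h6) (abs_nonneg _) (by positivity)
      _ = e * (2 * (C₃ * D) ^ d * (C₂ * ‖Matrix.vecMul (kR k) w‖)) := by simp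
      _ ≤ d * (2 * (C₃ * D) ^ d * (C₂ * ‖Matrix.vecMul (kR k) w‖)) := by gcongr
  rw [div_le_iff₀ (by positivity)]
  have h4 := h2.trans h3
  rw [mul_pow] at h4
  nlinarith

/-- Nonsingular integer matrices without roots of unity among their eigenvalues have uniformly
expanded Diophantine directions. -/
theorem expd_of_erg {d : ℕ} (hd : 0 < d) {A : Matrix (Fin d) (Fin d) ℤ} (hdet : A.det ≠ 0)
    (herg : ∀ n : ℕ, 1 ≤ n → (A ^ n - 1).det ≠ 0) :
    ∃ (W B B' : Matrix (Fin d) (Fin d) ℝ) (C κ c₀ : ℝ), Expd A W B B' C κ c₀ d := by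
  obtain ⟨Q, w, b, b', C, κ, hQ, hwQ, hid, hcomm, hbb, hC, hκ, hκ1, hc1, hc2⟩ :=
    spec_dec hd (rM A)
  obtain ⟨c₀, hc₀, hdio⟩ := dio_of hd A w hid fun k hk => ann_int hdet herg k hQ (hwQ _ hk)
  exact ⟨aeval (rM A) w, aeval (rM A) b, aeval (rM A) b', C, κ, c₀, {
    inv := hbb
    inv' := by
      rw [← map_mul, mul_comm, map_mul]
      exact hbb
    comm := hcomm
    C_ge := hC
    κ_pos := hκ
    κ_lt := hκ1
    contr := hc1
    contr' := hc2
    c₀_pos := hc₀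
    dio := hdio }⟩

end Pool.Agent.H71TB
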