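import Pool.Agent.H71TB.Exp

/-!
# The choice of the initial point
-/

set_option autoImplicit false

open MeasureTheory Set Filter
open scoped Topology ENNReal BigOperators Real

noncomputable section

namespace Pool.Agent.H71TB

theorem G_le (r t : ℝ) : G r t ≤ 4 := by
  unfold G
  have := pow_le_one₀ (n := NG r) (q_nonneg t) (q_le_one t)
  linarith

theorem U_Ioc {κ₀ : ℝ} (h1 : κ₀ ≤ 1) : U 0 1 (Ioc 0 κ₀) = ENNReal.ofReal κ₀ := by
  unfold U
  rw [Measure.smul_apply, Measure.restrict_apply measurableSet_Ioc]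
  have : Ioc 0 κ₀ ∩ Ioc 0 1 = Ioc 0 κ₀ := by
    ext x
    simp only [mem_inter_iff, mem_Ioc]
    constructor
    · rintro ⟨h, _⟩; exact h
    · intro h; exact ⟨h, h.1, h.2.trans h1⟩
  rw [this, Real.volume_Ioc]
  simp

theorem Cu_box {d : ℕ} {κ₀ : ℝ} (h0 : 0 < κ₀) (h1 : κ₀ ≤ 1) :
    (Cu d 0 1).real (Set.pi univ fun _ : Fin d => Ioc 0 κ₀) = κ₀ ^ d := by
  have := U_prob (a := 0) (b := 1) zero_lt_one
  unfold Cu Measure.real
  rw [Measure.pi_pi]
  simp [U_Ioc h1, ENNReal.toReal_ofReal h0.le]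

/-- a nonnegative function with small integral is small somewhere in a given box -/
theorem exists_small {d : ℕ} {κ₀ : ℝ} (h0 : 0 < κ₀) (h1 : κ₀ ≤ 1) {H : (Fin d → ℝ) → ℝ}
    (hint : Integrable H (Cu d 0 1)) (hpos : ∀ p, 0 ≤ H p) (hH : ∫ p, H p ∂(Cu d 0 1) < κ₀ ^ d) :
    ∃ p : Fin d → ℝ, (∀ i, 0 < p i ∧ p i ≤ κ₀) ∧ H p < 1 := by
  have := Cu_prob (u := d) zero_lt_one
  by_contra hcon
  push Not at hcon
  have hms : MeasurableSet (Set.pi univ fun _ : Fin d => Ioc (0:ℝ) κ₀) :=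
    MeasurableSet.univ_pi fun _ => measurableSet_Ioc
  have h2 : ∫ p, (Set.pi univ fun _ : Fin d => Ioc (0:ℝ) κ₀).indicator 1 p ∂(Cu d 0 1) ≤
      ∫ p, H p ∂(Cu d 0 1) := by
    apply integral_mono ((integrable_const (1:ℝ)).indicator hms) hint
    intro p
    by_cases hp : p ∈ Set.pi univ fun _ : Fin d => Ioc (0:ℝ) κ₀
    · rw [indicator_of_mem hp]
      exact hcon p fun i => ⟨(hp i (mem_univ i)).1, (hp i (mem_univ i)).2⟩
    · rw [indicator_of_notMem hp]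
      exact hpos p
  rw [integral_indicator_one hms, Cu_box h0 h1] at h2
  linarith

theorem G_mean_coord {d : ℕ} {r : ℝ} (hr : 0 < r) (hr4 : r ≤ 1 / 4) (i₀ : Fin d) :
    ∫ x, G r (x i₀) ∂(Cu d 0 1) ≤ 16 * r := by
  classical
  apply integral_Cu_le zero_lt_one i₀ (f := fun x => G r (x i₀))
    ((continuous_G r).comp (continuous_apply i₀)) (fun x => G_nonneg _ _)
  · intro x
    simp only [Function.update_self]
    rw [integral_U zero_lt_one]
    simpa using G_mean hr hr4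
  · intro x
    simp only [Function.update_self]
    exact integrable_U zero_lt_one (continuous_G r)

theorem mulVec_eq {d : ℕ} (M : Matrix (Fin d) (Fin d) ℤ) (x : Fin d → ℝ) :
    (M.map (Int.cast : ℤ → ℝ)).mulVec x = (rM M).mulVec x := rfl

theorem G_mean_comp {d : ℕ} {r : ℝ} (hr : 0 < r) (hr4 : r ≤ 1 / 4) (i₀ : Fin d)
    (M : Matrix (Fin d) (Fin d) ℤ) (b : Fin d → ℝ)
    (hM : ∀ k : Fin d → ℤ, k ≠ 0 → Matrix.vecMul k M ≠ 0) :
    ∫ x, G r (((rM M).mulVec x + b) i₀) ∂(Cu d 0 1) ≤ 16 * r := by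
  have h := mean_comp (TP_G i₀ r) M b hM
  rw [integral_complex_ofReal, integral_complex_ofReal, Complex.ofReal_inj] at h
  have h2 : ∫ x, G r (((rM M).mulVec x + b) i₀) ∂(Cu d 0 1) = ∫ x, G r (x i₀) ∂(Cu d 0 1) := h
  rw [h2]
  exact G_mean_coord hr hr4 i₀

theorem F_mean_comp {d N : ℕ} (M : Matrix (Fin d) (Fin d) ℤ) (b : Fin d → ℝ)
    (hM : ∀ k : Fin d → ℤ, k ≠ 0 → Matrix.vecMul k M ≠ 0) :
    ∫ x, F d N ((rM M).mulVec x + b) ∂(Cu d 0 1) = aN N ^ d := by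
  have h := mean_comp (TP_F d N) M b hM
  rw [integral_complex_ofReal, integral_complex_ofReal, Complex.ofReal_inj, F_mean] at h
  exact h

variable {d u : ℕ} {A : Matrix (Fin d) (Fin d) ℤ} {W : Matrix (Fin d) (Fin u) ℝ}
    {B B' : Matrix (Fin u) (Fin u) ℝ} {C κ c₀ : ℝ} {D₀ : ℕ}

/-- the pair kernel -/
def KK (A : Matrix (Fin d) (Fin d) ℤ) (N : ℕ) (r : ℝ) (i₀ : Fin d) (j : ℕ) (a : Fin d → ℝ)
    (p y : Fin d → ℝ) : ℝ :=
  F d N ((rM (A ^ j)).mulVec y + ((rM (A ^ j - 1)).mulVec p + a)) * G r (y i₀)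

theorem continuous_KK (N : ℕ) (r : ℝ) (i₀ : Fin d) (j : ℕ) (a : Fin d → ℝ) :
    Continuous fun w : (Fin d → ℝ) × (Fin d → ℝ) => KK A N r i₀ j a w.1 w.2 := by
  unfold KK
  refine ((continuous_F d N).comp ?_).mul ((continuous_G r).comp
    ((continuous_apply i₀).comp continuous_snd))
  refine Continuous.add (Continuous.matrix_mulVec continuous_const continuous_snd) ?_
  exact (Continuous.matrix_mulVec continuous_const continuous_fst).add continuous_const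

theorem integrable_KK (N : ℕ) (r : ℝ) (i₀ : Fin d) (j : ℕ) (a : Fin d → ℝ) :
    Integrable (fun w : (Fin d → ℝ) × (Fin d → ℝ) => KK A N r i₀ j a w.1 w.2)
      ((Cu d 0 1).prod (Cu d 0 1)) := by
  have := Cu_prob (u := d) zero_lt_one
  refine Integrable.of_bound (continuous_KK N r i₀ j a).aestronglyMeasurable 4
    (Eventually.of_forall fun w => ?_)
  unfold KK
  rw [norm_mul, Real.norm_of_nonneg (F_nonneg _), Real.norm_of_nonneg (G_nonneg _ _)]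
  calc _ ≤ 1 * 4 := mul_le_mul (F_le_one _) (G_le _ _) (G_nonneg _ _) zero_le_one
    _ = 4 := one_mul 4

theorem integral_KK (h : Expd A W B B' C κ c₀ D₀) {N : ℕ} {r : ℝ} (hr : 0 < r) (hr4 : r ≤ 1 / 4)
    (i₀ : Fin d) {j : ℕ} (hj : 1 ≤ j) (a : Fin d → ℝ) :
    ∫ p, ∫ y, KK A N r i₀ j a p y ∂(Cu d 0 1) ∂(Cu d 0 1) ≤ aN N ^ d * (16 * r) := by
  have := Cu_prob (u := d) zero_lt_one
  rw [integral_integral_swap (integrable_KK N r i₀ j a)]
  have h1 : ∀ y : Fin d → ℝ, ∫ p, KK A N r i₀ j a p y ∂(Cu d 0 1) = aN N ^ d * G r (y i₀) := by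
    intro y
    unfold KK
    rw [integral_mul_const]
    have h2 := F_mean_comp (N := N) (A ^ j - 1) ((rM (A ^ j)).mulVec y + a) fun k hk => no_per h hj hk
    rw [← h2]
    congr 2
    ext p
    congr 1
    abel
  simp only [h1]
  rw [integral_const_mul]
  exact mul_le_mul_of_nonneg_left (G_mean_coord hr hr4 i₀) (pow_nonneg (aN_pos N).le d)

theorem select (h : Expd A W B B' C κ c₀ D₀) {N J t₀ : ℕ} {r r₁ κ₀ : ℝ} (hr : 0 < r)
    (hr4 : r ≤ 1 / 4) (hr₁ : 0 < r₁) (hr₁4 : r₁ ≤ 1 / 4) (h0 : 0 < κ₀) (h1 : κ₀ ≤ 1) (i₀ : Fin d)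
    (hsmall : t₀ * (16 * r₁) + J * (128 * r) < κ₀ ^ d) (m : ℕ) (tr : ℕ → Fin d → ℝ) :
    ∃ p : Fin d → ℝ, (∀ i, 0 < p i ∧ p i ≤ κ₀) ∧
      (∀ n, 0 < n → n < t₀ → ∀ l : ℤ, r₁ < |((rM (A ^ n)).mulVec p + tr n - p) i₀ - l|) ∧
      ∑ j ∈ Finset.Icc 1 J, ∫ y, F d N ((rM (A ^ j)).mulVec y +
        ((rM (A ^ j)).mulVec p + (tr m - (rM (A ^ j)).mulVec (tr (m - j))) - p)) * G r (y i₀)
        ∂(Cu d 0 1) ≤ aN N ^ d / 8 := by
  have := Cu_prob (u := d) zero_lt_one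
  have hI : 0 < aN N ^ d := pow_pos (aN_pos N) d
  obtain ⟨a, ha⟩ : ∃ a : ℕ → Fin d → ℝ, a = fun j => tr m - (rM (A ^ j)).mulVec (tr (m - j)) :=
    ⟨_, rfl⟩
  have hcG : ∀ n, Continuous fun p : Fin d → ℝ => G r₁ (((rM (A ^ n - 1)).mulVec p + tr n) i₀) :=
    fun n => (continuous_G _).comp ((continuous_apply i₀).comp
      ((Continuous.matrix_mulVec continuous_const continuous_id).add continuous_const))
  have hiG : ∀ n ∈ Finset.Ico 1 t₀, Integrable (fun p : Fin d → ℝ =>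
      G r₁ (((rM (A ^ n - 1)).mulVec p + tr n) i₀)) (Cu d 0 1) :=
    fun n _ => integrable_Cu zero_lt_one (hcG n)
  have hiK : ∀ j ∈ Finset.Icc 1 J, Integrable (fun p : Fin d → ℝ =>
      ∫ y, KK A N r i₀ j (a j) p y ∂(Cu d 0 1)) (Cu d 0 1) :=
    fun j _ => (integrable_KK N r i₀ j (a j)).integral_prod_left
  have hKpos : ∀ j p, 0 ≤ ∫ y, KK A N r i₀ j (a j) p y ∂(Cu d 0 1) := fun j p =>
    integral_nonneg fun y => mul_nonneg (F_nonneg _) (G_nonneg _ _)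
  obtain ⟨p, hp1, hp2⟩ := exists_small (d := d) h0 h1
    (H := fun p => (∑ n ∈ Finset.Ico 1 t₀, G r₁ (((rM (A ^ n - 1)).mulVec p + tr n) i₀)) +
      8 / aN N ^ d * ∑ j ∈ Finset.Icc 1 J, ∫ y, KK A N r i₀ j (a j) p y ∂(Cu d 0 1))
    ((integrable_finsetSum _ hiG).add ((integrable_finsetSum _ hiK).const_mul _))
    (fun p => add_nonneg (Finset.sum_nonneg fun _ _ => G_nonneg _ _)
      (mul_nonneg (by positivity) (Finset.sum_nonneg fun j _ => hKpos j p))) (by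
      rw [integral_add (integrable_finsetSum _ hiG) ((integrable_finsetSum _ hiK).const_mul _),
        integral_finsetSum _ hiG, integral_const_mul, integral_finsetSum _ hiK]
      have h2 : ∑ n ∈ Finset.Ico 1 t₀, ∫ p, G r₁ (((rM (A ^ n - 1)).mulVec p + tr n) i₀)
          ∂(Cu d 0 1) ≤ ∑ n ∈ Finset.Ico 1 t₀, 16 * r₁ := by
        refine Finset.sum_le_sum fun n hn => ?_
        rw [Finset.mem_Ico] at hn
        exact G_mean_comp hr₁ hr₁4 i₀ _ _ fun k hk => no_per h hn.1 hk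
      have h3 : ∑ j ∈ Finset.Icc 1 J, ∫ p, ∫ y, KK A N r i₀ j (a j) p y ∂(Cu d 0 1)
          ∂(Cu d 0 1) ≤ ∑ j ∈ Finset.Icc 1 J, aN N ^ d * (16 * r) := by
        refine Finset.sum_le_sum fun j hj => ?_
        rw [Finset.mem_Icc] at hj
        exact integral_KK h hr hr4 i₀ hj.1 _
      simp only [Finset.sum_const, Nat.card_Ico, Nat.card_Icc, nsmul_eq_mul,
        add_tsub_cancel_right] at h2 h3
      have h4 : ((t₀ - 1 : ℕ) : ℝ) * (16 * r₁) ≤ t₀ * (16 * r₁) := by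
        have : ((t₀ - 1 : ℕ) : ℝ) ≤ t₀ := by exact_mod_cast Nat.sub_le _ _
        gcongr
      have h5 : 8 / aN N ^ d * ∑ j ∈ Finset.Icc 1 J, ∫ p, ∫ y, KK A N r i₀ j (a j) p y
          ∂(Cu d 0 1) ∂(Cu d 0 1) ≤ J * (128 * r) := by
        calc _ ≤ 8 / aN N ^ d * (J * (aN N ^ d * (16 * r))) := by gcongr
          _ = _ := by field_simp; ring
      linarith)
  have hp3 : ∑ n ∈ Finset.Ico 1 t₀, G r₁ (((rM (A ^ n - 1)).mulVec p + tr n) i₀) < 1 := by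
    have : 0 ≤ 8 / aN N ^ d * ∑ j ∈ Finset.Icc 1 J, ∫ y, KK A N r i₀ j (a j) p y ∂(Cu d 0 1) :=
      mul_nonneg (by positivity) (Finset.sum_nonneg fun j _ => hKpos j p)
    linarith
  have hp4 : ∑ j ∈ Finset.Icc 1 J, ∫ y, KK A N r i₀ j (a j) p y ∂(Cu d 0 1) ≤ aN N ^ d / 8 := by
    have h2 : 0 ≤ ∑ n ∈ Finset.Ico 1 t₀, G r₁ (((rM (A ^ n - 1)).mulVec p + tr n) i₀) :=
      Finset.sum_nonneg fun _ _ => G_nonneg _ _
    have h3 : 8 / aN N ^ d * ∑ j ∈ Finset.Icc 1 J, ∫ y, KK A N r i₀ j (a j) p y ∂(Cu d 0 1) < 1 := by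
      linarith
    rw [div_mul_eq_mul_div, div_lt_one hI] at h3
    linarith
  have hsub : ∀ n, (rM (A ^ n - 1)).mulVec p = (rM (A ^ n)).mulVec p - p := by
    intro n
    rw [rM_sub, rM_one, Matrix.sub_mulVec, Matrix.one_mulVec]
  refine ⟨p, hp1, ?_, ?_⟩
  · intro n hn0 hnt l
    have h2 : G r₁ (((rM (A ^ n - 1)).mulVec p + tr n) i₀) < 1 :=
      lt_of_le_of_lt (Finset.single_le_sum
        (f := fun n => G r₁ (((rM (A ^ n - 1)).mulVec p + tr n) i₀)) (fun _ _ => G_nonneg _ _)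
        (Finset.mem_Ico.2 ⟨hn0, hnt⟩)) hp3
    by_contra hcon
    push Not at hcon
    have h3 := G_large (t := ((rM (A ^ n)).mulVec p + tr n - p) i₀) hr₁ hr₁4 hcon
    have h4 : (rM (A ^ n - 1)).mulVec p + tr n = (rM (A ^ n)).mulVec p + tr n - p := by
      rw [hsub]; abel
    rw [h4] at h2
    linarith
  · refine le_trans (le_of_eq ?_) hp4
    refine Finset.sum_congr rfl fun j _ => ?_
    congr 1
    ext y
    unfold KK
    congr 2
    rw [hsub, ha]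
    simp only
    abel

end Pool.Agent.H71TB
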