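import Pool.Agent.H71TB.Tree
import Pool.Agent.H71TB.Sel

/-!
# Returns of nonautonomous affine maps of the torus with a given ergodic linear part
-/

set_option autoImplicit false

open MeasureTheory Set Filter
open scoped Topology ENNReal BigOperators Real

noncomputable section

namespace Pool.Agent.H71TB

variable {d u : ℕ} {A : Matrix (Fin d) (Fin d) ℤ} {W : Matrix (Fin d) (Fin u) ℝ}
    {B B' : Matrix (Fin u) (Fin u) ℝ} {C κ c₀ : ℝ} {D₀ : ℕ}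

theorem core_num (h : Expd A W B B' C κ c₀ D₀) {N J L q t₀ : ℕ} {r s ε D D' κ₀ : ℝ} (hs : 0 < s)
    (hr : 0 < r) (hrad : r + mW W * (C * s) ≤ 1 / 4) (hε : 0 < ε) (hε1 : ε ≤ 1) (i₀ : Fin d)
    (hq : C * κ ^ q ≤ 1 / 2)
    (hsum : ∑ i ∈ Finset.range q, (16 * rad W C κ r s q i +
      8 * rad W C κ r s q i * C / (s / 2 * c₀) * κ ^ i) < 1)
    (hJL : J ≤ L) (hq0 : 0 < q) (ht₀ : 0 < t₀)
    (hD : 0 < D) (hDN : d * N ≤ D) (hJ2 : 2 * (NG r * mW W) ≤ c₀ * (1 / κ) ^ J / (C * D ^ D₀))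
    (hD' : 0 < D') (hD'N : ∀ j, 1 ≤ j → j ≤ J → mb (A ^ j) * (d * N) + NG r ≤ D')
    (ha : 16 * r * (L + q) + 8 * r * C / (s * c₀ * (1 - κ)) ≤ 1 / 4)
    (hc : (1 + 4 * (L + q)) / ((c₀ * (1 / κ) ^ L / (2 * C ^ 2 * D ^ D₀)) * s) +
      4 * J / ((c₀ * (1 / κ) ^ (L - J) / (C * D' ^ D₀)) * s) ≤ aN N ^ d / 8)
    (hτ2 : (1 - ε ^ 2) ^ N < aN N ^ d / 2)
    (hκ₀ : 0 < κ₀) (hκ₀1 : κ₀ ≤ 1)
    (hsmall : t₀ * (16 * (r + mW W * (C * s))) + J * (128 * r) < κ₀ ^ d)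
    (he1 : mW W * (C * κ ^ t₀ * s) ≤ ε / 2) (he2 : ε ≤ r) (he3 : ε ≤ κ₀)
    {m : ℕ} (hm : t₀ + L + q ≤ m) (tr : ℕ → Fin d → ℝ) :
    ∃ y : Fin d → ℝ, ‖y‖ ≤ 2 * κ₀ ∧
      (∃ l : Fin d → ℤ, ∀ i, |((rM (A ^ m)).mulVec y + tr m - y) i - l i| ≤ ε) ∧
      ∀ n, 0 < n → n < m → ∀ l : Fin d → ℤ, ∃ i,
        r / 2 ≤ |((rM (A ^ n)).mulVec y + tr n - y) i - l i| := by
  have hκ := h.κ_pos
  have hC := h.C_ge
  have hmW := mW_nonneg W
  have hr4 : r ≤ 1 / 4 := by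
    have : 0 ≤ mW W * (C * s) := by positivity
    linarith
  have hr₁ : 0 < r + mW W * (C * s) := by positivity
  obtain ⟨p, hp1, hp2, hp3⟩ := select h hr hr4 hr₁ hrad hκ₀ hκ₀1 i₀ hsmall m tr (N := N)
  obtain ⟨ζ, hζ1, ⟨l, hl⟩, hζ3⟩ := orbit h (N := N) (J := J) (L := L) (q := q) (t₀ := t₀)
    (r := r) (s := s) (ε := ε) (D := D) (D' := D') hs hr hrad hε hε1 i₀ hq hsum hJL hq0 ht₀ hD hDN
    hJ2 hD' hD'N ha hc hτ2 hm (fun n => (rM (A ^ n)).mulVec p + tr n - p)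
    (fun j => (rM (A ^ j)).mulVec p + (tr m - (rM (A ^ j)).mulVec (tr (m - j))) - p) (by
      intro j hj1 hj2
      have e1 : (rM (A ^ j)).mulVec ((rM (A ^ (m - j))).mulVec p) = (rM (A ^ m)).mulVec p := by
        rw [Matrix.mulVec_mulVec, ← rM_mul, ← pow_add, show j + (m - j) = m by omega]
      rw [Matrix.mulVec_sub, Matrix.mulVec_add, e1]
      abel) hp2 hp3
  have hW : ‖W.mulVec ζ‖ ≤ ε / 2 := by
    refine (mulVec_le W ζ).trans (le_trans ?_ he1)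
    gcongr
  have hWi : ∀ i, |(W.mulVec ζ) i| ≤ ε / 2 := fun i => by
    have := norm_le_pi_norm (W.mulVec ζ) i
    rw [Real.norm_eq_abs] at this
    exact this.trans hW
  have hX : ∀ n, (rM (A ^ n)).mulVec (p + W.mulVec ζ) + tr n - (p + W.mulVec ζ) =
      ((rM (A ^ n)).mulVec p + tr n - p + (W * B ^ n).mulVec ζ) - W.mulVec ζ := by
    intro n
    rw [Matrix.mulVec_add, Matrix.mulVec_mulVec, A_W h]
    abel
  refine ⟨p + W.mulVec ζ, ?_, ⟨l, fun i => ?_⟩, ?_⟩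
  · have h1 : ‖p‖ ≤ κ₀ := by
      rw [pi_norm_le_iff_of_nonneg hκ₀.le]
      intro i
      rw [Real.norm_eq_abs, abs_of_pos (hp1 i).1]
      exact (hp1 i).2
    have := norm_add_le p (W.mulVec ζ)
    linarith
  · rw [hX]
    have h1 := hl i
    have h2 := hWi i
    rw [Pi.sub_apply]
    have h3 := abs_sub (((rM (A ^ m)).mulVec p + tr m - p + (W * B ^ m).mulVec ζ) i - l i)
      ((W.mulVec ζ) i)
    rw [show ((rM (A ^ m)).mulVec p + tr m - p + (W * B ^ m).mulVec ζ) i - W.mulVec ζ i - l i =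
      ((rM (A ^ m)).mulVec p + tr m - p + (W * B ^ m).mulVec ζ) i - l i - W.mulVec ζ i by ring]
    linarith
  · intro n hn0 hnm l'
    refine ⟨i₀, ?_⟩
    have h1 := hζ3 n hn0 hnm (l' i₀)
    have h2 := hWi i₀
    rw [hX, Pi.sub_apply]
    have h3 := abs_sub_abs_le_abs_sub
      (((rM (A ^ n)).mulVec p + tr n - p + (W * B ^ n).mulVec ζ) i₀ - (l' i₀:ℝ))
      ((W.mulVec ζ) i₀)
    rw [show ((rM (A ^ n)).mulVec p + tr n - p + (W * B ^ n).mulVec ζ) i₀ - W.mulVec ζ i₀ - l' i₀ =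
      ((rM (A ^ n)).mulVec p + tr n - p + (W * B ^ n).mulVec ζ) i₀ - l' i₀ - W.mulVec ζ i₀ by ring]
    linarith

/-! ### asymptotics -/

theorem ev_const {κ : ℝ} (h0 : 0 < κ) (h1 : κ < 1) (c : ℝ) {x : ℝ} (hx : 0 < x) :
    ∀ᶠ n : ℕ in atTop, c * κ ^ n < x := by
  have h : Tendsto (fun n : ℕ => c * κ ^ n) atTop (𝓝 (c * 0)) :=
    (tendsto_pow_atTop_nhds_zero_of_lt_one h0.le h1).const_mul c
  rw [mul_zero] at h
  exact h.eventually_lt_const hx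

theorem ev_lin {κ : ℝ} (h0 : 0 < κ) (h1 : κ < 1) (a b : ℝ) {x : ℝ} (hx : 0 < x) :
    ∀ᶠ n : ℕ in atTop, (a * n + b) * κ ^ n < x := by
  have h : Tendsto (fun n : ℕ => a * ((n:ℝ) * κ ^ n) + b * κ ^ n) atTop (𝓝 (a * 0 + b * 0)) :=
    ((tendsto_self_mul_const_pow_of_lt_one h0.le h1).const_mul a).add
      ((tendsto_pow_atTop_nhds_zero_of_lt_one h0.le h1).const_mul b)
  simp only [mul_zero, add_zero] at h
  filter_upwards [h.eventually_lt_const hx] with n hn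
  linarith

theorem ev_exp (d : ℕ) : ∀ᶠ Y : ℝ in atTop, Real.exp (-Y) < (1 / (5 * Y ^ 3)) ^ d / 2 := by
  have h : Tendsto (fun Y : ℝ => (2 * 5 ^ d) * (Y ^ (3 * d) * Real.exp (-Y))) atTop
      (𝓝 ((2 * 5 ^ d) * 0)) :=
    (Real.tendsto_pow_mul_exp_neg_atTop_nhds_zero (3 * d)).const_mul _
  rw [mul_zero] at h
  filter_upwards [h.eventually_lt_const zero_lt_one, eventually_gt_atTop 0] with Y h1 h2
  have h3 : (1 / (5 * Y ^ 3)) ^ d / 2 = 1 / (2 * 5 ^ d * Y ^ (3 * d)) := by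
    rw [div_pow, one_pow, mul_pow, ← pow_mul]
    field_simp
  rw [h3, lt_div_iff₀ (by positivity)]
  linarith

/-- the sum in the tree step -/
theorem hsum_of (hκ : 0 < κ) (hκ1 : κ < 1) (hC : 1 ≤ C) (hc₀ : 0 < c₀) {w K x : ℝ} {q : ℕ}
    (hw : mW W = w) (hK : 0 < K) (hx : 0 < x)
    (h1 : 16 * q * (1 + w * (C * K)) * x < 1 / 4) (h2 : 16 * C / (K * c₀ * (1 - κ)) ≤ 1 / 8)
    (h3 : 16 * C ^ 2 * w / c₀ * (q * κ ^ q) ≤ 1 / 4) :
    ∑ i ∈ Finset.range q, (16 * rad W C κ x (K * x) q i +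
      8 * rad W C κ x (K * x) q i * C / (K * x / 2 * c₀) * κ ^ i) < 1 := by
  have hw0 : 0 ≤ w := hw ▸ mW_nonneg W
  have hterm : ∀ i ∈ Finset.range q, (16 * rad W C κ x (K * x) q i +
      8 * rad W C κ x (K * x) q i * C / (K * x / 2 * c₀) * κ ^ i) ≤
      16 * ((1 + w * (C * K)) * x) + (16 * C / (K * c₀)) * κ ^ i + 16 * C ^ 2 * w / c₀ * κ ^ q := by
    intro i hi
    rw [Finset.mem_range] at hi
    have e1 : κ ^ (q - i) * κ ^ i = κ ^ q := by rw [← pow_add]; congr 1; omega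
    have e2 : rad W C κ x (K * x) q i ≤ (1 + w * (C * K)) * x := by
      unfold rad
      rw [hw]
      have : κ ^ (q - i) ≤ 1 := pow_le_one₀ hκ.le hκ1.le
      calc x + w * (C * κ ^ (q - i) * (K * x)) ≤ x + w * (C * 1 * (K * x)) := by gcongr
        _ = _ := by ring
    have e3 : 8 * rad W C κ x (K * x) q i * C / (K * x / 2 * c₀) * κ ^ i =
        (16 * C / (K * c₀)) * κ ^ i + 16 * C ^ 2 * w / c₀ * κ ^ q := by
      unfold rad
      rw [hw, ← e1]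
      field_simp
      ring
    rw [e3]
    linarith
  refine (Finset.sum_le_sum hterm).trans_lt ?_
  rw [Finset.sum_add_distrib, Finset.sum_add_distrib]
  simp only [Finset.sum_const, Finset.card_range, nsmul_eq_mul]
  rw [← Finset.mul_sum]
  have h4 := sum_geo hκ hκ1 q
  have h5 : 16 * C / (K * c₀) * ∑ i ∈ Finset.range q, κ ^ i ≤ 1 / 8 := by
    calc _ ≤ 16 * C / (K * c₀) * (1 / (1 - κ)) := by gcongr
      _ = 16 * C / (K * c₀ * (1 - κ)) := by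
        have : 1 - κ ≠ 0 := by linarith
        field_simp
      _ ≤ _ := h2
  nlinarith

theorem core (h : Expd A W B B' C κ c₀ D₀) (hd : 0 < d) (P : ℕ) {κ₀ : ℝ} (hκ₀ : 0 < κ₀)
    (hκ₀1 : κ₀ ≤ 1) :
    ∃ ρ : ℝ, 0 < ρ ∧ ρ < κ₀ ∧ ∃ M : ℕ, ∀ m ≥ M, ∀ tr : ℕ → Fin d → ℝ,
      ∃ y : Fin d → ℝ, ‖y‖ ≤ 2 * κ₀ ∧
      (∃ l : Fin d → ℤ, ∀ i, |((rM (A ^ m)).mulVec y + tr m - y) i - l i| ≤ ρ ^ P) ∧
      ∀ n, 0 < n → n < m → ∀ l : Fin d → ℤ, ∃ i,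
        ρ ≤ |((rM (A ^ n)).mulVec y + tr n - y) i - l i| := by
  have hκ := h.κ_pos
  have hκ1 := h.κ_lt
  have hC := h.C_ge
  have hc0 := h.c₀_pos
  have hβ : 1 < 1 / κ := by rw [lt_div_iff₀ hκ]; linarith
  obtain ⟨w, hw⟩ : ∃ w, mW W = w := ⟨_, rfl⟩
  have hw0 : 0 ≤ w := hw ▸ mW_nonneg W
  have i₀ : Fin d := ⟨0, hd⟩
  have h1κ : 0 < 1 - κ := by linarith
  -- the constant `q`
  obtain ⟨q, hq1, hq2, hq3⟩ : ∃ q : ℕ, C * κ ^ q < 1 / 2 ∧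
      (16 * C ^ 2 * w / c₀ * q + 0) * κ ^ q < 1 / 4 ∧ 0 < q :=
    ((ev_const hκ hκ1 C (by norm_num)).and ((ev_lin hκ hκ1 _ 0 (by norm_num)).and
      (eventually_gt_atTop 0))).exists
  -- the constant `K`
  obtain ⟨K, hK⟩ : ∃ K, K = 1 + 128 * C / (c₀ * (1 - κ)) := ⟨_, rfl⟩
  have hK0 : 0 < K := by rw [hK]; positivity
  have hK1 : 16 * C / (K * c₀ * (1 - κ)) ≤ 1 / 8 := by
    rw [div_le_div_iff₀ (by positivity) (by norm_num)]
    have : K * c₀ * (1 - κ) = c₀ * (1 - κ) + 128 * C := by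
      rw [hK]
      field_simp
    rw [this]
    have : 0 < c₀ * (1 - κ) := by positivity
    linarith
  obtain ⟨E, hE⟩ : ∃ E, E = 1 + w * (C * K) := ⟨_, rfl⟩
  have hE0 : 0 < E := by rw [hE]; positivity
  -- the exponents
  obtain ⟨P₁, hP₁⟩ : ∃ P₁, P₁ = P + 1 := ⟨_, rfl⟩
  obtain ⟨a, ha⟩ : ∃ a : ℕ, mb A ≤ (1 / κ) ^ a := by
    obtain ⟨a, ha⟩ := ((tendsto_pow_atTop_atTop_of_one_lt hβ).eventually_ge_atTop (mb A)).exists
    exact ⟨a, ha⟩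
  obtain ⟨j₁, hj₁⟩ : ∃ j₁, j₁ = 3 * P₁ * D₀ + 3 := ⟨_, rfl⟩
  obtain ⟨l₂, hl₂⟩ : ∃ l₂, l₂ = (a * j₁ + 3 * P₁ + 2) * D₀ + 2 + 3 * P₁ * d := ⟨_, rfl⟩
  obtain ⟨l₁, hl₁⟩ : ∃ l₁, l₁ = j₁ + l₂ := ⟨_, rfl⟩
  obtain ⟨c₁, hc₁⟩ : ∃ c₁, c₁ = 2 * C ^ 2 * (2 * d) ^ D₀ / (c₀ * K) := ⟨_, rfl⟩
  obtain ⟨c₂, hc₂⟩ : ∃ c₂, c₂ = C * (2 * d + 1) ^ D₀ / (c₀ * K) := ⟨_, rfl⟩
  have hc₁0 : 0 ≤ c₁ := by rw [hc₁]; positivity
  have hc₂0 : 0 ≤ c₂ := by rw [hc₂]; positivity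
  -- the scale
  have hev : ∀ᶠ n : ℕ in atTop, E * κ ^ n < 1 / 4 ∧ (16 * q * E) * κ ^ n < 1 / 4 ∧
      (16 * l₁ * n + 16 * q) * κ ^ n < 1 / 8 ∧
      ((P₁ * 16 * E + j₁ * 128) * n + 0) * κ ^ n < κ₀ ^ d ∧
      (w * C * K) * κ ^ n < 1 / 2 ∧ 1 * κ ^ n < κ₀ ∧
      (2 * w * C * (2 * d) ^ D₀ / c₀) * κ ^ n < 1 ∧
      ((c₁ * (4 * l₁)) * n + c₁ * (1 + 4 * q)) * κ ^ n < (1 / 5) ^ d / 16 ∧
      ((c₂ * (4 * j₁)) * n + 0) * κ ^ n < (1 / 5) ^ d / 16 ∧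
      Real.exp (-((1 / κ) ^ P₁) ^ n) < (1 / (5 * (((1 / κ) ^ P₁) ^ n) ^ 3)) ^ d / 2 ∧ 1 ≤ n ∧
      (2:ℝ) ^ P * κ ^ n < 1 := by
    refine (ev_const hκ hκ1 _ (by norm_num)).and <| (ev_const hκ hκ1 _ (by norm_num)).and <|
      (ev_lin hκ hκ1 _ _ (by norm_num)).and <| (ev_lin hκ hκ1 _ _ (by positivity)).and <|
      (ev_const hκ hκ1 _ (by norm_num)).and <| (ev_const hκ hκ1 _ hκ₀).and <|
      (ev_const hκ hκ1 _ (by norm_num)).and <| (ev_lin hκ hκ1 _ _ (by positivity)).and <|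
      (ev_lin hκ hκ1 _ _ (by positivity)).and <| ?_
    refine ((tendsto_pow_atTop_atTop_of_one_lt (r := (1 / κ) ^ P₁) ?_).eventually (ev_exp d)).and <|
      (eventually_ge_atTop 1).and (ev_const hκ hκ1 _ (by norm_num))
    exact one_lt_pow₀ hβ (by omega)
  obtain ⟨n, a1, a2, a3, a4, a5, a6, a7, a8, a9, a10, a11, a12⟩ := hev.exists
  obtain ⟨x, hx⟩ : ∃ x, x = κ ^ n := ⟨_, rfl⟩
  obtain ⟨X, hX⟩ : ∃ X, X = (1 / κ) ^ n := ⟨_, rfl⟩
  rw [← hx] at a1 a2 a3 a4 a5 a6 a7 a8 a9 a12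
  have hx0 : 0 < x := by rw [hx]; positivity
  have hX1 : 1 ≤ X := by rw [hX]; exact one_le_pow₀ hβ.le
  have hX0 : 0 < X := by linarith
  have hxX : x = 1 / X := by
    rw [hx, hX]
    simp
  have hx1 : x ≤ 1 := by
    rw [hxX, div_le_one hX0]; exact hX1
  have hYX : ((1 / κ) ^ P₁) ^ n = X ^ P₁ := by
    rw [hX, ← pow_mul, ← pow_mul, mul_comm]
  rw [hYX] at a10
  have hd' : (1:ℝ) ≤ d := by exact_mod_cast hd
  -- `N`
  obtain ⟨N, hN⟩ : ∃ N, N = ⌈X ^ (3 * P₁)⌉₊ := ⟨_, rfl⟩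
  have hXp : ∀ k : ℕ, 1 ≤ X ^ k := fun k => one_le_pow₀ hX1
  have hN1 : X ^ (3 * P₁) ≤ N := by rw [hN]; exact Nat.le_ceil _
  have hN2 : (N : ℝ) ≤ 2 * X ^ (3 * P₁) := by
    have h1 : (N:ℝ) < X ^ (3 * P₁) + 1 := by rw [hN]; exact Nat.ceil_lt_add_one (by positivity)
    have := hXp (3 * P₁)
    linarith
  have hIlow : (1 / 5) ^ d * (1 / X ^ (3 * P₁)) ^ d ≤ aN N ^ d := by
    rw [← mul_pow]
    refine pow_le_pow_left₀ (by positivity) (le_trans ?_ (aN_lower N)) d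
    rw [one_div_mul_one_div]
    apply one_div_le_one_div_of_le (by positivity)
    have := hXp (3 * P₁)
    linarith
  -- `NG`
  have hNG : (NG x : ℝ) ≤ X ^ 2 := by
    have h1 : (NG x : ℝ) ≤ 1 / (16 * x ^ 2) := Nat.floor_le (by positivity)
    refine h1.trans ?_
    rw [hxX]
    have : 1 / (16 * (1 / X) ^ 2) = X ^ 2 / 16 := by field_simp
    rw [this]
    have := sq_nonneg X
    linarith
  have hpJ : (1 / κ) ^ (n * j₁) = X ^ j₁ := by rw [hX, pow_mul]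
  have hpL : (1 / κ) ^ (n * l₁) = X ^ l₁ := by rw [hX, pow_mul]
  have hpLJ : (1 / κ) ^ (n * l₁ - n * j₁) = X ^ l₂ := by
    rw [show n * l₁ - n * j₁ = n * l₂ by rw [hl₁, mul_add]; omega, pow_mul, hX]
  have hpt : κ ^ (n * P₁) = x ^ P₁ := by rw [hx, pow_mul]
  have hxP : x ^ P₁ ≤ x := by
    calc x ^ P₁ ≤ x ^ 1 := pow_le_pow_of_le_one hx0.le hx1 (by omega)
      _ = x := pow_one x
  obtain ⟨D, hD⟩ : ∃ D : ℝ, D = 2 * d * X ^ (3 * P₁) := ⟨_, rfl⟩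
  obtain ⟨D', hD'⟩ : ∃ D' : ℝ, D' = (2 * d + 1) * X ^ (a * j₁ + 3 * P₁ + 2) := ⟨_, rfl⟩
  have hD0 : 0 < D := by rw [hD]; positivity
  have hD'0 : 0 < D' := by rw [hD']; positivity
  refine ⟨x / 2, by positivity, by linarith, n * P₁ + n * l₁ + q, fun m hm tr => ?_⟩
  obtain ⟨y, hy1, ⟨l, hl⟩, hy3⟩ := core_num h (N := N) (J := n * j₁) (L := n * l₁) (q := q)
    (t₀ := n * P₁) (r := x) (s := K * x) (ε := x ^ P₁) (D := D) (D' := D') (κ₀ := κ₀)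
    (by positivity) hx0
    (by rw [hw]; rw [hE] at a1; linarith [show x + w * (C * (K * x)) = (1 + w * (C * K)) * x by ring])
    (by positivity) (pow_le_one₀ hx0.le hx1) i₀ hq1.le
    (hsum_of hκ hκ1 hC hc0 hw hK0 hx0 (by rw [← hE]; exact a2) hK1 (by linarith [hq2.le, show (16 * C ^ 2 * w / c₀ * ↑q + 0) * κ ^ q = 16 * C ^ 2 * w / c₀ * (↑q * κ ^ q) by ring]))
    (by rw [hl₁]; exact Nat.mul_le_mul_left n (by omega)) hq3 (Nat.mul_pos a11 (by omega)) hD0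
    (by
      rw [hD]
      calc (d:ℝ) * N ≤ d * (2 * X ^ (3 * P₁)) := by gcongr
        _ = _ := by ring)
    (by
      -- hJ2
      rw [hpJ, hw, hD, hj₁]
      have e1 : c₀ * X ^ (3 * P₁ * D₀ + 3) / (C * (2 * ↑d * X ^ (3 * P₁)) ^ D₀) =
          c₀ * X ^ 3 / (C * (2 * d) ^ D₀) := by
        rw [mul_pow, ← pow_mul, pow_add]
        field_simp
      rw [e1, le_div_iff₀ (by positivity)]
      have e2 : 2 * w * C * (2 * d) ^ D₀ ≤ c₀ * X := by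
        rw [hxX, mul_one_div, div_lt_one hX0, div_lt_iff₀ hc0] at a7
        linarith
      calc 2 * (↑(NG x) * w) * (C * (2 * ↑d) ^ D₀) ≤ 2 * (X ^ 2 * w) * (C * (2 * ↑d) ^ D₀) := by
            gcongr
        _ = (2 * w * C * (2 * d) ^ D₀) * X ^ 2 := by ring
        _ ≤ c₀ * X * X ^ 2 := by gcongr
        _ = _ := by ring)
    hD'0
    (by
      intro j hj1 hj2
      have e1 : mb (A ^ j) ≤ X ^ (a * j₁) := by
        calc mb (A ^ j) ≤ mb A ^ j := mb_pow A hj1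
          _ ≤ ((1 / κ) ^ a) ^ j := pow_le_pow_left₀ (mb_nonneg A) ha j
          _ ≤ ((1 / κ) ^ a) ^ (n * j₁) := pow_le_pow_right₀ (one_le_pow₀ hβ.le) hj2
          _ = X ^ (a * j₁) := by
            rw [hX, ← pow_mul, ← pow_mul]
            congr 1
            ring
      rw [hD']
      have e2 : X ^ (a * j₁) * (d * (2 * X ^ (3 * P₁))) ≤ 2 * d * X ^ (a * j₁ + 3 * P₁ + 2) := by
        have : X ^ (a * j₁ + 3 * P₁) ≤ X ^ (a * j₁ + 3 * P₁ + 2) :=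
          pow_le_pow_right₀ hX1 (by omega)
        calc _ = 2 * d * X ^ (a * j₁ + 3 * P₁) := by rw [pow_add]; ring
          _ ≤ _ := by gcongr
      have e3 : X ^ 2 ≤ X ^ (a * j₁ + 3 * P₁ + 2) := pow_le_pow_right₀ hX1 (by omega)
      have e4 : mb (A ^ j) * (d * N) ≤ X ^ (a * j₁) * (d * (2 * X ^ (3 * P₁))) := by
        gcongr
      linarith)
    (by
      -- ha
      have e1 : 8 * x * C / (K * x * c₀ * (1 - κ)) = (16 * C / (K * c₀ * (1 - κ))) / 2 := by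
        field_simp
        norm_num
      rw [e1]
      push_cast
      linarith [show (16 * ↑l₁ * ↑n + 16 * ↑q) * x = 16 * x * (↑n * ↑l₁ + ↑q) by ring])
    (by
      -- hc
      rw [hpL, hpLJ]
      have hXd : (1 / X ^ (3 * P₁)) ^ d = 1 / X ^ (3 * P₁ * d) := by
        rw [one_div_pow, ← pow_mul]
      have f1 : (1 + 4 * (((n * l₁ : ℕ) : ℝ) + q)) /
          ((c₀ * X ^ l₁ / (2 * C ^ 2 * D ^ D₀)) * (K * x)) ≤
          (((c₁ * (4 * l₁)) * n + c₁ * (1 + 4 * q)) * x) * (1 / X ^ (3 * P₁ * d)) := by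
        have g1 : (1 + 4 * (((n * l₁ : ℕ) : ℝ) + q)) /
          ((c₀ * X ^ l₁ / (2 * C ^ 2 * D ^ D₀)) * (K * x)) =
          (((c₁ * (4 * l₁)) * n + c₁ * (1 + 4 * q))) * (X ^ (3 * P₁ * D₀ + 1) / X ^ l₁) := by
          rw [hD, hc₁, hxX, mul_pow, ← pow_mul, pow_add]
          push_cast
          field_simp
          ring
        rw [g1, mul_assoc _ x, hxX]
        have g2 : X ^ (3 * P₁ * D₀ + 1) / X ^ l₁ ≤ 1 / X * (1 / X ^ (3 * P₁ * d)) := by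
          rw [one_div_mul_one_div, div_le_div_iff₀ (by positivity) (by positivity), one_mul,
            ← pow_succ', ← pow_add]
          apply pow_le_pow_right₀ hX1
          rw [hl₁, hj₁, hl₂]
          nlinarith [Nat.zero_le ((a * j₁ + 3 * P₁ + 2) * D₀)]
        have g3 : 0 ≤ (c₁ * (4 * l₁)) * n + c₁ * (1 + 4 * q) := by positivity
        exact mul_le_mul_of_nonneg_left g2 g3
      have f2 : 4 * ((n * j₁ : ℕ) : ℝ) /
          ((c₀ * X ^ l₂ / (C * D' ^ D₀)) * (K * x)) ≤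
          (((c₂ * (4 * j₁)) * n + 0) * x) * (1 / X ^ (3 * P₁ * d)) := by
        have g1 : 4 * ((n * j₁ : ℕ) : ℝ) /
          ((c₀ * X ^ l₂ / (C * D' ^ D₀)) * (K * x)) =
          ((c₂ * (4 * j₁)) * n + 0) * (X ^ ((a * j₁ + 3 * P₁ + 2) * D₀ + 1) / X ^ l₂) := by
          rw [hD', hc₂, hxX, mul_pow, ← pow_mul, pow_succ]
          push_cast
          field_simp
          ring
        rw [g1, mul_assoc _ x, hxX]
        have g2 : X ^ ((a * j₁ + 3 * P₁ + 2) * D₀ + 1) / X ^ l₂ ≤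
            1 / X * (1 / X ^ (3 * P₁ * d)) := by
          rw [one_div_mul_one_div, div_le_div_iff₀ (by positivity) (by positivity), one_mul,
            ← pow_succ', ← pow_add]
          apply pow_le_pow_right₀ hX1
          rw [hl₂]
          omega
        have g3 : 0 ≤ (c₂ * (4 * j₁)) * n + 0 := by positivity
        exact mul_le_mul_of_nonneg_left g2 g3
      have f3 : 0 < 1 / X ^ (3 * P₁ * d) := by positivity
      rw [hXd] at hIlow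
      have f4 : ((c₁ * (4 * l₁)) * n + c₁ * (1 + 4 * q)) * x * (1 / X ^ (3 * P₁ * d)) ≤
          (1 / 5) ^ d / 16 * (1 / X ^ (3 * P₁ * d)) := by gcongr
      have f5 : ((c₂ * (4 * j₁)) * n + 0) * x * (1 / X ^ (3 * P₁ * d)) ≤
          (1 / 5) ^ d / 16 * (1 / X ^ (3 * P₁ * d)) := by gcongr
      linarith)
    (by
      -- hτ2
      have f1 : (1 - (x ^ P₁) ^ 2) ^ N ≤ Real.exp (-(X ^ P₁)) := by
        have g1 : 1 - (x ^ P₁) ^ 2 ≤ Real.exp (-(x ^ P₁) ^ 2) := by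
          have := Real.add_one_le_exp (-(x ^ P₁) ^ 2)
          linarith
        have g0 : 0 ≤ 1 - (x ^ P₁) ^ 2 := by
          have : (x ^ P₁) ^ 2 ≤ 1 := pow_le_one₀ (by positivity) (pow_le_one₀ hx0.le hx1)
          linarith
        calc (1 - (x ^ P₁) ^ 2) ^ N ≤ Real.exp (-(x ^ P₁) ^ 2) ^ N := pow_le_pow_left₀ g0 g1 N
          _ = Real.exp (-((x ^ P₁) ^ 2 * N)) := by
            rw [← Real.exp_nat_mul]
            congr 1
            ring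
          _ ≤ _ := by
            apply Real.exp_le_exp.2
            apply neg_le_neg
            calc X ^ P₁ = (x ^ P₁) ^ 2 * X ^ (3 * P₁) := by
                  rw [hxX, one_div_pow, show 3 * P₁ = P₁ + P₁ + P₁ by ring, pow_add, pow_add]
                  field_simp
              _ ≤ _ := by gcongr
      refine f1.trans_lt (a10.trans_le ?_)
      have f2 : (1 / (5 * (X ^ P₁) ^ 3)) ^ d = (1 / 5) ^ d * (1 / X ^ (3 * P₁)) ^ d := by
        rw [← mul_pow, one_div_mul_one_div, ← pow_mul, mul_comm P₁ 3]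
      rw [f2]
      linarith)
    hκ₀ hκ₀1
    (by
      rw [hw]
      push_cast
      rw [hE] at a4
      linarith [show ((P₁ * 16 * (1 + w * (C * K)) + j₁ * 128) * n + 0) * x =
        n * P₁ * (16 * (x + w * (C * (K * x)))) + n * j₁ * (128 * x) by ring])
    (by
      rw [hw, hpt]
      have : w * (C * x ^ P₁ * (K * x)) = (w * C * K * x) * x ^ P₁ := by ring
      rw [this]
      have h2 : 0 < x ^ P₁ := by positivity
      nlinarith) hxP (by linarith) hm tr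
  refine ⟨y, hy1, ⟨l, fun i => (hl i).trans ?_⟩, hy3⟩
  rw [hP₁, pow_succ, div_pow, le_div_iff₀ (by positivity)]
  have h2 : 0 < x ^ P := by positivity
  nlinarith

end Pool.Agent.H71TB
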