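import Pool.Agent.H71TB.AD
import Pool.Agent.H71TB.Core
import Pool.Agent.W564.SC.Lib

/-!
# The closing lemma for maps which normalize a torus action
-/

set_option autoImplicit false

open scoped Manifold ContDiff Topology
open Filter Set Metric

universe u

noncomputable section

namespace Pool.Agent.H71TB

open Pool.Agent.H718R2.G Pool.Agent.W564.SC Pool.Agent.H71TB.AD

/-- The linear map of `ℝ^d` with the integer matrix `A`. -/
def lin {d : ℕ} (A : Matrix (Fin d) (Fin d) ℤ) (a : V d) : V d :=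
  WithLp.toLp 2 fun i => ∑ j, (A i j : ℝ) * a j

theorem lin_apply {d : ℕ} (A : Matrix (Fin d) (Fin d) ℤ) (a : V d) (i : Fin d) :
    lin A a i = ((rM A).mulVec a.ofLp) i := rfl

theorem lin_eq {d : ℕ} (A : Matrix (Fin d) (Fin d) ℤ) (a : V d) :
    lin A a = WithLp.toLp 2 ((rM A).mulVec a.ofLp) := rfl

theorem lin_lin {d : ℕ} (A A' : Matrix (Fin d) (Fin d) ℤ) (a : V d) :
    lin A (lin A' a) = lin (A * A') a := by
  rw [lin_eq, lin_eq, lin_eq]
  congr 1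
  rw [rM_mul, ← Matrix.mulVec_mulVec]

theorem lin_one {d : ℕ} (a : V d) : lin 1 a = a := by
  rw [lin_eq, rM_one, Matrix.one_mulVec]

theorem norm_le_of {d : ℕ} {a : V d} {M : ℝ} (hM : 0 ≤ M) (h : ∀ i, |a i| ≤ M) : ‖a‖ ≤ d * M := by
  rw [EuclideanSpace.norm_eq]
  rw [Real.sqrt_le_left (by positivity)]
  calc ∑ i, ‖a i‖ ^ 2 ≤ ∑ _i : Fin d, M ^ 2 := by
        refine Finset.sum_le_sum fun i _ => ?_
        rw [Real.norm_eq_abs]
        exact pow_le_pow_left₀ (abs_nonneg _) (h i) 2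
    _ = d * M ^ 2 := by simp
    _ ≤ (d * M) ^ 2 := by
        rcases Nat.eq_zero_or_pos d with h0 | h0
        · subst h0; simp
        · have : (1:ℝ) ≤ d := by exact_mod_cast h0
          nlinarith [sq_nonneg M]

theorem abs_le_norm' {d : ℕ} (a : V d) (i : Fin d) : |a i| ≤ ‖a‖ := by
  have := PiLp.norm_apply_le a i
  rwa [Real.norm_eq_abs] at this

/-- nonwandering for arbitrarily long times -/
theorem nonwand_long {d n : ℕ} {N : Type u} [TopologicalSpace N] [T2Space N]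
    [ChartedSpace (V n) N] {R : V d → N → N} (hR : TAct d n N R) {F : N → N} (hFc : Continuous F)
    {A : Matrix (Fin d) (Fin d) ℤ} {K : Set N} (hK : ∀ y ∈ K, F y ∈ K)
    (hF : ∀ a, ∀ y ∈ K, F (R a y) = R (lin A a) (F y))
    {z : N} (hz : z ∈ K) (hnw : ∀ S ∈ 𝓝 z, ∃ m : ℕ, 1 ≤ m ∧ ∃ y ∈ S, y ∈ K ∧ ∃ a, R a (F^[m] y) ∈ S)
    (M : ℕ) {S : Set N} (hS : S ∈ 𝓝 z) :
    ∃ m : ℕ, M ≤ m ∧ ∃ y ∈ S, y ∈ K ∧ ∃ a, R a (F^[m] y) ∈ S := by
  have hcR : Continuous fun q : V d × N => R q.1 q.2 := hR.smooth.continuous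
  -- the case of a periodic orbit of the action
  by_cases hper : ∃ q : ℕ, 1 ≤ q ∧ ∃ a, F^[q] z = R a z
  · obtain ⟨q, hq, a, ha⟩ := hper
    have hit : ∀ m y, y ∈ K → F^[m] y ∈ K := by
      intro m y hy
      induction m with
      | zero => exact hy
      | succ m ih => rw [Function.iterate_succ_apply']; exact hK _ ih
    have hFit : ∀ m a y, y ∈ K → F^[m] (R a y) = R (lin (A ^ m) a) (F^[m] y) := by
      intro m
      induction m with
      | zero => intro a y _; simp [lin_one]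
      | succ m ih =>
        intro a y hy
        rw [Function.iterate_succ_apply', ih a y hy, hF _ _ (hit m y hy), lin_lin, ← pow_succ',
          Function.iterate_succ_apply']
    have hmul : ∀ m : ℕ, ∃ b, F^[q * m] z = R b z := by
      intro m
      induction m with
      | zero => exact ⟨0, by simp [hR.zero]⟩
      | succ m ih =>
        obtain ⟨b, hb⟩ := ih
        refine ⟨lin (A ^ q) b + a, ?_⟩
        rw [mul_add, mul_one, add_comm, Function.iterate_add_apply, hb, hFit q b z hz, ha, ← hR.add]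
    obtain ⟨b, hb⟩ := hmul M
    refine ⟨q * M, by nlinarith, z, mem_of_mem_nhds hS, hz, -b, ?_⟩
    rw [hb, ← hR.add, neg_add_cancel, hR.zero]
    exact mem_of_mem_nhds hS
  · push Not at hper
    -- the orbits `F^i z` are separated
    have hsep : ∀ i : ℕ, 1 ≤ i → ∃ S' ∈ 𝓝 z, ∀ y ∈ S', ∀ a, R a (F^[i] y) ∉ S' := by
      intro i hi
      by_contra hcon
      push Not at hcon
      -- compactness of the torus
      have key : ∃ g : V d, R g (F^[i] z) = z := by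
        have hcl : ClusterPt z ((𝓝 z)) := by
          rw [ClusterPt, inf_idem]; infer_instance
        have hcube : IsCompact (closedBall (0 : V d) (Real.sqrt d)) := isCompact_closedBall _ _
        by_contra hno
        push Not at hno
        have h1 : ∀ g ∈ closedBall (0 : V d) (Real.sqrt d),
            ∃ O ∈ 𝓝 g, ∃ S' ∈ 𝓝 z, ∀ g' ∈ O, ∀ y ∈ S', R g' (F^[i] y) ∉ S' := by
          intro g _
          obtain ⟨P, Q, hP, hQ, hPo, hQo, hPQ⟩ := t2_separation (hno g)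
          have h2 : ContinuousAt (fun q : V d × N => R q.1 (F^[i] q.2)) (g, z) :=
            (hcR.comp (continuous_fst.prodMk ((hFc.iterate i).comp continuous_snd))).continuousAt
          have h3 := h2.preimage_mem_nhds (hP.mem_nhds hPo)
          rw [nhds_prod_eq, Filter.mem_prod_iff] at h3
          obtain ⟨O, hO, S', hS', h4⟩ := h3
          refine ⟨O, hO, S' ∩ Q, inter_mem hS' (hQ.mem_nhds hQo), fun g' hg' y hy hmem => ?_⟩
          have h5 : R g' (F^[i] y) ∈ P := h4 (mk_mem_prod hg' hy.1)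
          exact (disjoint_left.1 hPQ) h5 hmem.2
        choose! O hO S' hS' h2 using h1
        obtain ⟨t, ht, htc⟩ := hcube.elim_nhds_subcover O hO
        obtain ⟨y, hy, a, ha⟩ := hcon (⋂ g ∈ t, S' g)
          ((Filter.biInter_finset_mem t).2 fun g hg => hS' g (ht g hg))
        obtain ⟨l, hl, hlb⟩ := fract_bd a
        have h3 : a - l ∈ closedBall (0 : V d) (Real.sqrt d) := by
          rw [mem_closedBall, dist_zero_right]; exact hlb
        obtain ⟨g, hg, hgO⟩ := mem_iUnion₂.1 (htc h3)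
        have h4 : R (a - l) (F^[i] y) = R a (F^[i] y) := by
          have : R a (F^[i] y) = R (a - l) (R l (F^[i] y)) := by
            rw [← hR.add, sub_add_cancel]
          rw [this, hR.int l hl]
        have h5 := h2 g (ht g hg) (a - l) hgO y (mem_iInter₂.1 hy g hg)
        rw [h4] at h5
        exact h5 (mem_iInter₂.1 ha g hg)
      obtain ⟨g, hg⟩ := key
      refine hper i hi (-g) ?_
      rw [← hg, ← hR.add, neg_add_cancel, hR.zero, hg]
    choose! S' hS' hS2 using hsep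
    obtain ⟨m, hm1, y, hy, hyK, a, ha⟩ := hnw (S ∩ ⋂ i ∈ Finset.Icc 1 M, S' i)
      (inter_mem hS ((Filter.biInter_finset_mem _).2 fun i hi => hS' i (Finset.mem_Icc.1 hi).1))
    refine ⟨m, ?_, y, hy.1, hyK, a, ha.1⟩
    by_contra hlt
    push Not at hlt
    have hmem : m ∈ Finset.Icc 1 M := Finset.mem_Icc.2 ⟨hm1, hlt.le⟩
    exact hS2 m hm1 y (mem_iInter₂.1 hy.2 m hmem) a (mem_iInter₂.1 ha.2 m hmem)

theorem iter_mem {N : Type u} {F : N → N} {K : Set N} (hK : ∀ y ∈ K, F y ∈ K) (m : ℕ) {y : N}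
    (hy : y ∈ K) : F^[m] y ∈ K := by
  induction m with
  | zero => exact hy
  | succ m ih => rw [Function.iterate_succ_apply']; exact hK _ ih

theorem iter_equi {d : ℕ} {N : Type u} {R : V d → N → N} {F : N → N}
    {A : Matrix (Fin d) (Fin d) ℤ} {K : Set N} (hK : ∀ y ∈ K, F y ∈ K)
    (hF : ∀ a, ∀ y ∈ K, F (R a y) = R (lin A a) (F y)) (m : ℕ) (a : V d) {y : N} (hy : y ∈ K) :
    F^[m] (R a y) = R (lin (A ^ m) a) (F^[m] y) := by
  induction m with
  | zero => simp [lin_one]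
  | succ m ih =>
    rw [Function.iterate_succ_apply', ih, hF _ _ (iter_mem hK m hy), lin_lin, ← pow_succ',
      Function.iterate_succ_apply']

theorem closable {d u n : ℕ} (hd : 0 < d) {N : Type u} [TopologicalSpace N] [T2Space N]
    [CompactSpace N] [ChartedSpace (V n) N] [IsManifold (𝓡 n) ∞ N] {r : ℕ∞} (hr : 1 ≤ r)
    {R : V d → N → N} (hR : TAct d n N R) (F : DiffM n N r)
    {A : Matrix (Fin d) (Fin d) ℤ} {W : Matrix (Fin d) (Fin u) ℝ}
    {B B' : Matrix (Fin u) (Fin u) ℝ} {C κ c₀ : ℝ} {D₀ : ℕ} (hE : Expd A W B B' C κ c₀ D₀)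
    {K : Set N} (hK : ∀ y ∈ K, F y ∈ K)
    (hF : ∀ a, ∀ y ∈ K, F (R a y) = R (lin A a) (F y))
    {z : N} (hz : z ∈ K) (hfree : ∀ a : V d, R a z = z → ∀ j, ∃ m : ℤ, a j = (m : ℝ))
    (hnw : ∀ S ∈ 𝓝 z, ∃ m : ℕ, 1 ≤ m ∧ ∃ y ∈ S, y ∈ K ∧ ∃ a, R a (F^[m] y) ∈ S) :
    Closable n N r F z := by
  intro U hU hFU
  obtain ⟨D, χ, e, c, -, hχ, hc, p1, p2⟩ := ad hR z hfree
  have hfam : IsFam n N r (fun _ : ℝ => F) := fun y =>
    (F.contMDiff.comp contMDiff_snd).contMDiffAt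
  obtain ⟨k, -, κ', hκ', hcl⟩ := t_CL n N r hr ℝ (fun _ => F) hfam χ z hχ U hU hFU
  obtain ⟨b₁, hb₁⟩ : ∃ b₁, b₁ = ‖(e : V n →L[ℝ] (V d × V D))‖ + 1 := ⟨_, rfl⟩
  obtain ⟨b₂, hb₂⟩ : ∃ b₂, b₂ = ‖(e.symm : (V d × V D) →L[ℝ] V n)‖ + 1 := ⟨_, rfl⟩
  have hb₁1 : 1 ≤ b₁ := by rw [hb₁]; linarith [norm_nonneg (e : V n →L[ℝ] (V d × V D))]
  have hb₂1 : 1 ≤ b₂ := by rw [hb₂]; linarith [norm_nonneg (e.symm : (V d × V D) →L[ℝ] V n)]
  have hb₁0 : 0 < b₁ := by linarith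
  have hb₂0 : 0 < b₂ := by linarith
  have hn1 : ∀ v, ‖e v‖ ≤ b₁ * ‖v‖ := fun v => by
    have h1 := (e : V n →L[ℝ] (V d × V D)).le_opNorm v
    have h2 : ‖(e : V n →L[ℝ] (V d × V D))‖ * ‖v‖ ≤ b₁ * ‖v‖ := by
      gcongr; rw [hb₁]; linarith
    exact h1.trans h2
  have hn2 : ∀ v, ‖v‖ ≤ b₂ * ‖e v‖ := fun v => by
    have h1 := (e.symm : (V d × V D) →L[ℝ] V n).le_opNorm (e v)
    have h2 : ‖(e.symm : (V d × V D) →L[ℝ] V n)‖ * ‖e v‖ ≤ b₂ * ‖e v‖ := by
      gcongr; rw [hb₂]; linarith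
    have h3 : (e.symm : (V d × V D) →L[ℝ] V n) (e v) = v := e.symm_apply_apply v
    rw [h3] at h1
    exact h1.trans h2
  have hd1 : (1:ℝ) ≤ d := by exact_mod_cast hd
  have hd0 : (0:ℝ) < d := by linarith
  -- the size of the neighbourhood
  obtain ⟨κ₀, hκ₀, hκ₀1, k1, k2, k3⟩ : ∃ κ₀ : ℝ, 0 < κ₀ ∧ κ₀ ≤ 1 ∧ κ₀ ≤ c / (16 * d * b₁ * b₂) ∧
      κ₀ ≤ κ' / (16 * d * b₂) ∧ κ₀ ≤ κ' / (4 * b₂ * d * (2 * b₁) ^ k) :=
    ⟨min 1 (min (c / (16 * d * b₁ * b₂)) (min (κ' / (16 * d * b₂))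
      (κ' / (4 * b₂ * d * (2 * b₁) ^ k)))), by positivity, min_le_left _ _,
      (min_le_right _ _).trans (min_le_left _ _),
      (min_le_right _ _).trans ((min_le_right _ _).trans (min_le_left _ _)),
      (min_le_right _ _).trans ((min_le_right _ _).trans (min_le_right _ _))⟩
  rw [le_div_iff₀ (by positivity)] at k1 k2 k3
  obtain ⟨ρ, hρ, hρκ, M, hcore⟩ := core hE hd (k + 1) hκ₀ hκ₀1
  -- the neighbourhood for the base points
  obtain ⟨ε, hε, hεκ, hε2⟩ : ∃ ε : ℝ, 0 < ε ∧ ε ≤ κ₀ ∧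
      ε * (8 * b₂) ≤ κ' * (ρ / (2 * b₁)) ^ k :=
    ⟨min κ₀ (κ' * (ρ / (2 * b₁)) ^ k / (8 * b₂)), by positivity, min_le_left _ _, by
      have := min_le_right κ₀ (κ' * (ρ / (2 * b₁)) ^ k / (8 * b₂))
      rwa [le_div_iff₀ (by positivity)] at this⟩
  have hS : {y | y ∈ χ.source ∧ ‖e (χ y)‖ < ε} ∈ 𝓝 z := by
    have h1 : ∀ᶠ y in 𝓝 z, y ∈ χ.source := χ.open_source.mem_nhds hχ.src
    have h2 : ∀ᶠ y in 𝓝 z, ‖e (χ y)‖ < ε := by
      apply ((e.continuous.continuousAt.comp (χ.continuousAt hχ.src)).norm).eventually_lt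
        continuousAt_const
      simp only [Function.comp]
      rw [hχ.zero, map_zero, norm_zero]
      exact hε
    exact h1.and h2
  have hFc : Continuous F := F.continuous
  obtain ⟨m, hmM, x', hx', hx'K, a, ha⟩ := nonwand_long hR hFc hK hF hz hnw (max M 1) hS
  have hm1 : 1 ≤ m := (le_max_right _ _).trans hmM
  have hmM' : M ≤ m := (le_max_left _ _).trans hmM
  -- the translations
  have hch : ∀ i : ℕ, ∃ b : V d, (∃ b', R b' (F^[i] x') ∈ χ.source ∧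
      ‖e (χ (R b' (F^[i] x')))‖ ≤ c) → (R b (F^[i] x') ∈ χ.source ∧
      ‖e (χ (R b (F^[i] x')))‖ ≤ c) := by
    intro i
    by_cases h : ∃ b', R b' (F^[i] x') ∈ χ.source ∧ ‖e (χ (R b' (F^[i] x')))‖ ≤ c
    · obtain ⟨b, hb⟩ := h
      exact ⟨b, fun _ => hb⟩
    · exact ⟨0, fun h' => absurd h' h⟩
  choose b hb using hch
  obtain ⟨tr, htr⟩ : ∃ tr : ℕ → Fin d → ℝ, tr = fun i => if i = m then
      (fun j => (e (χ (R a (F^[m] x')))).1 j - a j - (e (χ x')).1 j) else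
      (fun j => (e (χ (R (b i) (F^[i] x')))).1 j - b i j - (e (χ x')).1 j) := ⟨_, rfl⟩
  obtain ⟨y', hy', ⟨l, hl⟩, hav⟩ := hcore m hmM' tr
  obtain ⟨Y, hY⟩ : ∃ Y : V d, Y = WithLp.toLp 2 y' := ⟨_, rfl⟩
  have hYi : ∀ i, Y i = y' i := fun i => by rw [hY]
  have hYb : ∀ i, |Y i| ≤ 2 * κ₀ := fun i => by
    rw [hYi]
    have := norm_le_pi_norm y' i
    rw [Real.norm_eq_abs] at this
    exact this.trans hy'
  have hYn : ‖Y‖ ≤ d * (2 * κ₀) := norm_le_of (by positivity) hYb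
  have hb₁₂ : 1 ≤ b₁ * b₂ := by nlinarith
  have hdb : 1 ≤ d * (b₁ * b₂) := by nlinarith
  have k1' : 16 * (d * (b₁ * b₂)) * κ₀ ≤ c := by linarith
  have k1'' : 16 * (d * κ₀) ≤ c := by
    have h1 : d * κ₀ ≤ (d * κ₀) * (b₁ * b₂) := le_mul_of_one_le_right (by positivity) hb₁₂
    nlinarith
  have hκ₀c : 16 * κ₀ ≤ c := by
    have h1 : κ₀ ≤ d * κ₀ := le_mul_of_one_le_left hκ₀.le hd1
    linarith
  -- the point `z'`
  obtain ⟨z', hz'⟩ : ∃ z', z' = R Y x' := ⟨_, rfl⟩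
  obtain ⟨hz's, hz'e⟩ := p1 x' hx'.1 Y (by linarith [hx'.2]) (by linarith)
  rw [← hz'] at hz's hz'e
  have hz'n : ‖e (χ z')‖ ≤ ε + d * (2 * κ₀) := by
    rw [hz'e]
    refine (norm_add_le _ _).trans ?_
    have : ‖((Y, 0) : V d × V D)‖ = ‖Y‖ := by
      rw [Prod.norm_mk, norm_zero, max_eq_left (norm_nonneg _)]
    rw [this]
    linarith [hx'.2]
  have hz'χ : ‖χ z'‖ ≤ b₂ * (3 * (d * κ₀)) := by
    refine (hn2 _).trans ?_
    have h1 : κ₀ ≤ d * κ₀ := le_mul_of_one_le_left hκ₀.le hd1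
    have : ‖e (χ z')‖ ≤ 3 * (d * κ₀) := by linarith
    gcongr
  have hit : ∀ i, F^[i] z' = R (lin (A ^ i) Y) (F^[i] x') := fun i => by
    rw [hz']; exact iter_equi hK hF i Y hx'K
  have hρ1 : ρ < 1 := hρκ.trans_le hκ₀1
  have hρk : ρ ^ (k + 1) ≤ ρ := by
    have := pow_le_pow_of_le_one hρ.le hρ1.le (by omega : 1 ≤ k + 1)
    rwa [pow_one] at this
  -- the return
  obtain ⟨L, hL⟩ : ∃ L : V d, L = WithLp.toLp 2 (fun j => ((l j : ℤ) : ℝ)) := ⟨_, rfl⟩
  have hLi : ∀ i, L i = l i := fun i => by rw [hL]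
  obtain ⟨vm, hvm⟩ : ∃ vm, vm = R a (F^[m] x') := ⟨_, rfl⟩
  rw [← hvm] at ha
  obtain ⟨γ, hγ⟩ : ∃ γ : V d, γ = lin (A ^ m) Y - a - L := ⟨_, rfl⟩
  have hret1 : F^[m] z' = R γ vm := by
    rw [hit m, hvm, hγ, ← hR.add, sub_sub, add_comm a L, ← sub_sub, sub_add_cancel]
    have : lin (A ^ m) Y = (lin (A ^ m) Y - L) + L := by abel
    conv_lhs => rw [this]
    rw [hR.add, hR.int L fun j => ⟨l j, hLi j⟩]
  have htrm : ∀ j, tr m j = (e (χ vm)).1 j - a j - (e (χ x')).1 j := by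
    intro j
    rw [htr, hvm]
    simp
  have hcomp : ∀ (q : V d × V D) (j : Fin d), |q.1 j| ≤ ‖q‖ := fun q j =>
    (abs_le_norm' q.1 j).trans (norm_fst_le q)
  have hγi : ∀ j, γ j = (((rM (A ^ m)).mulVec y' + tr m - y') j - l j) - (e (χ vm)).1 j +
      (e (χ x')).1 j + y' j := by
    intro j
    have h1 : γ j = ((rM (A ^ m)).mulVec y') j - a j - l j := by
      rw [hγ]
      show lin (A ^ m) Y j - a j - L j = _
      rw [lin_apply, hLi, hY]
    rw [h1]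
    simp only [Pi.sub_apply, Pi.add_apply]
    rw [htrm]
    ring
  have hγn : ‖γ‖ ≤ c := by
    have h1 : ∀ j, |γ j| ≤ 5 * κ₀ := by
      intro j
      rw [hγi]
      have e1 := hl j
      have e2 := hcomp (e (χ vm)) j
      have e3 := hcomp (e (χ x')) j
      have e4 := hYb j
      rw [hYi] at e4
      have e5 := ha.2
      have e6 := hx'.2
      rw [abs_le] at e1 e2 e3 e4 ⊢
      constructor <;> linarith [e1.1, e1.2, e2.1, e2.2, e3.1, e3.2, e4.1, e4.2]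
    have h2 := norm_le_of (by positivity) h1
    linarith
  obtain ⟨hret2, hret3⟩ := p1 vm ha.1 γ (by linarith [ha.2]) hγn
  have hdiff : ‖e (χ (F^[m] z') - χ z')‖ ≤ d * ρ ^ (k + 1) + 2 * ε := by
    rw [map_sub, hret1, hret3, hz'e]
    have hdec : e (χ vm) + (γ, 0) - (e (χ x') + (Y, 0)) =
        ((e (χ vm)).1 + γ - ((e (χ x')).1 + Y), (e (χ vm)).2 - (e (χ x')).2) := by
      apply Prod.ext
      · simp
      · simp
    rw [hdec, Prod.norm_mk]
    apply max_le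
    · have h1 : ∀ j, |((e (χ vm)).1 + γ - ((e (χ x')).1 + Y)) j| ≤ ρ ^ (k + 1) := by
        intro j
        have h2 : ((e (χ vm)).1 + γ - ((e (χ x')).1 + Y)) j =
            ((rM (A ^ m)).mulVec y' + tr m - y') j - l j := by
          show (e (χ vm)).1 j + γ j - ((e (χ x')).1 j + Y j) = _
          rw [hγi, hYi]
          ring
        rw [h2]
        exact hl j
      have h2 := norm_le_of (by positivity) h1
      linarith
    · have h1 := norm_sub_le (e (χ vm)).2 (e (χ x')).2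
      have h2 := norm_snd_le (e (χ vm))
      have h3 := norm_snd_le (e (χ x'))
      have h4 : 0 ≤ d * ρ ^ (k + 1) := by positivity
      linarith [ha.2, hx'.2]
  refine hcl 0 z' (ρ / (2 * b₁)) m (by simpa using hκ') hz's ?_ (by positivity) ?_ hm1 ?_ ?_ ?_
  · have h1 : b₂ * (3 * (d * κ₀)) < κ' := by nlinarith
    linarith
  · rw [div_lt_iff₀ (by positivity)]
    have h1 : κ₀ ≤ κ' := by
      have : 1 ≤ 16 * d * b₂ := by nlinarith
      nlinarith
    nlinarith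
  · show F^[m] z' ∈ χ.source
    rw [hret1]
    exact hret2
  · show ‖χ (F^[m] z') - χ z'‖ < κ' * (ρ / (2 * b₁)) ^ k
    have h1 := (hn2 (χ (F^[m] z') - χ z')).trans (mul_le_mul_of_nonneg_left hdiff hb₂0.le)
    refine h1.trans_lt ?_
    have h2 : 0 < κ' * (ρ / (2 * b₁)) ^ k := by positivity
    have h3 : b₂ * (d * ρ ^ (k + 1)) ≤ κ' * (ρ / (2 * b₁)) ^ k / 4 := by
      rw [div_pow, pow_succ, mul_div_assoc', div_div, le_div_iff₀ (by positivity)]
      have h4 : 0 < ρ ^ k := by positivity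
      have h5 : ρ * (4 * b₂ * d * (2 * b₁) ^ k) ≤ κ' := by
        refine le_trans ?_ k3
        gcongr
      calc b₂ * (d * (ρ ^ k * ρ)) * ((2 * b₁) ^ k * 4) =
          (ρ * (4 * b₂ * d * (2 * b₁) ^ k)) * ρ ^ k := by ring
        _ ≤ κ' * ρ ^ k := by gcongr
    have h4 : b₂ * (2 * ε) ≤ κ' * (ρ / (2 * b₁)) ^ k / 4 := by linarith
    rw [mul_add]
    linarith
  · intro i hi0 him hsrc
    show 2 * (ρ / (2 * b₁)) ≤ ‖χ (F^[i] z') - χ z'‖
    have hsrc' : F^[i] z' ∈ χ.source := hsrc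
    by_contra hcon
    push Not at hcon
    have hcon' : b₁ * ‖χ (F^[i] z') - χ z'‖ < ρ := by
      have h1 : 2 * (ρ / (2 * b₁)) = ρ / b₁ := by field_simp
      rw [h1, lt_div_iff₀ hb₁0] at hcon
      linarith
    have hsm : ‖e (χ (F^[i] z'))‖ ≤ c := by
      refine (hn1 _).trans ?_
      have h1 : ‖χ (F^[i] z')‖ ≤ ‖χ (F^[i] z') - χ z'‖ + ‖χ z'‖ := by
        have := norm_add_le (χ (F^[i] z') - χ z') (χ z')
        rwa [sub_add_cancel] at this
      have h2 : b₁ * ‖χ (F^[i] z')‖ ≤ ρ + b₁ * (b₂ * (3 * (d * κ₀))) := by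
        calc b₁ * ‖χ (F^[i] z')‖ ≤ b₁ * (‖χ (F^[i] z') - χ z'‖ + ‖χ z'‖) := by gcongr
          _ = b₁ * ‖χ (F^[i] z') - χ z'‖ + b₁ * ‖χ z'‖ := by ring
          _ ≤ ρ + b₁ * (b₂ * (3 * (d * κ₀))) := by gcongr
      linarith
    obtain ⟨hv1, hv2⟩ := hb i ⟨lin (A ^ i) Y, by rw [← hit i]; exact hsrc', by
      rw [← hit i]; exact hsm⟩
    have hit' : F^[i] z' = R (lin (A ^ i) Y - b i) (R (b i) (F^[i] x')) := by
      rw [hit i, ← hR.add, sub_add_cancel]
    obtain ⟨L', hL', hL'e⟩ := p2 (R (b i) (F^[i] x')) hv1 (lin (A ^ i) Y - b i)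
      (by rw [← hit']; exact hsrc') hv2 (by rw [← hit']; exact hsm)
    choose l' hl' using hL'
    obtain ⟨j, hj⟩ := hav i hi0 him l'
    have him' : i ≠ m := him.ne
    have h1 : ((rM (A ^ i)).mulVec y' + tr i - y') j - l' j =
        (e (χ (F^[i] z') - χ z')).1 j := by
      rw [map_sub, hit', hL'e, hz'e]
      have h2 : tr i j = (e (χ (R (b i) (F^[i] x')))).1 j - b i j - (e (χ x')).1 j := by
        rw [htr]
        simp [him']
      have h3 : (e (χ (R (b i) (F^[i] x'))) + (lin (A ^ i) Y - b i - L', 0) -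
          (e (χ x') + (Y, 0))).1 j = (e (χ (R (b i) (F^[i] x')))).1 j +
            (lin (A ^ i) Y j - b i j - L' j) - ((e (χ x')).1 j + Y j) := rfl
      rw [h3, lin_apply, hYi, hl' j]
      simp only [Pi.sub_apply, Pi.add_apply]
      rw [h2, hY]
      ring
    rw [h1] at hj
    have h2 := hcomp (e (χ (F^[i] z') - χ z')) j
    have h3 := hn1 (χ (F^[i] z') - χ z')
    linarith

end Pool.Agent.H71TB
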