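import Mathlib

/-!
# Characters, uniform measures on cubes
-/

set_option autoImplicit false

open MeasureTheory Set Filter
open scoped Topology ENNReal BigOperators Real

noncomputable section

namespace Pool.Agent.H71TB

/-- `e t = exp(2πit)` -/
def e (t : ℝ) : ℂ := Complex.exp (2 * π * t * Complex.I)

theorem e_zero : e 0 = 1 := by simp [e]

theorem e_add (s t : ℝ) : e (s + t) = e s * e t := by
  unfold e
  rw [← Complex.exp_add]
  congr 1
  push_cast
  ring

theorem e_neg (t : ℝ) : e (-t) = (e t)⁻¹ := by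
  unfold e
  rw [← Complex.exp_neg]
  congr 1
  push_cast
  ring

theorem norm_e (t : ℝ) : ‖e t‖ = 1 := by
  have : e t = Complex.exp ((2 * π * t : ℝ) * Complex.I) := by
    unfold e; push_cast; rfl
  rw [this, Complex.norm_exp_ofReal_mul_I]

theorem e_int (m : ℤ) : e m = 1 := by
  unfold e
  rw [show (2 * (π : ℂ) * ((m : ℝ) : ℂ) * Complex.I) = m * (2 * π * Complex.I) by push_cast; ring]
  exact Complex.exp_int_mul_two_pi_mul_I m

theorem continuous_e : Continuous e := by
  unfold e
  fun_prop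

theorem e_sum {ι : Type*} (s : Finset ι) (f : ι → ℝ) : e (∑ i ∈ s, f i) = ∏ i ∈ s, e (f i) := by
  classical
  induction s using Finset.induction_on with
  | empty => simp [e_zero]
  | insert a s ha ih => rw [Finset.sum_insert ha, Finset.prod_insert ha, e_add, ih]

/-- the uniform measure on `(a, b]` -/
def U (a b : ℝ) : Measure ℝ := (ENNReal.ofReal (b - a))⁻¹ • volume.restrict (Ioc a b)

theorem U_prob {a b : ℝ} (h : a < b) : IsProbabilityMeasure (U a b) := by
  constructor
  have h1 : ENNReal.ofReal (b - a) ≠ 0 := by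
    simpa using h
  rw [U, Measure.smul_apply, Measure.restrict_apply MeasurableSet.univ, univ_inter,
    Real.volume_Ioc, smul_eq_mul]
  exact ENNReal.inv_mul_cancel h1 ENNReal.ofReal_ne_top

theorem integral_U {a b : ℝ} (h : a < b) {E : Type*} [NormedAddCommGroup E] [NormedSpace ℝ E]
    (f : ℝ → E) : ∫ x, f x ∂(U a b) = (b - a)⁻¹ • ∫ x in a..b, f x := by
  rw [U, integral_smul_measure, intervalIntegral.integral_of_le h.le, ENNReal.toReal_inv,
    ENNReal.toReal_ofReal (sub_pos.2 h).le]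

theorem U_ae {a b : ℝ} {p : ℝ → Prop} (h : ∀ x ∈ Ioc a b, p x) : ∀ᵐ x ∂(U a b), p x := by
  refine Measure.ae_smul_measure ?_ _
  exact (ae_restrict_iff' measurableSet_Ioc).2 (Eventually.of_forall h)

/-- the integral of a character over an interval -/
theorem norm_integral_e_le {a b c : ℝ} (h : a < b) (hc : c ≠ 0) :
    ‖∫ x, e (c * x) ∂(U a b)‖ ≤ 1 / (π * |c| * (b - a)) := by
  have hpi := Real.pi_pos
  have h1 : ∫ x in a..b, e (c * x) =
      (Complex.exp ((2 * π * c * Complex.I) * b) - Complex.exp ((2 * π * c * Complex.I) * a)) /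
        (2 * π * c * Complex.I) := by
    have hne : (2 * π * c * Complex.I : ℂ) ≠ 0 := by
      simp [hc, Real.pi_ne_zero]
    rw [← integral_exp_mul_complex hne]
    apply intervalIntegral.integral_congr
    intro x _
    simp only [e]
    congr 1
    push_cast
    ring
  rw [integral_U h, h1, norm_smul, norm_div]
  have h2 : ∀ x : ℝ, ‖Complex.exp ((2 * π * c * Complex.I) * x)‖ = 1 := by
    intro x
    rw [show (2 * π * c * Complex.I * x : ℂ) = ((2 * π * c * x : ℝ) : ℂ) * Complex.I by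
      push_cast; ring, Complex.norm_exp_ofReal_mul_I]
  have h3 : ‖Complex.exp ((2 * π * c * Complex.I) * b) -
      Complex.exp ((2 * π * c * Complex.I) * a)‖ ≤ 2 := by
    refine (norm_sub_le _ _).trans ?_
    rw [h2, h2]; norm_num
  have h4 : ‖(2 * π * c * Complex.I : ℂ)‖ = 2 * π * |c| := by
    simp [abs_of_pos hpi]
  have hba : 0 < b - a := sub_pos.2 h
  have hc' : 0 < |c| := abs_pos.2 hc
  rw [h4, Real.norm_of_nonneg (by positivity)]
  calc (b - a)⁻¹ * (‖Complex.exp ((2 * π * c * Complex.I) * b) -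
      Complex.exp ((2 * π * c * Complex.I) * a)‖ / (2 * π * |c|))
      ≤ (b - a)⁻¹ * (2 / (2 * π * |c|)) := by gcongr
    _ = 1 / (π * |c| * (b - a)) := by field_simp

theorem norm_integral_e_le_one {a b c : ℝ} (h : a < b) :
    ‖∫ x, e (c * x) ∂(U a b)‖ ≤ 1 := by
  have := U_prob h
  refine (norm_integral_le_of_norm_le_const (C := 1) (Eventually.of_forall fun x => ?_)).trans ?_
  · rw [norm_e]
  · simp

theorem integral_e_int {m : ℤ} (hm : m ≠ 0) : ∫ x, e (m * x) ∂(U 0 1) = 0 := by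
  have hne : (2 * π * m * Complex.I : ℂ) ≠ 0 := by
    simp [hm, Real.pi_ne_zero]
  have h1 : ∫ x in (0:ℝ)..1, e (m * x) =
      (Complex.exp ((2 * π * m * Complex.I) * (1:ℝ)) -
        Complex.exp ((2 * π * m * Complex.I) * (0:ℝ))) / (2 * π * m * Complex.I) := by
    rw [← integral_exp_mul_complex hne]
    apply intervalIntegral.integral_congr
    intro x _
    simp only [e]
    congr 1
    push_cast
    ring
  rw [integral_U zero_lt_one, h1]
  have h2 : Complex.exp ((2 * π * m * Complex.I) * (1:ℝ)) = 1 := by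
    rw [show (2 * π * m * Complex.I * (1:ℝ) : ℂ) = m * (2 * π * Complex.I) by push_cast; ring]
    exact Complex.exp_int_mul_two_pi_mul_I m
  rw [h2]
  simp

/-- the uniform measure on the cube `(a, b]^u` -/
def Cu (u : ℕ) (a b : ℝ) : Measure (Fin u → ℝ) := Measure.pi fun _ => U a b

theorem Cu_prob {u : ℕ} {a b : ℝ} (h : a < b) : IsProbabilityMeasure (Cu u a b) := by
  have := U_prob h
  unfold Cu
  infer_instance

theorem U_sigma {a b : ℝ} (h : a < b) : SigmaFinite (U a b) := by
  have := U_prob h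
  infer_instance

theorem Cu_ae {u : ℕ} {a b : ℝ} (h : a < b) : ∀ᵐ x ∂(Cu u a b), ∀ i, x i ∈ Ioc a b := by
  have := U_prob h
  unfold Cu
  rw [ae_all_iff]
  intro i
  have h1 : ∀ᵐ y ∂(U a b), y ∈ Ioc a b := U_ae fun x hx => hx
  exact (Measure.quasiMeasurePreserving_eval (fun _ : Fin u => U a b) i).ae h1

/-- characters over cubes -/
theorem integral_Cu_e {u : ℕ} {a b : ℝ} (h : a < b) (c : Fin u → ℝ) :
    ∫ x, e (∑ i, c i * x i) ∂(Cu u a b) = ∏ i, ∫ x, e (c i * x) ∂(U a b) := by
  have := U_prob h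
  unfold Cu
  rw [← integral_fintype_prod_eq_prod]
  congr 1
  ext x
  rw [e_sum]

theorem norm_integral_Cu_e_le {u : ℕ} {a b : ℝ} (h : a < b) (c : Fin u → ℝ) (j : Fin u)
    (hc : c j ≠ 0) :
    ‖∫ x, e (∑ i, c i * x i) ∂(Cu u a b)‖ ≤ 1 / (π * |c j| * (b - a)) := by
  classical
  rw [integral_Cu_e h, norm_prod, ← Finset.mul_prod_erase _ _ (Finset.mem_univ j)]
  have h1 : ∏ i ∈ Finset.univ.erase j, ‖∫ x, e (c i * x) ∂(U a b)‖ ≤ 1 :=
    Finset.prod_le_one (fun i _ => norm_nonneg _) fun i _ => norm_integral_e_le_one h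
  calc _ ≤ ‖∫ x, e (c j * x) ∂(U a b)‖ * 1 := by
        gcongr
    _ ≤ _ := by rw [mul_one]; exact norm_integral_e_le h hc

theorem integral_Cu_e_int {d : ℕ} {k : Fin d → ℤ} (hk : k ≠ 0) :
    ∫ x, e (∑ i, (k i : ℝ) * x i) ∂(Cu d 0 1) = 0 := by
  obtain ⟨j, hj⟩ := Function.ne_iff.1 hk
  rw [integral_Cu_e zero_lt_one]
  exact Finset.prod_eq_zero (Finset.mem_univ j) (integral_e_int hj)

end Pool.Agent.H71TB
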