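import Pool.Agent.H71TB.App

/-!
# Diffeomorphisms which normalize a torus action: definitions

`V d = ℝ^d`, `DiffM n N r = Diff^r(N)` and `strongTop n N r` is its strong (Whitney) `C^r` topology
(`Pool/Agent/H718R2/G0.lean`). `TAct d n N R` (`Pool/Agent/H71TB/AD.lean`): `(a, y) ↦ R_a y` is a smooth
action of the torus `𝕋^d = ℝ^d / ℤ^d` on `N`. `lin A a = A a` for an integer matrix `A` and `a ∈ ℝ^d`
(`Pool/Agent/H71TB/App.lean`).
-/

set_option autoImplicit false

open scoped Manifold ContDiff Topology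

universe u

namespace Pool.Agent.H71TB

open Pool.Agent.H718R2.G Pool.Agent.H71TB.AD

/-- No eigenvalue of the integer matrix `A` is a root of unity. For `A ∈ GL(d, ℤ)`, `d ≥ 1`, this means
that the automorphism `a ↦ A a` of the torus `𝕋^d` is ergodic. It need not be hyperbolic: all but two
eigenvalues of `A` may lie on the unit circle. -/
def Erg {d : ℕ} (A : Matrix (Fin d) (Fin d) ℤ) : Prop :=
  ∀ n : ℕ, 1 ≤ n → (A ^ n - 1).det ≠ 0

/-- The integer matrix `A` has an eigenvalue `μ ∈ ℂ` with `|μ| > 1`. For `A ∈ GL(d, ℤ)` this means that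
the automorphism `a ↦ A a` of `𝕋^d` has positive entropy. -/
def PosEnt {d : ℕ} (A : Matrix (Fin d) (Fin d) ℤ) : Prop :=
  ∃ μ : ℂ, 1 < ‖μ‖ ∧ ∃ w : Fin d → ℂ, w ≠ 0 ∧ ∀ i, ∑ j, (A i j : ℂ) * w j = μ * w i

/-- The point `z` is nonwandering for the restriction of `F` to `K` (for `K = N`: for `F`). -/
def NonWandPt {N : Type u} [TopologicalSpace N] (F : N → N) (K : Set N) (z : N) : Prop :=
  ∀ S ∈ 𝓝 z, ∃ m : ℕ, 1 ≤ m ∧ ∃ y ∈ S, y ∈ K ∧ F^[m] y ∈ S

/-- The `R`-orbit of `z` is nonwandering for the map which `F` induces on the space of the `R`-orbits of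
the points of `K`. -/
def NonWandOrb {d : ℕ} {N : Type u} [TopologicalSpace N] (R : V d → N → N) (F : N → N) (K : Set N)
    (z : N) : Prop :=
  ∀ S ∈ 𝓝 z, ∃ m : ℕ, 1 ≤ m ∧ ∃ y ∈ S, y ∈ K ∧ ∃ a, R a (F^[m] y) ∈ S

/-- `z` lies in a subset `K` of `N` with `F(K) ⊆ K`, the `𝕋^d`-orbits of the points of `K` are mapped to
`𝕋^d`-orbits by affine maps with the linear part `A`, that is `F (R_a y) = R_{A a} (F y)`, and the
stabiliser of the point `z` in `𝕋^d` is trivial. -/
def Normalizes {d : ℕ} (n : ℕ) (N : Type u) [TopologicalSpace N] [ChartedSpace (V n) N]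
    (R : V d → N → N) (A : Matrix (Fin d) (Fin d) ℤ) (F : N → N) (K : Set N) (z : N) : Prop :=
  TAct d n N R ∧ (∀ y ∈ K, F y ∈ K) ∧ z ∈ K ∧ (∀ a, ∀ y ∈ K, F (R a y) = R (lin A a) (F y)) ∧
    ∀ a : V d, R a z = z → ∀ j, ∃ m : ℤ, a j = (m : ℝ)

/-- `F` normalizes a smooth torus action on an invariant set which contains `z`, and either
(a) it acts on the torus by an ergodic automorphism, and the torus orbit of `z` is nonwandering for the
induced map of the space of the orbits, or (b) it acts on the torus by an automorphism of positive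
entropy, and `z` is a nonwandering point. -/
def TorPt (n : ℕ) (N : Type u) [TopologicalSpace N] [ChartedSpace (V n) N] (F : N → N) (z : N) :
    Prop :=
  ∃ (d : ℕ) (R : V d → N → N) (A : Matrix (Fin d) (Fin d) ℤ) (K : Set N), 1 ≤ d ∧
    Normalizes n N R A F K z ∧
    (Erg A ∧ NonWandOrb R F K z ∨ PosEnt A ∧ NonWandPt F K z)

/-- Every neighbourhood of `F` in `Diff^r(N)` contains a diffeomorphism with the property `Q`. -/
def Approx (n : ℕ) (N : Type u) [TopologicalSpace N] [ChartedSpace (V n) N] (r : ℕ∞)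
    (F : DiffM n N r) (Q : DiffM n N r → Prop) : Prop :=
  ∀ U : Set (DiffM n N r), IsOpen[strongTop n N r] U → F ∈ U → ∃ G ∈ U, Q G

end Pool.Agent.H71TB
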