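import Pool.Agent.H71TB.Ker

/-!
# Expanded directions of an integer matrix
-/

set_option autoImplicit false

open MeasureTheory Set Filter
open scoped Topology ENNReal BigOperators Real

noncomputable section

namespace Pool.Agent.H71TB

/-- the real matrix of an integer matrix -/
def rM {d : ℕ} (A : Matrix (Fin d) (Fin d) ℤ) : Matrix (Fin d) (Fin d) ℝ := A.map (Int.cast : ℤ → ℝ)

theorem rM_mul {d : ℕ} (A A' : Matrix (Fin d) (Fin d) ℤ) : rM (A * A') = rM A * rM A' := by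
  unfold rM
  exact Matrix.map_mul (f := Int.castRingHom ℝ)

theorem rM_one {d : ℕ} : rM (1 : Matrix (Fin d) (Fin d) ℤ) = 1 := by
  unfold rM
  ext i j
  by_cases h : i = j <;> simp [h, Matrix.one_apply]

theorem rM_sub {d : ℕ} (A A' : Matrix (Fin d) (Fin d) ℤ) : rM (A - A') = rM A - rM A' := by
  ext i j
  simp [rM]

theorem rM_pow {d : ℕ} (A : Matrix (Fin d) (Fin d) ℤ) (n : ℕ) : rM (A ^ n) = rM A ^ n := by
  induction n with
  | zero => simp [rM_one]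
  | succ n ih => rw [pow_succ, rM_mul, ih, pow_succ]

/-- `W` parametrizes a subspace of `ℝ^d` which is uniformly expanded by the integer matrix `A`
(`A W = W B`, `B⁻¹` is a contraction) and badly approximable by rational hyperplanes. -/
structure Expd {d u : ℕ} (A : Matrix (Fin d) (Fin d) ℤ) (W : Matrix (Fin d) (Fin u) ℝ)
    (B B' : Matrix (Fin u) (Fin u) ℝ) (C κ c₀ : ℝ) (D₀ : ℕ) : Prop where
  inv : B * B' = 1
  inv' : B' * B = 1
  comm : rM A * W = W * B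
  C_ge : 1 ≤ C
  κ_pos : 0 < κ
  κ_lt : κ < 1
  contr : ∀ (n : ℕ) (x : Fin u → ℝ), ‖(B' ^ n).mulVec x‖ ≤ C * κ ^ n * ‖x‖
  contr' : ∀ (n : ℕ) (x : Fin u → ℝ), ‖Matrix.vecMul x (B' ^ n)‖ ≤ C * κ ^ n * ‖x‖
  c₀_pos : 0 < c₀
  dio : ∀ (k : Fin d → ℤ) (D : ℝ), k ≠ 0 → (∀ i, |(k i : ℝ)| ≤ D) →
    c₀ ≤ ‖Matrix.vecMul (kR k) W‖ * D ^ D₀

variable {d u : ℕ} {A : Matrix (Fin d) (Fin d) ℤ} {W : Matrix (Fin d) (Fin u) ℝ}
    {B B' : Matrix (Fin u) (Fin u) ℝ} {C κ c₀ : ℝ} {D₀ : ℕ}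

theorem BB_pow (h : Expd A W B B' C κ c₀ D₀) (n : ℕ) : B ^ n * B' ^ n = 1 := by
  induction n with
  | zero => simp
  | succ n ih =>
    rw [pow_succ, pow_succ', mul_assoc, ← mul_assoc B B', h.inv, one_mul, ih]

theorem BB_add (h : Expd A W B B' C κ c₀ D₀) (i t : ℕ) : B ^ (t + i) * B' ^ t = B ^ i := by
  rw [add_comm, pow_add, mul_assoc, BB_pow h, mul_one]

theorem BB_sub (h : Expd A W B B' C κ c₀ D₀) (i t : ℕ) : B ^ t * B' ^ (t + i) = B' ^ i := by
  rw [pow_add, ← mul_assoc, BB_pow h, one_mul]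

theorem A_W (h : Expd A W B B' C κ c₀ D₀) (n : ℕ) : rM (A ^ n) * W = W * B ^ n := by
  induction n with
  | zero => simp [rM_one]
  | succ n ih =>
    rw [pow_succ, rM_mul, Matrix.mul_assoc, h.comm, ← Matrix.mul_assoc, ih, Matrix.mul_assoc, pow_succ]

theorem vecMul_B_lower (h : Expd A W B B' C κ c₀ D₀) (n : ℕ) (c : Fin u → ℝ) :
    ‖c‖ * (1 / κ) ^ n / C ≤ ‖Matrix.vecMul c (B ^ n)‖ := by
  have h1 : c = Matrix.vecMul (Matrix.vecMul c (B ^ n)) (B' ^ n) := by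
    rw [Matrix.vecMul_vecMul, BB_pow h, Matrix.vecMul_one]
  have h2 := h.contr' n (Matrix.vecMul c (B ^ n))
  rw [← h1] at h2
  have hκ := h.κ_pos
  have hC := h.C_ge
  rw [div_le_iff₀ (by linarith), one_div, inv_pow, ← div_eq_mul_inv, div_le_iff₀ (by positivity)]
  linarith

/-- lower bound for nontrivial characters -/
theorem g_one (h : Expd A W B B' C κ c₀ D₀) (n : ℕ) {D : ℝ} (hD : 0 < D) {k : Fin d → ℤ} (hk : k ≠ 0)
    (hkD : ∀ i, |(k i : ℝ)| ≤ D) :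
    c₀ * (1 / κ) ^ n / (C * D ^ D₀) ≤ ‖Matrix.vecMul (kR k) (W * B ^ n)‖ := by
  have h1 := h.dio k D hk hkD
  have h2 := vecMul_B_lower h n (Matrix.vecMul (kR k) W)
  rw [Matrix.vecMul_vecMul] at h2
  refine le_trans ?_ h2
  have hκ := h.κ_pos
  have hC := h.C_ge
  have hD' : 0 < D ^ D₀ := by positivity
  have h3 : c₀ / D ^ D₀ ≤ ‖Matrix.vecMul (kR k) W‖ := by
    rw [div_le_iff₀ hD']
    exact h1
  calc c₀ * (1 / κ) ^ n / (C * D ^ D₀) = (c₀ / D ^ D₀) * (1 / κ) ^ n / C := by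
        field_simp
    _ ≤ _ := by gcongr

/-- the sum of the moduli of the entries of `W` -/
def mW {d u : ℕ} (W : Matrix (Fin d) (Fin u) ℝ) : ℝ := ∑ i, ∑ j, |W i j|

theorem mW_nonneg {d u : ℕ} (W : Matrix (Fin d) (Fin u) ℝ) : 0 ≤ mW W :=
  Finset.sum_nonneg fun _ _ => Finset.sum_nonneg fun _ _ => abs_nonneg _

theorem vecMul_le {d u : ℕ} (W : Matrix (Fin d) (Fin u) ℝ) (c : Fin d → ℝ) {D : ℝ}
    (hD : 0 ≤ D) (hc : ∀ i, |c i| ≤ D) : ‖Matrix.vecMul c W‖ ≤ D * mW W := by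
  rw [pi_norm_le_iff_of_nonneg (mul_nonneg hD (mW_nonneg W))]
  intro j
  rw [Real.norm_eq_abs]
  unfold Matrix.vecMul dotProduct mW
  refine (Finset.abs_sum_le_sum_abs _ _).trans ?_
  rw [Finset.mul_sum]
  refine Finset.sum_le_sum fun i _ => ?_
  rw [abs_mul]
  refine mul_le_mul (hc i) ?_ (abs_nonneg _) hD
  exact Finset.single_le_sum (f := fun j => |W i j|) (fun _ _ => abs_nonneg _) (Finset.mem_univ j)

theorem mulVec_le {d u : ℕ} (W : Matrix (Fin d) (Fin u) ℝ) (x : Fin u → ℝ) :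
    ‖W.mulVec x‖ ≤ mW W * ‖x‖ := by
  rw [pi_norm_le_iff_of_nonneg (mul_nonneg (mW_nonneg W) (norm_nonneg _))]
  intro i
  rw [Real.norm_eq_abs]
  unfold Matrix.mulVec dotProduct mW
  refine (Finset.abs_sum_le_sum_abs _ _).trans ?_
  calc ∑ j, |W i j * x j| ≤ ∑ j, |W i j| * ‖x‖ := by
        refine Finset.sum_le_sum fun j _ => ?_
        rw [abs_mul]
        exact mul_le_mul_of_nonneg_left (norm_le_pi_norm x j) (abs_nonneg _)
    _ = (∑ j, |W i j|) * ‖x‖ := by rw [Finset.sum_mul]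
    _ ≤ _ := by
      refine mul_le_mul_of_nonneg_right ?_ (norm_nonneg _)
      exact Finset.single_le_sum (f := fun i => ∑ j, |W i j|)
        (fun _ _ => Finset.sum_nonneg fun _ _ => abs_nonneg _) (Finset.mem_univ i)

/-- lower bound for sums of characters at two times -/
theorem g_two (h : Expd A W B B' C κ c₀ D₀) (i j : ℕ) {D D' : ℝ} (hD : 0 < D) (hD' : 0 ≤ D')
    (hj : 2 * (D' * mW W) ≤ c₀ * (1 / κ) ^ j / (C * D ^ D₀))
    {k : Fin d → ℤ} (hk : k ≠ 0) (hkD : ∀ i, |(k i : ℝ)| ≤ D) {k' : Fin d → ℤ}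
    (hkD' : ∀ i, |(k' i : ℝ)| ≤ D') :
    c₀ * (1 / κ) ^ (i + j) / (2 * C ^ 2 * D ^ D₀) ≤
      ‖Matrix.vecMul (kR k) (W * B ^ (i + j)) + Matrix.vecMul (kR k') (W * B ^ i)‖ := by
  have hκ := h.κ_pos
  have hC := h.C_ge
  have h1 := g_one h j hD hk hkD
  have h2 : ‖Matrix.vecMul (kR k') W‖ ≤ D' * mW W := vecMul_le W _ hD' hkD'
  have h3 : Matrix.vecMul (kR k) (W * B ^ (i + j)) + Matrix.vecMul (kR k') (W * B ^ i) =
      Matrix.vecMul (Matrix.vecMul (kR k) (W * B ^ j) + Matrix.vecMul (kR k') W) (B ^ i) := by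
    rw [Matrix.add_vecMul, Matrix.vecMul_vecMul, Matrix.vecMul_vecMul, Matrix.mul_assoc, ← pow_add,
      add_comm j i]
  rw [h3]
  refine le_trans ?_ (vecMul_B_lower h i _)
  have h4 : c₀ * (1 / κ) ^ j / (C * D ^ D₀) / 2 ≤
      ‖Matrix.vecMul (kR k) (W * B ^ j) + Matrix.vecMul (kR k') W‖ := by
    have h5 : ‖Matrix.vecMul (kR k) (W * B ^ j)‖ ≤
        ‖Matrix.vecMul (kR k) (W * B ^ j) + Matrix.vecMul (kR k') W‖ +
          ‖Matrix.vecMul (kR k') W‖ := by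
      have := norm_sub_le (Matrix.vecMul (kR k) (W * B ^ j) + Matrix.vecMul (kR k') W)
        (Matrix.vecMul (kR k') W)
      rwa [add_sub_cancel_right] at this
    linarith
  calc c₀ * (1 / κ) ^ (i + j) / (2 * C ^ 2 * D ^ D₀) =
      (c₀ * (1 / κ) ^ j / (C * D ^ D₀) / 2) * (1 / κ) ^ i / C := by
        rw [pow_add]
        field_simp
    _ ≤ _ := by gcongr

/-- no nonzero integer vector is periodic under the transpose of `A` -/
theorem no_per (h : Expd A W B B' C κ c₀ D₀) {n : ℕ} (hn : 1 ≤ n) {k : Fin d → ℤ} (hk : k ≠ 0) :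
    Matrix.vecMul k (A ^ n - 1) ≠ 0 := by
  intro h0
  have hκ := h.κ_pos
  have hC := h.C_ge
  have h1 : Matrix.vecMul k (A ^ n) = k := by
    rw [Matrix.vecMul_sub, Matrix.vecMul_one, sub_eq_zero] at h0
    exact h0
  have h2 : Matrix.vecMul (kR k) (rM (A ^ n)) = kR k := by
    have : Matrix.vecMul (kR k) (rM (A ^ n)) = kR (Matrix.vecMul k (A ^ n)) := by
      ext i
      simp [kR, rM, Matrix.vecMul, dotProduct]
    rw [this, h1]
  have h3 : Matrix.vecMul (Matrix.vecMul (kR k) W) (B ^ n) = Matrix.vecMul (kR k) W := by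
    rw [Matrix.vecMul_vecMul, ← A_W h, ← Matrix.vecMul_vecMul, h2]
  have h4 : ∀ m : ℕ, Matrix.vecMul (Matrix.vecMul (kR k) W) (B ^ (n * m)) =
      Matrix.vecMul (kR k) W := by
    intro m
    induction m with
    | zero => simp
    | succ m ih =>
      rw [mul_add, mul_one, pow_add, ← Matrix.vecMul_vecMul, ih, h3]
  obtain ⟨D, hD⟩ : ∃ D : ℝ, 0 < D ∧ ∀ i, |(k i : ℝ)| ≤ D :=
    ⟨∑ i, |(k i : ℝ)| + 1, by positivity, fun i => by
      have := Finset.single_le_sum (f := fun i => |(k i : ℝ)|) (fun _ _ => abs_nonneg _)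
        (Finset.mem_univ i)
      linarith⟩
  have h5 : 0 < ‖Matrix.vecMul (kR k) W‖ := by
    have := h.dio k D hk hD.2
    have h6 := h.c₀_pos
    by_contra hcon
    have h7 : ‖Matrix.vecMul (kR k) W‖ = 0 := le_antisymm (not_lt.1 hcon) (norm_nonneg _)
    rw [h7, zero_mul] at this
    linarith
  -- the norms grow
  have h6 : ∀ m : ℕ, (1 / κ) ^ m ≤ C := by
    intro m
    have h7 := vecMul_B_lower h (n * m) (Matrix.vecMul (kR k) W)
    rw [h4, div_le_iff₀ (by linarith)] at h7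
    have h8 : (1 / κ) ^ (n * m) ≤ C := by
      have := (mul_le_mul_iff_right₀ h5).1 h7
      exact this
    refine le_trans ?_ h8
    apply pow_le_pow_right₀
    · rw [le_div_iff₀ hκ]; linarith [h.κ_lt]
    · nlinarith
  have h7 : Tendsto (fun m : ℕ => (1 / κ) ^ m) atTop atTop := by
    apply tendsto_pow_atTop_atTop_of_one_lt
    rw [lt_div_iff₀ hκ]; linarith [h.κ_lt]
  obtain ⟨m, hm⟩ := (h7.eventually_gt_atTop C).exists
  exact absurd (h6 m) (not_le.2 hm)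

end Pool.Agent.H71TB
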