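import Pool.Agent.H71TB.Exp

/-!
# The last part of the orbit
-/

set_option autoImplicit false

open MeasureTheory Set Filter
open scoped Topology ENNReal BigOperators Real

noncomputable section

namespace Pool.Agent.H71TB

theorem cont_aff {d u : ℕ} (x₀ : Fin d → ℝ) (L : Matrix (Fin d) (Fin u) ℝ) :
    Continuous fun η : Fin u → ℝ => x₀ + L.mulVec η :=
  continuous_const.add (Continuous.matrix_mulVec continuous_const continuous_id)

theorem cont_aff_i {d u : ℕ} (x₀ : Fin d → ℝ) (L : Matrix (Fin d) (Fin u) ℝ) (i : Fin d) :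
    Continuous fun η : Fin u → ℝ => (x₀ + L.mulVec η) i :=
  (continuous_apply i).comp (cont_aff x₀ L)

theorem F_eq {d u N : ℕ} {s g : ℝ} (hs : 0 < s) (hg : 0 < g) (L : Matrix (Fin d) (Fin u) ℝ)
    (x₀ : Fin d → ℝ) (hk : ∀ k : Fin d → ℤ, k ≠ 0 → (∀ i, |(k i : ℝ)| ≤ d * N) →
      g ≤ ‖Matrix.vecMul (kR k) L‖) :
    |∫ η, F d N (x₀ + L.mulVec η) ∂(Cu u (-s) s) - aN N ^ d| ≤ 1 / (g * s) := by
  have h := eq1 hs hg (TP_F d N) L x₀ hk
  rw [integral_complex_ofReal, integral_complex_ofReal, F_mean, ← Complex.ofReal_sub, Complex.norm_real,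
    Real.norm_eq_abs, one_mul] at h
  exact h

theorem FG_eq2 {d u N : ℕ} {s g r : ℝ} (hs : 0 < s) (hg : 0 < g) (i₀ : Fin d)
    (L L' : Matrix (Fin d) (Fin u) ℝ) (x₀ x₁ : Fin d → ℝ)
    (hk : ∀ k : Fin d → ℤ, k ≠ 0 → (∀ i, |(k i : ℝ)| ≤ d * N) →
      ∀ k' : Fin d → ℤ, (∀ i, |(k' i : ℝ)| ≤ NG r) →
      g ≤ ‖Matrix.vecMul (kR k) L + Matrix.vecMul (kR k') L'‖) :
    |∫ η, F d N (x₀ + L.mulVec η) * G r ((x₁ + L'.mulVec η) i₀) ∂(Cu u (-s) s) -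
      aN N ^ d * ∫ η, G r ((x₁ + L'.mulVec η) i₀) ∂(Cu u (-s) s)| ≤ 4 / (g * s) := by
  have h := eq2 hs hg (TP_F d N) (TP_G i₀ r) L L' x₀ x₁ hk
  simp only [← Complex.ofReal_mul] at h
  rw [integral_complex_ofReal, integral_complex_ofReal, integral_complex_ofReal, F_mean, ← Complex.ofReal_mul,
    ← Complex.ofReal_sub, Complex.norm_real, Real.norm_eq_abs, one_mul] at h
  exact h

theorem FG_eq3 {d u N : ℕ} {s g r D : ℝ} (hs : 0 < s) (hg : 0 < g) (i₀ : Fin d)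
    (L' : Matrix (Fin d) (Fin u) ℝ) (x₁ b : Fin d → ℝ) (M : Matrix (Fin d) (Fin d) ℤ)
    (hD : mb M * (d * N) + NG r ≤ D)
    (hk : ∀ k : Fin d → ℤ, k ≠ 0 → (∀ i, |(k i : ℝ)| ≤ D) →
      g ≤ ‖Matrix.vecMul (kR k) L'‖) :
    |∫ η, F d N ((rM M).mulVec (x₁ + L'.mulVec η) + b) * G r ((x₁ + L'.mulVec η) i₀)
        ∂(Cu u (-s) s) -
      ∫ y, F d N ((rM M).mulVec y + b) * G r (y i₀) ∂(Cu d 0 1)| ≤ 4 / (g * s) := by
  have h := eq1 hs hg ((((TP_F d N).affine M b).mul (TP_G i₀ r)).mono hD le_rfl) L' x₁ hk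
  simp only [← Complex.ofReal_mul] at h
  rw [integral_complex_ofReal, integral_complex_ofReal, ← Complex.ofReal_sub, Complex.norm_real,
    Real.norm_eq_abs] at h
  refine h.trans (le_of_eq ?_)
  ring

theorem exists_good {u : ℕ} {s τ : ℝ} (hs : 0 < s) (hτ : 0 ≤ τ) {Φ : (Fin u → ℝ) → ℝ} {n : ℕ}
    {Γ : ℕ → (Fin u → ℝ) → ℝ} (h0 : ∀ η, 0 ≤ Φ η)
    (hg : ∀ i η, 0 ≤ Γ i η)
    (h : τ < ∫ η, Φ η * (1 - ∑ i ∈ Finset.range n, Γ i η) ∂(Cu u (-s) s)) :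
    ∃ η : Fin u → ℝ, (∀ i, |η i| ≤ s) ∧ τ < Φ η ∧ ∀ i < n, Γ i η < 1 := by
  have := Cu_prob (u := u) (by linarith : -s < s)
  by_contra hcon
  push Not at hcon
  have h1 : ∫ η, Φ η * (1 - ∑ i ∈ Finset.range n, Γ i η) ∂(Cu u (-s) s) ≤
      ∫ _ : Fin u → ℝ, τ ∂(Cu u (-s) s) := by
    by_cases hint : Integrable (fun η => Φ η * (1 - ∑ i ∈ Finset.range n, Γ i η)) (Cu u (-s) s)
    · apply integral_mono_ae hint (integrable_const _)
      filter_upwards [Cu_ae (u := u) (by linarith : -s < s)] with η hη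
      have hη' : ∀ i, |η i| ≤ s := fun i => abs_le.2 ⟨(hη i).1.le, (hη i).2⟩
      by_cases h2 : τ < Φ η
      · obtain ⟨i, hi, h3⟩ := hcon η hη' h2
        have h4 : 1 ≤ ∑ i ∈ Finset.range n, Γ i η :=
          h3.trans (Finset.single_le_sum (f := fun i => Γ i η) (fun i _ => hg i η)
            (Finset.mem_range.2 hi))
        have := h0 η
        show Φ η * (1 - ∑ i ∈ Finset.range n, Γ i η) ≤ τ
        nlinarith
      · push Not at h2
        have h4 : 0 ≤ ∑ i ∈ Finset.range n, Γ i η := Finset.sum_nonneg fun i _ => hg i η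
        have := h0 η
        show Φ η * (1 - ∑ i ∈ Finset.range n, Γ i η) ≤ τ
        nlinarith
    · rw [integral_undef hint]
      exact integral_nonneg fun _ => hτ
  rw [integral_const, probReal_univ, one_smul] at h1
  linarith

variable {d u : ℕ} {A : Matrix (Fin d) (Fin d) ℤ} {W : Matrix (Fin d) (Fin u) ℝ}
    {B B' : Matrix (Fin u) (Fin u) ℝ} {C κ c₀ : ℝ} {D₀ : ℕ}

/-- the average of the kernel of the hole over a cube -/
theorem G_avg (h : Expd A W B B' C κ c₀ D₀) {s r : ℝ} (hs : 0 < s) (hr : 0 < r) (hr4 : r ≤ 1 / 4)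
    (i₀ : Fin d) (i : ℕ) (x : Fin d → ℝ) :
    ∫ η, G r ((x + (W * B ^ i).mulVec η) i₀) ∂(Cu u (-s) s) ≤
      16 * r + 8 * r * C / (s * c₀) * κ ^ i := by
  have hκ := h.κ_pos
  have hC := h.C_ge
  have hc := h.c₀_pos
  have h1 := g_one h i one_pos (k := Pi.single i₀ 1) (by simp) (by
    intro j
    by_cases hj : j = i₀
    · subst hj; simp
    · simp [hj])
  rw [one_pow, mul_one] at h1
  obtain ⟨j, hj⟩ := exists_coord (by positivity) h1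
  have h2 : ∀ l, Matrix.vecMul (kR (Pi.single i₀ 1)) (W * B ^ i) l = (W * B ^ i) i₀ l := by
    intro l
    unfold Matrix.vecMul dotProduct kR
    rw [Finset.sum_eq_single i₀]
    · simp
    · intro b _ hb; simp [hb]
    · simp
  rw [h2] at hj
  have hj0 : 0 < |(W * B ^ i) i₀ j| := lt_of_lt_of_le (by positivity) hj
  have h3 := frac (u := u) (continuous_G r) (G_nonneg r) (G_periodic r) (a := x i₀) (s := s)
    (fun l => (W * B ^ i) i₀ l) j (abs_pos.1 hj0) hs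
  have h4 : ∀ η : Fin u → ℝ, (x + (W * B ^ i).mulVec η) i₀ = x i₀ + ∑ l, (W * B ^ i) i₀ l * η l :=
    fun η => rfl
  simp only [h4]
  refine h3.trans ?_
  have h5 : 1 / (2 * s * |(W * B ^ i) i₀ j|) ≤ C / (2 * s * c₀) * κ ^ i := by
    calc 1 / (2 * s * |(W * B ^ i) i₀ j|) ≤ 1 / (2 * s * (c₀ * (1 / κ) ^ i / C)) := by gcongr
      _ = C / (2 * s * c₀) * κ ^ i := by
        rw [one_div_pow]
        field_simp
  calc _ ≤ (1 + C / (2 * s * c₀) * κ ^ i) * (16 * r) := by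
        apply mul_le_mul _ (G_mean hr hr4) (G_mean_nonneg r) (by positivity)
        linarith
    _ = _ := by field_simp; ring

theorem sum_geo {κ : ℝ} (h0 : 0 < κ) (h1 : κ < 1) (n : ℕ) :
    ∑ i ∈ Finset.range n, κ ^ i ≤ 1 / (1 - κ) := by
  rw [geom_sum_eq h1.ne, ← neg_div_neg_eq, neg_sub, neg_sub]
  have : 0 < 1 - κ := by linarith
  gcongr
  linarith [pow_pos h0 n]

theorem final (h : Expd A W B B' C κ c₀ D₀) {N ℓ J : ℕ} {r s τ D D' : ℝ} (hs : 0 < s) (hr : 0 < r)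
    (hr4 : r ≤ 1 / 4) (hτ : 0 ≤ τ) (i₀ : Fin d) (hJ : J ≤ ℓ) (x : ℕ → Fin d → ℝ)
    (b : ℕ → Fin d → ℝ)
    (hx : ∀ j, 1 ≤ j → j ≤ J → x ℓ = (rM (A ^ j)).mulVec (x (ℓ - j)) + b j)
    (hR : ∑ j ∈ Finset.Icc 1 J, ∫ y, F d N ((rM (A ^ j)).mulVec y + b j) * G r (y i₀) ∂(Cu d 0 1) ≤
      aN N ^ d / 8)
    (hD : 0 < D) (hDN : d * N ≤ D) (hJ2 : 2 * (NG r * mW W) ≤ c₀ * (1 / κ) ^ J / (C * D ^ D₀))
    (hD' : 0 < D') (hD'N : ∀ j, 1 ≤ j → j ≤ J → mb (A ^ j) * (d * N) + NG r ≤ D')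
    (ha : 16 * r * ℓ + 8 * r * C / (s * c₀ * (1 - κ)) ≤ 1 / 4)
    (hc : (1 + 4 * ℓ) / ((c₀ * (1 / κ) ^ ℓ / (2 * C ^ 2 * D ^ D₀)) * s) +
      4 * J / ((c₀ * (1 / κ) ^ (ℓ - J) / (C * D' ^ D₀)) * s) ≤ aN N ^ d / 8)
    (hτ2 : τ < aN N ^ d / 2) :
    ∃ η : Fin u → ℝ, (∀ i, |η i| ≤ s) ∧ τ < F d N (x ℓ + (W * B ^ ℓ).mulVec η) ∧
      ∀ i < ℓ, G r ((x i + (W * B ^ i).mulVec η) i₀) < 1 := by
  have hκ := h.κ_pos
  have hκ1 := h.κ_lt
  have hC := h.C_ge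
  have hc0 := h.c₀_pos
  have hss : -s < s := by linarith
  have hβ : 1 ≤ 1 / κ := by rw [le_div_iff₀ hκ]; linarith
  have hI : 0 < aN N ^ d := pow_pos (aN_pos N) d
  obtain ⟨g₂, hg₂⟩ : ∃ g₂, g₂ = c₀ * (1 / κ) ^ ℓ / (2 * C ^ 2 * D ^ D₀) := ⟨_, rfl⟩
  obtain ⟨g₃, hg₃⟩ : ∃ g₃, g₃ = c₀ * (1 / κ) ^ (ℓ - J) / (C * D' ^ D₀) := ⟨_, rfl⟩
  have hg₂0 : 0 < g₂ := by rw [hg₂]; positivity
  have hg₃0 : 0 < g₃ := by rw [hg₃]; positivity
  rw [← hg₂, ← hg₃] at hc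
  apply exists_good (n := ℓ) (Φ := fun η => F d N (x ℓ + (W * B ^ ℓ).mulVec η))
    (Γ := fun i η => G r ((x i + (W * B ^ i).mulVec η) i₀)) hs hτ (fun η => F_nonneg _)
    (fun i η => G_nonneg _ _)
  -- the integral
  have hcF : Continuous fun η : Fin u → ℝ => F d N (x ℓ + (W * B ^ ℓ).mulVec η) :=
    (continuous_F d N).comp (cont_aff _ _)
  have hcG : ∀ i, Continuous fun η : Fin u → ℝ => G r ((x i + (W * B ^ i).mulVec η) i₀) :=
    fun i => (continuous_G r).comp (cont_aff_i _ _ _)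
  have e1 : ∫ η, F d N (x ℓ + (W * B ^ ℓ).mulVec η) *
      (1 - ∑ i ∈ Finset.range ℓ, G r ((x i + (W * B ^ i).mulVec η) i₀)) ∂(Cu u (-s) s) =
      (∫ η, F d N (x ℓ + (W * B ^ ℓ).mulVec η) ∂(Cu u (-s) s)) -
      ∑ i ∈ Finset.range ℓ, ∫ η, F d N (x ℓ + (W * B ^ ℓ).mulVec η) *
        G r ((x i + (W * B ^ i).mulVec η) i₀) ∂(Cu u (-s) s) := by
    have hi1 := integrable_Cu hss hcF
    have hi2 : ∀ i ∈ Finset.range ℓ, Integrable (fun η : Fin u → ℝ =>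
        F d N (x ℓ + (W * B ^ ℓ).mulVec η) * G r ((x i + (W * B ^ i).mulVec η) i₀))
        (Cu u (-s) s) := fun i _ => integrable_Cu hss (hcF.mul (hcG i))
    rw [← integral_finsetSum _ hi2, ← integral_sub hi1 (integrable_finsetSum _ hi2)]
    congr 1
    ext η
    rw [mul_sub, mul_one, Finset.mul_sum]
  rw [e1]
  have hDN' : ∀ k : Fin d → ℤ, (∀ i, |(k i : ℝ)| ≤ d * N) → ∀ i, |(k i : ℝ)| ≤ D :=
    fun k hk i => (hk i).trans hDN
  -- first term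
  have t1 : aN N ^ d - 1 / (g₂ * s) ≤
      ∫ η, F d N (x ℓ + (W * B ^ ℓ).mulVec η) ∂(Cu u (-s) s) := by
    have := F_eq (N := N) hs hg₂0 (W * B ^ ℓ) (x ℓ) (by
      intro k hk hkD
      have h1 := g_one h ℓ hD hk (hDN' k hkD)
      refine le_trans ?_ h1
      rw [hg₂]
      apply div_le_div_of_nonneg_left (by positivity) (by positivity)
      have hDp : 0 < D ^ D₀ := by positivity
      have : C ≤ 2 * C ^ 2 := by nlinarith
      gcongr)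
    linarith [(abs_le.1 this).1]
  -- middle terms
  have t2 : ∀ i ∈ Finset.range (ℓ - J), ∫ η, F d N (x ℓ + (W * B ^ ℓ).mulVec η) *
        G r ((x i + (W * B ^ i).mulVec η) i₀) ∂(Cu u (-s) s) ≤
      aN N ^ d * (16 * r + 8 * r * C / (s * c₀) * κ ^ i) + 4 / (g₂ * s) := by
    intro i hi
    rw [Finset.mem_range] at hi
    have h1 := FG_eq2 (N := N) (r := r) hs hg₂0 i₀ (W * B ^ ℓ) (W * B ^ i) (x ℓ) (x i) (by
      intro k hk hkD k' hkD'
      have h2 := g_two h i (ℓ - i) hD (Nat.cast_nonneg (NG r)) (by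
        refine hJ2.trans ?_
        have : (1 / κ) ^ J ≤ (1 / κ) ^ (ℓ - i) := pow_le_pow_right₀ hβ (by omega)
        gcongr) hk (hDN' k hkD) hkD'
      rw [show i + (ℓ - i) = ℓ by omega] at h2
      rw [hg₂]
      exact h2)
    have h2 := G_avg h hs hr hr4 i₀ i (x i)
    have h3 := (abs_le.1 h1).2
    have h4 := mul_le_mul_of_nonneg_left h2 hI.le
    linarith
  -- late terms
  have t3 : ∀ j ∈ Finset.Icc 1 J, ∫ η, F d N (x ℓ + (W * B ^ ℓ).mulVec η) *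
        G r ((x (ℓ - j) + (W * B ^ (ℓ - j)).mulVec η) i₀) ∂(Cu u (-s) s) ≤
      (∫ y, F d N ((rM (A ^ j)).mulVec y + b j) * G r (y i₀) ∂(Cu d 0 1)) + 4 / (g₃ * s) := by
    intro j hj
    rw [Finset.mem_Icc] at hj
    have h1 := FG_eq3 (N := N) (r := r) hs hg₃0 i₀ (W * B ^ (ℓ - j)) (x (ℓ - j)) (b j) (A ^ j)
      (hD'N j hj.1 hj.2) (by
      intro k hk hkD
      have h2 := g_one h (ℓ - j) hD' hk hkD
      refine le_trans ?_ h2
      rw [hg₃]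
      have : (1 / κ) ^ (ℓ - J) ≤ (1 / κ) ^ (ℓ - j) := pow_le_pow_right₀ hβ (by omega)
      gcongr)
    have h2 : ∀ η : Fin u → ℝ, (rM (A ^ j)).mulVec (x (ℓ - j) + (W * B ^ (ℓ - j)).mulVec η) + b j =
        x ℓ + (W * B ^ ℓ).mulVec η := by
      intro η
      rw [Matrix.mulVec_add, Matrix.mulVec_mulVec, ← Matrix.mul_assoc, A_W h, Matrix.mul_assoc,
        ← pow_add, show j + (ℓ - j) = ℓ by omega, hx j hj.1 hj.2]
      abel
    simp only [h2] at h1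
    linarith [(abs_le.1 h1).2]
  -- the sum
  have e2 : ∑ i ∈ Finset.range ℓ, ∫ η, F d N (x ℓ + (W * B ^ ℓ).mulVec η) *
        G r ((x i + (W * B ^ i).mulVec η) i₀) ∂(Cu u (-s) s) =
      ∑ i ∈ Finset.range (ℓ - J), ∫ η, F d N (x ℓ + (W * B ^ ℓ).mulVec η) *
        G r ((x i + (W * B ^ i).mulVec η) i₀) ∂(Cu u (-s) s) +
      ∑ j ∈ Finset.Icc 1 J, ∫ η, F d N (x ℓ + (W * B ^ ℓ).mulVec η) *
        G r ((x (ℓ - j) + (W * B ^ (ℓ - j)).mulVec η) i₀) ∂(Cu u (-s) s) := by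
    rw [← Finset.sum_range_add_sum_Ico _ (Nat.sub_le ℓ J)]
    congr 1
    apply Finset.sum_bij' (fun i _ => ℓ - i) (fun j _ => ℓ - j)
    · intro i hi
      rw [Finset.mem_Ico] at hi
      rw [Finset.mem_Icc]
      omega
    · intro j hj
      rw [Finset.mem_Icc] at hj
      rw [Finset.mem_Ico]
      omega
    · intro i hi
      rw [Finset.mem_Ico] at hi
      omega
    · intro j hj
      rw [Finset.mem_Icc] at hj
      omega
    · intro i hi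
      rw [Finset.mem_Ico] at hi
      rw [show ℓ - (ℓ - i) = i by omega]
  have t4 : ∑ i ∈ Finset.range (ℓ - J), (aN N ^ d * (16 * r + 8 * r * C / (s * c₀) * κ ^ i) +
      4 / (g₂ * s)) ≤ aN N ^ d * (1 / 4) + ℓ * (4 / (g₂ * s)) := by
    rw [Finset.sum_add_distrib, ← Finset.mul_sum, Finset.sum_add_distrib]
    simp only [Finset.sum_const, Finset.card_range, nsmul_eq_mul]
    rw [← Finset.mul_sum]
    have h1 := sum_geo hκ hκ1 (ℓ - J)
    have h2 : ((ℓ - J : ℕ) : ℝ) ≤ ℓ := by exact_mod_cast Nat.sub_le ℓ J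
    have h3 : ((ℓ - J : ℕ) : ℝ) * (16 * r) +
        8 * r * C / (s * c₀) * ∑ i ∈ Finset.range (ℓ - J), κ ^ i ≤ 1 / 4 := by
      refine le_trans ?_ ha
      have h4 : 8 * r * C / (s * c₀) * ∑ i ∈ Finset.range (ℓ - J), κ ^ i ≤
          8 * r * C / (s * c₀) * (1 / (1 - κ)) := by gcongr
      have h5 : 8 * r * C / (s * c₀) * (1 / (1 - κ)) = 8 * r * C / (s * c₀ * (1 - κ)) := by
        have : (1 - κ) ≠ 0 := by linarith
        field_simp
      rw [h5] at h4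
      nlinarith
    have h6 : ((ℓ - J : ℕ) : ℝ) * (4 / (g₂ * s)) ≤ ℓ * (4 / (g₂ * s)) := by gcongr
    have h7 := mul_le_mul_of_nonneg_left h3 hI.le
    linarith
  have t5 : ∑ j ∈ Finset.Icc 1 J, ((∫ y, F d N ((rM (A ^ j)).mulVec y + b j) * G r (y i₀)
      ∂(Cu d 0 1)) + 4 / (g₃ * s)) ≤ aN N ^ d / 8 + J * (4 / (g₃ * s)) := by
    rw [Finset.sum_add_distrib]
    simp only [Finset.sum_const, Nat.card_Icc, nsmul_eq_mul, add_tsub_cancel_right]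
    linarith
  have t6 := (Finset.sum_le_sum t2).trans t4
  have t7 := (Finset.sum_le_sum t3).trans t5
  rw [e2]
  have e3 : (1 + 4 * (ℓ:ℝ)) / (g₂ * s) = 1 / (g₂ * s) + ℓ * (4 / (g₂ * s)) := by ring
  have e4 : 4 * (J:ℝ) / (g₃ * s) = J * (4 / (g₃ * s)) := by ring
  rw [e3, e4] at hc
  linarith

end Pool.Agent.H71TB
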