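import Pool.Agent.H71TB.Char

/-!
# Averages of periodic functions over cubes
-/

set_option autoImplicit false

open MeasureTheory Set Filter
open scoped Topology ENNReal BigOperators Real

noncomputable section

namespace Pool.Agent.H71TB

theorem periodic_integral_le {g : ℝ → ℝ} (hc : Continuous g) (h0 : ∀ x, 0 ≤ g x)
    (hp : Function.Periodic g 1) {x L : ℝ} (hL : 0 ≤ L) :
    ∫ t in x..(x + L), g t ≤ (L + 1) * ∫ t in (0:ℝ)..1, g t := by
  have h1 : ∫ t in x..(x + ⌈L⌉₊), g t = ⌈L⌉₊ * ∫ t in (0:ℝ)..1, g t := by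
    have h := hp.intervalIntegral_add_zsmul_eq (⌈L⌉₊ : ℤ) x
      (fun _ _ => hc.intervalIntegrable _ _)
    have h2 := hp.intervalIntegral_add_eq x 0
    rw [zero_add] at h2
    rw [h2] at h
    simpa using h
  have h2 : ∫ t in x..(x + L), g t ≤ ∫ t in x..(x + ⌈L⌉₊), g t := by
    apply intervalIntegral.integral_mono_interval le_rfl (by linarith)
      (by linarith [Nat.le_ceil L])
    · exact Eventually.of_forall h0
    · exact hc.intervalIntegrable _ _
  have h3 : 0 ≤ ∫ t in (0:ℝ)..1, g t :=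
    intervalIntegral.integral_nonneg zero_le_one fun t _ => h0 t
  calc _ ≤ _ := h2
    _ = _ := h1
    _ ≤ _ := by
      gcongr
      exact (Nat.ceil_lt_add_one hL).le

theorem frac1 {g : ℝ → ℝ} (hc : Continuous g) (h0 : ∀ x, 0 ≤ g x)
    (hp : Function.Periodic g 1) {a c s : ℝ} (hcc : c ≠ 0) (hs : 0 < s) :
    ∫ x, g (a + c * x) ∂(U (-s) s) ≤ (1 + 1 / (2 * s * |c|)) * ∫ t in (0:ℝ)..1, g t := by
  have hc0 : 0 < |c| := abs_pos.2 hcc
  have h1 : ∫ x in (-s)..s, g (a + c * x) = |c|⁻¹ * ∫ t in (a - |c| * s)..(a - |c| * s + 2 * s * |c|),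
      g t := by
    rw [intervalIntegral.integral_comp_add_mul g hcc a, smul_eq_mul]
    rcases lt_or_gt_of_ne hcc with h | h
    · rw [abs_of_neg h, intervalIntegral.integral_symm]
      rw [show a + c * s = a - -c * s by ring, show a + c * -s = a - -c * s + 2 * s * -c by ring]
      rw [inv_neg]
      ring
    · rw [abs_of_pos h]
      rw [show a + c * s = a - c * s + 2 * s * c by ring, show a + c * -s = a - c * s by ring]
  have h2 := periodic_integral_le hc h0 hp (x := a - |c| * s) (L := 2 * s * |c|) (by positivity)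
  rw [integral_U (by linarith), h1, smul_eq_mul, show s - -s = 2 * s by ring]
  calc (2 * s)⁻¹ * (|c|⁻¹ * ∫ t in (a - |c| * s)..(a - |c| * s + 2 * s * |c|), g t)
      ≤ (2 * s)⁻¹ * (|c|⁻¹ * ((2 * s * |c| + 1) * ∫ t in (0:ℝ)..1, g t)) := by gcongr
    _ = _ := by field_simp

/-- it suffices to average over one of the coordinates -/
theorem lintegral_Cu_le {u : ℕ} {a b : ℝ} (h : a < b) (j : Fin u) {f : (Fin u → ℝ) → ℝ≥0∞}
    (hf : Measurable f) {M : ℝ≥0∞}
    (hM : ∀ x : Fin u → ℝ, ∫⁻ t, f (Function.update x j t) ∂(U a b) ≤ M) :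
    ∫⁻ x, f x ∂(Cu u a b) ≤ M := by
  classical
  have := U_prob h
  unfold Cu
  rw [lintegral_eq_lmarginal_univ (fun _ => (0:ℝ)), lmarginal_erase' _ hf (Finset.mem_univ j)]
  refine (lmarginal_mono (g := fun _ => M) (fun x => hM x) _).trans ?_
  rw [lmarginal]
  simp

theorem integral_Cu_le {u : ℕ} {a b : ℝ} (h : a < b) (j : Fin u) {f : (Fin u → ℝ) → ℝ}
    (hf : Continuous f) (h0 : ∀ x, 0 ≤ f x) {M : ℝ}
    (hM : ∀ x : Fin u → ℝ, ∫ t, f (Function.update x j t) ∂(U a b) ≤ M)
    (hi : ∀ x : Fin u → ℝ, Integrable (fun t => f (Function.update x j t)) (U a b)) :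
    ∫ x, f x ∂(Cu u a b) ≤ M := by
  have hM0 : 0 ≤ M := (integral_nonneg fun t => h0 _).trans (hM fun _ => 0)
  rw [integral_eq_lintegral_of_nonneg_ae (Eventually.of_forall h0) hf.aestronglyMeasurable]
  apply ENNReal.toReal_le_of_le_ofReal hM0
  apply lintegral_Cu_le h j (hf.measurable.ennreal_ofReal)
  intro x
  rw [← ofReal_integral_eq_lintegral_ofReal (hi x) (Eventually.of_forall fun t => h0 _)]
  exact ENNReal.ofReal_le_ofReal (hM x)

theorem integrable_U {a b : ℝ} (h : a < b) {E : Type*} [NormedAddCommGroup E] {f : ℝ → E}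
    (hf : Continuous f) : Integrable f (U a b) := by
  unfold U
  apply Integrable.smul_measure
  · exact (hf.integrableOn_Icc (a := a) (b := b)).mono_set Ioc_subset_Icc_self
  · simp [h]

/-- continuous functions are integrable over cubes -/
theorem integrable_Cu {u : ℕ} {a b : ℝ} (h : a < b) {E : Type*} [NormedAddCommGroup E]
    [SecondCountableTopology E]
    {f : (Fin u → ℝ) → E} (hf : Continuous f) : Integrable f (Cu u a b) := by
  have := Cu_prob (u := u) h
  obtain ⟨C, hC⟩ := (isCompact_univ_pi (fun _ : Fin u => isCompact_Icc (a := a) (b := b))).exists_bound_of_continuousOn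
    hf.continuousOn
  refine Integrable.of_bound hf.aestronglyMeasurable C ?_
  filter_upwards [Cu_ae (u := u) h] with x hx
  exact hC x fun i _ => Ioc_subset_Icc_self (hx i)

/-- the average of a periodic function of a linear form over a cube -/
theorem frac {u : ℕ} {g : ℝ → ℝ} (hc : Continuous g) (h0 : ∀ x, 0 ≤ g x)
    (hp : Function.Periodic g 1) {a s : ℝ} (c : Fin u → ℝ) (j : Fin u) (hcc : c j ≠ 0)
    (hs : 0 < s) :
    ∫ x, g (a + ∑ i, c i * x i) ∂(Cu u (-s) s) ≤
      (1 + 1 / (2 * s * |c j|)) * ∫ t in (0:ℝ)..1, g t := by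
  classical
  have hss : -s < s := by linarith
  apply integral_Cu_le hss j (f := fun x => g (a + ∑ i, c i * x i)) (by fun_prop)
    (fun x => h0 _)
  · intro x
    have h1 : ∀ t : ℝ, a + ∑ i, c i * Function.update x j t i =
        (a + ∑ i ∈ Finset.univ.erase j, c i * x i) + c j * t := by
      intro t
      rw [← Finset.add_sum_erase _ _ (Finset.mem_univ j), Function.update_self]
      have : ∑ i ∈ Finset.univ.erase j, c i * Function.update x j t i =
          ∑ i ∈ Finset.univ.erase j, c i * x i := by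
        apply Finset.sum_congr rfl
        intro i hi
        rw [Function.update_of_ne (Finset.ne_of_mem_erase hi)]
      rw [this]
      ring
    simp only [h1]
    exact frac1 hc h0 hp hcc hs
  · intro x
    apply integrable_U hss
    fun_prop

end Pool.Agent.H71TB
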