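import Pool.Agent.H71TB.TP

/-!
# The kernels `cos(πx)^(2N)`
-/

set_option autoImplicit false

open MeasureTheory Set Filter
open scoped Topology ENNReal BigOperators Real

noncomputable section

namespace Pool.Agent.H71TB

/-- `cos² (πt)` -/
def q (t : ℝ) : ℝ := Real.cos (π * t) ^ 2

theorem q_nonneg (t : ℝ) : 0 ≤ q t := sq_nonneg _

theorem q_le_one (t : ℝ) : q t ≤ 1 := by
  unfold q
  have := Real.sin_sq_add_cos_sq (π * t)
  nlinarith [sq_nonneg (Real.sin (π * t))]

theorem q_eq (t : ℝ) : q t = 1 - Real.sin (π * t) ^ 2 := by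
  unfold q
  have := Real.sin_sq_add_cos_sq (π * t)
  linarith

theorem continuous_q : Continuous q := by unfold q; fun_prop

theorem q_eq' (t : ℝ) : q t = (1 + Real.cos (2 * π * t)) / 2 := by
  unfold q
  rw [Real.cos_sq]
  ring_nf

theorem q_sub_int (t : ℝ) (l : ℤ) : q (t - l) = q t := by
  rw [q_eq', q_eq']
  rw [show 2 * π * (t - l) = 2 * π * t - l * (2 * π) by ring, Real.cos_sub_int_mul_two_pi]

theorem q_periodic : Function.Periodic q 1 := by
  intro t
  have := q_sub_int (t + 1) 1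
  rw [← this]
  congr 1
  push_cast
  ring

theorem TP_q {d : ℕ} (i : Fin d) : TP (d := d) 1 1 fun x => ((q (x i) : ℝ) : ℂ) := by
  classical
  refine ⟨Fin 3, Finset.univ, ![0, Pi.single i 1, -Pi.single i 1], ![1/2, 1/4, 1/4], ?_, ?_, ?_⟩
  · intro a _ j
    fin_cases a
    · simp
    · by_cases h : j = i
      · subst h; simp
      · simp [h]
    · by_cases h : j = i
      · subst h; simp
      · simp [h]
  · simp [Fin.sum_univ_three]
    norm_num
  · intro x
    have h1 : dot (Pi.single i (1:ℤ)) x = x i := by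
      unfold dot
      rw [Finset.sum_eq_single i]
      · simp
      · intro j _ hj; simp [hj]
      · simp
    have h2 : dot (-Pi.single i (1:ℤ)) x = - x i := by
      rw [← h1]
      simp [dot]
    rw [Fin.sum_univ_three]
    simp only [Matrix.cons_val_zero, Matrix.cons_val_one, Matrix.cons_val, zero_dot, h1, h2, e_zero]
    rw [q_eq']
    unfold e
    push_cast
    rw [Complex.cos]
    have e1 : (2 * (π:ℂ) * (x i) * Complex.I) = (2 * π * (x i)) * Complex.I := by ring
    have e2 : (2 * (π:ℂ) * (-(x i:ℂ)) * Complex.I) = -(2 * π * (x i)) * Complex.I := by ring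
    rw [e2]
    ring

/-- the mean of `q ^ N` -/
def aN (N : ℕ) : ℝ := ∫ t in (0:ℝ)..1, q t ^ N

theorem aN_eq (N : ℕ) : aN N = π⁻¹ * ∫ x in (0:ℝ)..π, Real.cos x ^ (2 * N) := by
  unfold aN q
  have h := intervalIntegral.integral_comp_mul_left (a := 0) (b := 1)
    (fun x => Real.cos x ^ (2 * N)) Real.pi_ne_zero
  simp only [mul_zero, mul_one, smul_eq_mul] at h
  rw [← h]
  congr 1
  ext t
  rw [pow_mul]

theorem aN_zero : aN 0 = 1 := by simp [aN]

theorem aN_succ (N : ℕ) : aN (N + 1) = (2 * N + 1) / (2 * N + 2) * aN N := by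
  rw [aN_eq, aN_eq, show 2 * (N + 1) = 2 * N + 2 by ring, integral_cos_pow]
  simp only [Real.sin_pi, Real.sin_zero, mul_zero, sub_self, zero_div, zero_add]
  push_cast
  ring

theorem aN_pos (N : ℕ) : 0 < aN N := by
  induction N with
  | zero => rw [aN_zero]; exact one_pos
  | succ N ih => rw [aN_succ]; positivity

theorem aN_sq (N : ℕ) : aN N ^ 2 * (2 * N + 1) ≤ 1 := by
  induction N with
  | zero => simp [aN_zero]
  | succ N ih =>
    rw [aN_succ]
    refine le_trans ?_ ih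
    have h1 : ((2 * (N:ℝ) + 1) / (2 * N + 2) * aN N) ^ 2 * (2 * ((N + 1 : ℕ) : ℝ) + 1) =
        (aN N ^ 2 * (2 * N + 1)) * ((2 * N + 1) * (2 * N + 3) / (2 * N + 2) ^ 2) := by
      push_cast
      field_simp
      ring
    rw [h1]
    have h2 : (2 * (N:ℝ) + 1) * (2 * N + 3) / (2 * N + 2) ^ 2 ≤ 1 := by
      rw [div_le_one (by positivity)]
      nlinarith
    calc _ ≤ (aN N ^ 2 * (2 * N + 1)) * 1 := by
          refine mul_le_mul_of_nonneg_left h2 ?_
          positivity
      _ = _ := mul_one _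

theorem aN_lower (N : ℕ) : 1 / (2 * N + 1) ≤ aN N := by
  induction N with
  | zero => simp [aN_zero]
  | succ N ih =>
    rw [aN_succ]
    push_cast
    calc 1 / (2 * ((N:ℝ) + 1) + 1) ≤ (2 * N + 1) / (2 * N + 2) * (1 / (2 * N + 1)) := by
          rw [div_mul_div_comm, div_le_div_iff₀ (by positivity) (by positivity)]
          nlinarith
      _ ≤ _ := by gcongr

/-- the kernel of the holes of radius `r` -/
def NG (r : ℝ) : ℕ := ⌊1 / (16 * r ^ 2)⌋₊

def G (r : ℝ) (t : ℝ) : ℝ := 4 * q t ^ NG r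

theorem continuous_G (r : ℝ) : Continuous (G r) := by
  unfold G
  exact continuous_const.mul (continuous_q.pow _)

theorem G_nonneg (r t : ℝ) : 0 ≤ G r t := mul_nonneg (by norm_num) (pow_nonneg (q_nonneg t) _)

theorem G_periodic (r : ℝ) : Function.Periodic (G r) 1 := fun t => by
  unfold G
  rw [q_periodic t]

theorem G_large {r t : ℝ} (hr : 0 < r) (hr4 : r ≤ 1 / 4) {l : ℤ} (h : |t - l| ≤ r) : 1 ≤ G r t := by
  unfold G
  rw [← q_sub_int t l, q_eq]
  have hpi := Real.pi_gt_three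
  have hpi' := Real.pi_lt_d2
  have h1 : Real.sin (π * (t - l)) ^ 2 ≤ π ^ 2 * r ^ 2 := by
    have h2 : |Real.sin (π * (t - l))| ≤ |π * (t - l)| := Real.abs_sin_le_abs
    have h3 : |π * (t - l)| ≤ π * r := by
      rw [abs_mul, abs_of_pos (by linarith)]
      gcongr
    calc Real.sin (π * (t - l)) ^ 2 = |Real.sin (π * (t - l))| ^ 2 := (sq_abs _).symm
      _ ≤ (π * r) ^ 2 := by gcongr; exact h2.trans h3
      _ = _ := by ring
  have h4 : π ^ 2 * r ^ 2 ≤ 1 := by
    have : r ^ 2 ≤ 1 / 16 := by nlinarith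
    have hp : π ^ 2 ≤ 10 := by nlinarith
    nlinarith [sq_nonneg r, sq_nonneg π]
  have h5 : (1 - π ^ 2 * r ^ 2) ^ NG r ≤ (1 - Real.sin (π * (t - l)) ^ 2) ^ NG r := by
    apply pow_le_pow_left₀
    · linarith
    · linarith
  have h6 : 1 + (NG r : ℝ) * (-(π ^ 2 * r ^ 2)) ≤ (1 + -(π ^ 2 * r ^ 2)) ^ NG r :=
    one_add_mul_le_pow (by linarith) _
  have h7 : (NG r : ℝ) ≤ 1 / (16 * r ^ 2) := Nat.floor_le (by positivity)
  have h8 : (NG r : ℝ) * (π ^ 2 * r ^ 2) ≤ 3 / 4 := by
    calc (NG r : ℝ) * (π ^ 2 * r ^ 2) ≤ 1 / (16 * r ^ 2) * (π ^ 2 * r ^ 2) := by gcongr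
      _ = π ^ 2 / 16 := by field_simp
      _ ≤ 3 / 4 := by nlinarith
  have h9 : (1 + -(π ^ 2 * r ^ 2)) ^ NG r = (1 - π ^ 2 * r ^ 2) ^ NG r := by ring_nf
  rw [h9] at h6
  linarith

theorem G_mean {r : ℝ} (hr : 0 < r) (hr4 : r ≤ 1 / 4) : ∫ t in (0:ℝ)..1, G r t ≤ 16 * r := by
  have h1 : ∫ t in (0:ℝ)..1, G r t = 4 * aN (NG r) := by
    unfold G aN
    rw [intervalIntegral.integral_const_mul]
  rw [h1]
  have h2 := aN_sq (NG r)
  have h3 : 1 / (16 * r ^ 2) < NG r + 1 := Nat.lt_floor_add_one _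
  have h4 := aN_pos (NG r)
  have h5 : 1 / (16 * r ^ 2) ≤ 2 * (NG r : ℝ) + 1 := by
    have : 1 ≤ 1 / (16 * r ^ 2) := by
      rw [le_div_iff₀ (by positivity)]
      nlinarith
    linarith
  have h6 : aN (NG r) ^ 2 ≤ (4 * r) ^ 2 := by
    have h7 : aN (NG r) ^ 2 * (1 / (16 * r ^ 2)) ≤ 1 := by
      refine le_trans ?_ h2
      gcongr
    rw [mul_one_div, div_le_one (by positivity)] at h7
    linarith
  have h8 : aN (NG r) ≤ 4 * r := by
    exact (pow_le_pow_iff_left₀ h4.le (by positivity) two_ne_zero).1 h6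
  linarith

theorem G_mean_nonneg (r : ℝ) : 0 ≤ ∫ t in (0:ℝ)..1, G r t :=
  intervalIntegral.integral_nonneg zero_le_one fun t _ => G_nonneg r t

theorem TP_G {d : ℕ} (i : Fin d) (r : ℝ) : TP (d := d) (NG r) 4 fun x => ((G r (x i) : ℝ) : ℂ) := by
  refine ((((TP_q i).pow (NG r)).const_mul 4).mono (by simp) (by simp)).congr ?_
  intro x
  unfold G
  push_cast
  ring

/-- the kernel of the target -/
def F (d N : ℕ) (x : Fin d → ℝ) : ℝ := ∏ i, q (x i) ^ N

theorem F_nonneg {d N : ℕ} (x : Fin d → ℝ) : 0 ≤ F d N x :=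
  Finset.prod_nonneg fun i _ => pow_nonneg (q_nonneg _) _

theorem F_le_one {d N : ℕ} (x : Fin d → ℝ) : F d N x ≤ 1 :=
  Finset.prod_le_one (fun i _ => pow_nonneg (q_nonneg _) _) fun _ _ => pow_le_one₀ (q_nonneg _) (q_le_one _)

theorem continuous_F (d N : ℕ) : Continuous (F d N) := by
  unfold F
  exact continuous_finsetProd _ fun i _ => ((continuous_q.comp (continuous_apply i)).pow _)

theorem TP_F (d N : ℕ) : TP (d := d) (d * N) 1 fun x => ((F d N x : ℝ) : ℂ) := by
  have h := TP.prod (d := d) (D := N * 1) (S := 1 ^ N) (Finset.univ : Finset (Fin d))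
    (Θ := fun i x => ((q (x i) : ℝ) : ℂ) ^ N) (fun i _ => (TP_q i).pow N)
  refine (h.mono (le_of_eq ?_) (le_of_eq ?_)).congr ?_
  · simp
  · simp
  · intro x
    unfold F
    push_cast
    rfl

theorem F_mean (d N : ℕ) : ∫ x, F d N x ∂(Cu d 0 1) = aN N ^ d := by
  have := U_prob (a := 0) (b := 1) zero_lt_one
  unfold F Cu
  rw [integral_fintype_prod_eq_prod (fun _ => fun t => q t ^ N)]
  simp only [integral_U zero_lt_one]
  simp [aN]

theorem F_close {d N : ℕ} {η : ℝ} (h0 : 0 < η) (h1 : η ≤ 1) {x : Fin d → ℝ}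
    (h : (1 - η ^ 2) ^ N < F d N x) : ∃ l : Fin d → ℤ, ∀ i, |x i - l i| < η / 2 := by
  refine ⟨fun i => round (x i), fun i => ?_⟩
  have h2 : F d N x ≤ q (x i) ^ N := by
    unfold F
    rw [← Finset.mul_prod_erase _ _ (Finset.mem_univ i)]
    have : ∏ j ∈ Finset.univ.erase i, q (x j) ^ N ≤ 1 :=
      Finset.prod_le_one (fun i _ => pow_nonneg (q_nonneg _) _)
        fun _ _ => pow_le_one₀ (q_nonneg _) (q_le_one _)
    calc _ ≤ q (x i) ^ N * 1 := by
          gcongr
          exact pow_nonneg (q_nonneg _) _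
      _ = _ := mul_one _
  have h3 : 1 - η ^ 2 < q (x i) := by
    by_contra hcon
    push Not at hcon
    have := pow_le_pow_left₀ (q_nonneg (x i)) hcon N
    linarith
  rw [← q_sub_int (x i) (round (x i)), q_eq] at h3
  have h4 : |x i - round (x i)| ≤ 1 / 2 := abs_sub_round (x i)
  have hpi := Real.pi_pos
  have h5 : 2 * |x i - round (x i)| ≤ Real.sin (π * |x i - round (x i)|) := by
    have := Real.mul_le_sin (x := π * |x i - round (x i)|) (by positivity) (by nlinarith)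
    calc 2 * |x i - round (x i)| = 2 / π * (π * |x i - round (x i)|) := by field_simp
      _ ≤ _ := this
  have h6 : Real.sin (π * |x i - round (x i)|) ^ 2 = Real.sin (π * (x i - round (x i))) ^ 2 := by
    rcases abs_choice (x i - round (x i)) with h | h
    · rw [h]
    · rw [h, mul_neg, Real.sin_neg, neg_sq]
  have h7 : (2 * |x i - round (x i)|) ^ 2 < η ^ 2 := by
    calc (2 * |x i - round (x i)|) ^ 2 ≤ Real.sin (π * |x i - round (x i)|) ^ 2 := by gcongr
      _ < η ^ 2 := by rw [h6]; linarith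
  have h8 := lt_of_pow_lt_pow_left₀ 2 h0.le h7
  linarith

end Pool.Agent.H71TB
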