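import Pool.Agent.H71TB.Alg4

/-!
# Integer matrices with an eigenvalue outside of the unit disc have ergodic restrictions
-/

set_option autoImplicit false

open Polynomial Filter
open scoped BigOperators Topology

noncomputable section

namespace Pool.Agent.H71TB

theorem aeval_mulVec {d : ℕ} {K : Type*} [CommRing K] (a : Matrix (Fin d) (Fin d) K)
    {w : Fin d → K} {μ : K} (h : a.mulVec w = μ • w) (f : K[X]) :
    (aeval a f).mulVec w = f.eval μ • w := by
  induction f using Polynomial.induction_on' with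
  | add p q hp hq => rw [map_add, Matrix.add_mulVec, hp, hq, eval_add, add_smul]
  | monomial n c =>
    have h1 : ∀ n : ℕ, (a ^ n).mulVec w = μ ^ n • w := by
      intro n
      induction n with
      | zero => simp
      | succ n ih =>
        rw [pow_succ, ← Matrix.mulVec_mulVec, h, Matrix.mulVec_smul, ih, smul_smul, pow_succ,
          mul_comm]
    rw [aeval_monomial, eval_monomial, ← Matrix.mulVec_mulVec, h1, Matrix.mulVec_smul,
      Algebra.algebraMap_eq_smul_one, Matrix.smul_mulVec, Matrix.one_mulVec, smul_smul,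
      mul_comm c]

/-- integer vectors which are linearly independent over `ℤ` are so over `ℝ` -/
theorem linInd_real {d e : ℕ} {b : Fin e → Fin d → ℤ} (hb : LinearIndependent ℤ b)
    (a : Fin e → ℝ) (ha : ∀ i, ∑ j, a j * (b j i : ℝ) = 0) : a = 0 := by
  have h1 : LinearIndependent ℚ (fun j => fun i => ((b j i : ℤ) : ℚ)) := by
    rw [← LinearIndependent.iff_fractionRing ℤ ℚ]
    have h2 : (fun j => fun i => ((b j i : ℤ) : ℚ)) =
        ((Int.castAddHom ℚ).toIntLinearMap.compLeft (Fin d)) ∘ b := by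
      funext j i
      rfl
    rw [h2]
    refine hb.map' _ ?_
    rw [LinearMap.ker_eq_bot]
    intro x y hxy
    funext i
    have := congrFun hxy i
    exact Int.cast_injective (α := ℚ) this
  have h3 : ∀ φ : ℝ →ₗ[ℚ] ℚ, ∀ j, φ (a j) = 0 := by
    intro φ
    apply Fintype.linearIndependent_iff.1 h1
    funext i
    have h4 := congrArg φ (ha i)
    rw [map_sum, map_zero] at h4
    rw [Finset.sum_apply, Pi.zero_apply, ← h4]
    refine Finset.sum_congr rfl fun j _ => ?_
    have h5 : a j * (b j i : ℝ) = ((b j i : ℤ) : ℚ) • a j := by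
      rw [Rat.smul_def]
      push_cast
      ring
    rw [h5, map_smul, smul_eq_mul]
    simp [mul_comm]
  funext j
  exact (Module.forall_dual_apply_eq_zero_iff ℚ (a j)).1 fun φ => h3 φ j

/-- The matrix `A` preserves a subtorus on which it is ergodic. -/
theorem sub_erg {d : ℕ} (A : Matrix (Fin d) (Fin d) ℤ) {μ : ℂ} (hμ : 1 < ‖μ‖)
    (hev : ∃ w : Fin d → ℂ, w ≠ 0 ∧ ∀ i, ∑ j, (A i j : ℂ) * w j = μ * w i) :
    ∃ (e : ℕ) (M : Matrix (Fin d) (Fin e) ℤ) (A' : Matrix (Fin e) (Fin e) ℤ), 0 < e ∧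
      A * M = M * A' ∧
      (∀ a : Fin e → ℝ, (∀ i, ∃ m : ℤ, ∑ j, (M i j : ℝ) * a j = m) → ∀ j, ∃ m : ℤ, a j = m) ∧
      ∀ n : ℕ, 1 ≤ n → (A' ^ n - 1).det ≠ 0 := by
  obtain ⟨w, hw0, hw⟩ := hev
  obtain ⟨aC, haC⟩ : ∃ aC : Matrix (Fin d) (Fin d) ℂ, aC = A.map (Int.castRingHom ℂ) := ⟨_, rfl⟩
  have hw' : aC.mulVec w = μ • w := by
    funext i
    rw [haC]
    exact hw i
  -- `μ` is an algebraic integer
  have hint : IsIntegral ℤ μ := by
    refine ⟨A.charpoly, Matrix.charpoly_monic A, ?_⟩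
    have h1 : (Matrix.scalar (Fin d) μ - aC).det = 0 := by
      apply Matrix.exists_mulVec_eq_zero_iff.1
      refine ⟨w, hw0, ?_⟩
      rw [Matrix.sub_mulVec, hw', sub_eq_zero]
      simp [Matrix.scalar_apply, ← Matrix.smul_one_eq_diagonal, Matrix.smul_mulVec]
    rw [← Matrix.eval_charpoly, haC, Matrix.charpoly_map, eval_map] at h1
    exact h1
  obtain ⟨p, hp⟩ : ∃ p, p = minpoly ℤ μ := ⟨_, rfl⟩
  have hpμ : aeval μ p = 0 := by rw [hp]; exact minpoly.aeval ℤ μ
  have hq : minpoly ℚ μ = p.map (algebraMap ℤ ℚ) := by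
    rw [hp]; exact minpoly.isIntegrallyClosed_eq_field_fractions' ℚ hint
  have hirr : Irreducible (p.map (algebraMap ℤ ℚ)) := by
    rw [← hq]; exact minpoly.irreducible (hint.tower_top)
  -- the sublattice
  obtain ⟨pA, hpA⟩ : ∃ pA, pA = aeval A p := ⟨_, rfl⟩
  have hdet : pA.det = 0 := by
    have h1 : (pA.map (Int.castRingHom ℂ)).det = 0 := by
      apply Matrix.exists_mulVec_eq_zero_iff.1
      refine ⟨w, hw0, ?_⟩
      have h2 : pA.map (Int.castRingHom ℂ) = aeval aC (p.map (Int.castRingHom ℂ)) := by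
        have h3 : (Int.castRingHom ℂ) = algebraMap ℤ ℂ := rfl
        rw [hpA, haC, h3, aeval_map_algebraMap]
        have := aeval_algHom_apply ((Algebra.ofId ℤ ℂ).mapMatrix (m := Fin d)) A p
        rw [show (A.map (algebraMap ℤ ℂ)) = (Algebra.ofId ℤ ℂ).mapMatrix (m := Fin d) A from rfl,
          this]
        rfl
      rw [h2, aeval_mulVec aC hw']
      have h4 : (p.map (Int.castRingHom ℂ)).eval μ = 0 := by
        rw [eval_map]; exact hpμ
      rw [h4, zero_smul]
    rw [← RingHom.mapMatrix_apply, ← RingHom.map_det] at h1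
    simpa using h1
  obtain ⟨v, hv0, hv⟩ := Matrix.exists_mulVec_eq_zero_iff.2 hdet
  obtain ⟨L, hL⟩ : ∃ L : Submodule ℤ (Fin d → ℤ), ∀ x, x ∈ L ↔ pA.mulVec x = 0 :=
    ⟨LinearMap.ker (Matrix.mulVecLin pA), fun x => by rw [LinearMap.mem_ker]; rfl⟩
  obtain ⟨e, b⟩ := Submodule.basisOfPid (Pi.basisFun ℤ (Fin d)) L
  have he : 0 < e := by
    rcases Nat.eq_zero_or_pos e with h | h
    · exfalso
      subst h
      have h1 : (⟨v, (hL v).2 hv⟩ : L) = 0 := by
        rw [← b.sum_repr ⟨v, (hL v).2 hv⟩]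
        simp
      exact hv0 (congrArg Subtype.val h1)
    · exact h
  have hcomm : ∀ x ∈ L, A.mulVec x ∈ L := by
    intro x hx
    rw [hL] at hx ⊢
    have h1 : pA * A = A * pA := by
      have h2 : A = aeval A (X : ℤ[X]) := by rw [aeval_X]
      rw [hpA]
      conv_lhs => rw [h2]
      conv_rhs => rw [h2]
      simp only [aeval_X]
      have h3 : aeval A (p * X) = aeval A (X * p) := by rw [mul_comm]
      rwa [map_mul, map_mul, aeval_X] at h3
    rw [Matrix.mulVec_mulVec, h1, ← Matrix.mulVec_mulVec, hx, Matrix.mulVec_zero]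
  obtain ⟨bv, hbv⟩ : ∃ bv : Fin e → Fin d → ℤ, bv = fun j => (b j : Fin d → ℤ) := ⟨_, rfl⟩
  have hbi : LinearIndependent ℤ bv := by
    rw [hbv]
    exact b.linearIndependent.map' L.subtype (Submodule.ker_subtype L)
  have hbL : ∀ j, bv j ∈ L := fun j => by rw [hbv]; exact (b j).2
  have hrep : ∀ x ∈ L, ∃ m : Fin e → ℤ, x = ∑ j, m j • bv j := by
    intro x hx
    refine ⟨fun j => b.repr ⟨x, hx⟩ j, ?_⟩
    have h1 : x = ((∑ j, b.repr ⟨x, hx⟩ j • b j : L) : Fin d → ℤ) := by rw [b.sum_repr]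
    rw [hbv]
    conv_lhs => rw [h1]
    rw [← Submodule.subtype_apply, map_sum]
    rfl
  choose! m hm using hrep
  obtain ⟨M, hM⟩ : ∃ M : Matrix (Fin d) (Fin e) ℤ, ∀ i j, M i j = bv j i :=
    ⟨Matrix.of fun i j => bv j i, fun i j => rfl⟩
  obtain ⟨A', hA'⟩ : ∃ A' : Matrix (Fin e) (Fin e) ℤ, ∀ l j, A' l j = m (A.mulVec (bv j)) l :=
    ⟨Matrix.of fun l j => m (A.mulVec (bv j)) l, fun l j => rfl⟩
  have hMv : ∀ x : Fin e → ℤ, M.mulVec x = ∑ j, x j • bv j := by
    intro x
    funext i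
    rw [Finset.sum_apply]
    show ∑ j, M i j * x j = _
    refine Finset.sum_congr rfl fun j _ => ?_
    rw [hM, Pi.smul_apply, smul_eq_mul, mul_comm]
  have hAM : A * M = M * A' := by
    ext i j
    have h1 := congrFun (hm _ (hcomm _ (hbL j))) i
    rw [Matrix.mul_apply, Matrix.mul_apply]
    have h2 : (A.mulVec (bv j)) i = ∑ l, A i l * M l j := by
      show ∑ l, A i l * bv j l = _
      refine Finset.sum_congr rfl fun l _ => by rw [hM]
    rw [← h2, h1, Finset.sum_apply]
    refine Finset.sum_congr rfl fun l _ => ?_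
    rw [hM, hA', Pi.smul_apply, smul_eq_mul, mul_comm]
  have hML : ∀ x : Fin e → ℤ, M.mulVec x ∈ L := fun x => by
    rw [hMv]
    exact Submodule.sum_mem _ fun j _ => Submodule.smul_mem _ _ (hbL j)
  refine ⟨e, M, A', he, hAM, ?_, ?_⟩
  · -- saturation
    intro a ha
    choose y hy using ha
    have hyL : y ∈ L := by
      rw [hL]
      have h0 : pA * M = 0 := by
        ext i j
        have := congrFun ((hL _).1 (hbL j)) i
        rw [Matrix.mul_apply, Matrix.zero_apply]
        rw [← show (pA.mulVec (bv j)) i = 0 from this]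
        show _ = ∑ l, pA i l * bv j l
        refine Finset.sum_congr rfl fun l _ => by rw [hM]
      funext i
      have h1 : ((pA.mulVec y i : ℤ) : ℝ) = 0 := by
        show ((∑ l, pA i l * y l : ℤ) : ℝ) = 0
        push_cast
        simp_rw [← hy, Finset.mul_sum]
        rw [Finset.sum_comm]
        apply Finset.sum_eq_zero
        intro j _
        have h2 : ∑ l, (pA i l : ℝ) * ((M l j : ℝ) * a j) = (((pA * M) i j : ℤ) : ℝ) * a j := by
          rw [Matrix.mul_apply]
          push_cast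
          rw [Finset.sum_mul]
          refine Finset.sum_congr rfl fun l _ => by ring
        rw [h2, h0]
        simp
      exact_mod_cast h1
    have h1 := hm y hyL
    have h2 : (fun j => a j - (m y j : ℝ)) = 0 := by
      apply linInd_real hbi
      intro i
      have h3 := hy i
      have h4 := congrFun h1 i
      rw [Finset.sum_apply] at h4
      simp only [Pi.smul_apply, smul_eq_mul] at h4
      have h5 : ((y i : ℤ) : ℝ) = ∑ j, (m y j : ℝ) * (bv j i : ℝ) := by
        rw [h4]; push_cast; rfl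
      simp_rw [sub_mul]
      rw [Finset.sum_sub_distrib, ← h5, ← h3, sub_eq_zero]
      refine Finset.sum_congr rfl fun j _ => by rw [hM, mul_comm]
    intro j
    exact ⟨m y j, by have := congrFun h2 j; simpa [sub_eq_zero] using this⟩
  · -- ergodicity
    intro n hn hdet'
    obtain ⟨y, hy0, hy⟩ := Matrix.exists_mulVec_eq_zero_iff.2 hdet'
    obtain ⟨x, hx⟩ : ∃ x, x = M.mulVec y := ⟨_, rfl⟩
    have hx0 : x ≠ 0 := by
      intro h
      apply hy0
      have h1 : ∑ j, y j • bv j = 0 := by rw [← hMv, ← hx, h]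
      funext j
      exact Fintype.linearIndependent_iff.1 hbi y h1 j
    have hAMn : ∀ n : ℕ, A ^ n * M = M * A' ^ n := by
      intro n
      induction n with
      | zero => simp
      | succ n ih => rw [pow_succ', Matrix.mul_assoc, ih, ← Matrix.mul_assoc, hAM,
          Matrix.mul_assoc, ← pow_succ']
    have hxn : (A ^ n).mulVec x = x := by
      rw [hx, Matrix.mulVec_mulVec, hAMn, ← Matrix.mulVec_mulVec]
      rw [Matrix.sub_mulVec, Matrix.one_mulVec, sub_eq_zero] at hy
      rw [hy]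
    have hxp : pA.mulVec x = 0 := by rw [hx]; exact (hL _).1 (hML y)
    -- Bezout
    have hcop : IsCoprime (p.map (algebraMap ℤ ℚ)) (X ^ n - 1 : ℚ[X]) := by
      rw [hirr.coprime_iff_not_dvd]
      intro hdvd
      obtain ⟨c, hc⟩ := hdvd
      have h1 : aeval μ (X ^ n - 1 : ℚ[X]) = 0 := by
        rw [hc, map_mul, aeval_map_algebraMap, hpμ, zero_mul]
      rw [map_sub, map_pow, aeval_X, map_one, sub_eq_zero] at h1
      have h2 : ‖μ‖ ^ n = 1 := by rw [← norm_pow, h1, norm_one]
      have h3 := one_lt_pow₀ hμ (by omega : n ≠ 0)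
      linarith
    obtain ⟨s, t, hst⟩ := hcop
    obtain ⟨aQ, haQ⟩ : ∃ aQ : Matrix (Fin d) (Fin d) ℚ, aQ = A.map (Int.castRingHom ℚ) := ⟨_, rfl⟩
    obtain ⟨xQ, hxQ⟩ : ∃ xQ : Fin d → ℚ, xQ = fun i => (x i : ℚ) := ⟨_, rfl⟩
    have hcast : ∀ (C : Matrix (Fin d) (Fin d) ℤ), (C.map (Int.castRingHom ℚ)).mulVec xQ =
        fun i => ((C.mulVec x i : ℤ) : ℚ) := by
      intro C
      funext i
      show ∑ j, ((C i j : ℤ) : ℚ) * xQ j = ((∑ j, C i j * x j : ℤ) : ℚ)
      rw [hxQ]
      push_cast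
      rfl
    have hk1 : (aeval aQ (p.map (algebraMap ℤ ℚ))).mulVec xQ = 0 := by
      have h2 : aeval aQ (p.map (algebraMap ℤ ℚ)) = pA.map (Int.castRingHom ℚ) := by
        have h3 : (Int.castRingHom ℚ) = algebraMap ℤ ℚ := rfl
        rw [hpA, haQ, h3, aeval_map_algebraMap]
        have := aeval_algHom_apply ((Algebra.ofId ℤ ℚ).mapMatrix (m := Fin d)) A p
        rw [show (A.map (algebraMap ℤ ℚ)) = (Algebra.ofId ℤ ℚ).mapMatrix (m := Fin d) A from rfl,
          this]
        rfl
      rw [h2, hcast, hxp]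
      funext i
      simp
    have hk2 : (aeval aQ (X ^ n - 1 : ℚ[X])).mulVec xQ = 0 := by
      have h2 : aeval aQ (X ^ n - 1 : ℚ[X]) = (A ^ n - 1).map (Int.castRingHom ℚ) := by
        rw [map_sub, map_pow, aeval_X, map_one, haQ, ← RingHom.mapMatrix_apply,
          ← RingHom.mapMatrix_apply, map_sub, map_pow, map_one]
      rw [h2, hcast, Matrix.sub_mulVec, hxn, Matrix.one_mulVec, sub_self]
      funext i
      simp
    have h5 : xQ = 0 := by
      have h6 := congrArg (fun f => (aeval aQ f).mulVec xQ) hst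
      simp only [map_add, map_mul, map_one, Matrix.add_mulVec, ← Matrix.mulVec_mulVec,
        Matrix.one_mulVec] at h6
      rw [← h6]
      have h7 : (aeval aQ (p.map (algebraMap ℤ ℚ))).mulVec xQ = 0 := hk1
      rw [h7, Matrix.mulVec_zero, zero_add]
      have h8 : (aeval aQ (X ^ n - 1 : ℚ[X])).mulVec xQ = 0 := hk2
      rw [h8, Matrix.mulVec_zero]
    apply hx0
    funext i
    have h9 : ((x i : ℤ) : ℚ) = 0 := by
      have := congrFun h5 i
      rw [hxQ] at this
      exact this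
    exact_mod_cast h9

end Pool.Agent.H71TB
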