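import Pool.Agent.H71TB.DefsT
import Pool.Agent.H71TB.Sub
import Pool.Agent.Y368.GG.Main
import Pool.Agent.Y504.CO.KSG

/-!
# The closing lemma for diffeomorphisms which normalize a torus action
-/

set_option autoImplicit false

open scoped Manifold ContDiff Topology
open Filter Set Metric

universe u

noncomputable section

namespace Pool.Agent.H71TB

open Pool.Agent.H718R2.G Pool.Agent.W564.SC Pool.Agent.H71TB.AD Pool.Agent.TH80.OMS
  Pool.Agent.Y504.CO.KSG

/-- The matrix is nonsingular, since `F` is injective and the stabiliser of `z` is trivial. -/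
theorem det_ne {d n : ℕ} {N : Type u} [TopologicalSpace N] [ChartedSpace (V n) N]
    {R : V d → N → N} (hR : TAct d n N R) {F : N → N} (hFi : Function.Injective F)
    {A : Matrix (Fin d) (Fin d) ℤ} {z : N} (hF : ∀ a, F (R a z) = R (lin A a) (F z))
    (hfree : ∀ a : V d, R a z = z → ∀ j, ∃ m : ℤ, a j = (m : ℝ)) : A.det ≠ 0 := by
  intro h0
  obtain ⟨v, hv0, hv⟩ := Matrix.exists_mulVec_eq_zero_iff.2 h0
  obtain ⟨j, hj⟩ : ∃ j, v j ≠ 0 := by
    by_contra hcon
    push Not at hcon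
    exact hv0 (funext hcon)
  have hjr : ((v j : ℤ) : ℝ) ≠ 0 := by exact_mod_cast hj
  obtain ⟨a, ha⟩ : ∃ a : V d, a = WithLp.toLp 2 fun i => (1 / (2 * (v j : ℝ))) * (v i : ℝ) := ⟨_, rfl⟩
  have hlin : lin A a = 0 := by
    ext i
    show ∑ l, (A i l : ℝ) * a l = 0
    have h1 : ∑ l, (A i l : ℝ) * (v l : ℝ) = 0 := by
      have := congrFun hv i
      have h2 : ((∑ l, A i l * v l : ℤ) : ℝ) = 0 := by
        exact_mod_cast this
      push_cast at h2
      exact h2
    rw [ha]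
    calc ∑ l, (A i l : ℝ) * ((1 / (2 * (v j : ℝ))) * (v l : ℝ)) =
        (1 / (2 * (v j : ℝ))) * ∑ l, (A i l : ℝ) * (v l : ℝ) := by
          rw [Finset.mul_sum]
          refine Finset.sum_congr rfl fun l _ => by ring
      _ = 0 := by rw [h1, mul_zero]
  have h1 : R a z = z := hFi (by rw [hF, hlin, hR.zero])
  obtain ⟨m, hm⟩ := hfree a h1 j
  have h2 : a j = 1 / 2 := by
    rw [ha]
    show (1 / (2 * (v j : ℝ))) * (v j : ℝ) = 1 / 2
    field_simp
  rw [h2] at hm
  have h3 : (2 * m : ℝ) = 1 := by rw [← hm]; norm_num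
  have h4 : 2 * m = 1 := by exact_mod_cast h3
  omega

/-- the ergodic case -/
theorem closable_erg {d n : ℕ} (hd : 0 < d) {N : Type u} [TopologicalSpace N] [T2Space N]
    [CompactSpace N] [ChartedSpace (V n) N] [IsManifold (𝓡 n) ∞ N] {r : ℕ∞} (hr : 1 ≤ r)
    {R : V d → N → N} (hR : TAct d n N R) (F : DiffM n N r)
    {A : Matrix (Fin d) (Fin d) ℤ} (hA : Erg A)
    {K : Set N} (hK : ∀ y ∈ K, F y ∈ K)
    (hF : ∀ a, ∀ y ∈ K, F (R a y) = R (lin A a) (F y))
    {z : N} (hz : z ∈ K) (hfree : ∀ a : V d, R a z = z → ∀ j, ∃ m : ℤ, a j = (m : ℝ))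
    (hnw : NonWandOrb R F K z) :
    Closable n N r F z := by
  have hdet := det_ne hR (F := F) F.injective (fun a => hF a z hz) hfree
  obtain ⟨W, B, B', C, κ, c₀, hE⟩ := expd_of_erg hd hdet hA
  exact closable hd hr hR F hE hK hF hz hfree hnw

/-- the linear map `ℝ^e → ℝ^d` of an integer matrix -/
def lin' {d e : ℕ} (M : Matrix (Fin d) (Fin e) ℤ) : V e →L[ℝ] V d :=
  LinearMap.toContinuousLinearMap
    { toFun := fun a => WithLp.toLp 2 fun i => ∑ j, (M i j : ℝ) * a j
      map_add' := fun a b => by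
        ext i
        show ∑ j, (M i j : ℝ) * (a j + b j) = ∑ j, (M i j : ℝ) * a j + ∑ j, (M i j : ℝ) * b j
        rw [← Finset.sum_add_distrib]
        refine Finset.sum_congr rfl fun j _ => by ring
      map_smul' := fun c a => by
        ext i
        show ∑ j, (M i j : ℝ) * (c * a j) = c * ∑ j, (M i j : ℝ) * a j
        rw [Finset.mul_sum]
        refine Finset.sum_congr rfl fun j _ => by ring }

theorem lin'_apply {d e : ℕ} (M : Matrix (Fin d) (Fin e) ℤ) (a : V e) (i : Fin d) :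
    lin' M a i = ∑ j, (M i j : ℝ) * a j := rfl

theorem lin_lin' {d e : ℕ} {A : Matrix (Fin d) (Fin d) ℤ} {M : Matrix (Fin d) (Fin e) ℤ}
    {A' : Matrix (Fin e) (Fin e) ℤ} (h : A * M = M * A') (a : V e) :
    lin A (lin' M a) = lin' M (lin A' a) := by
  ext i
  rw [lin'_apply]
  show ∑ j, (A i j : ℝ) * (∑ l, (M j l : ℝ) * a l) = ∑ j, (M i j : ℝ) * ∑ l, (A' j l : ℝ) * a l
  simp_rw [Finset.mul_sum]
  rw [Finset.sum_comm]
  conv_rhs => rw [Finset.sum_comm]
  refine Finset.sum_congr rfl fun l _ => ?_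
  have h1 : ((A * M) i l : ℤ) = (M * A') i l := by rw [h]
  rw [Matrix.mul_apply, Matrix.mul_apply] at h1
  have h2 : ∑ j, (A i j : ℝ) * (M j l : ℝ) = ∑ j, (M i j : ℝ) * (A' j l : ℝ) := by
    exact_mod_cast h1
  calc ∑ j, (A i j : ℝ) * ((M j l : ℝ) * a l) = (∑ j, (A i j : ℝ) * (M j l : ℝ)) * a l := by
        rw [Finset.sum_mul]
        refine Finset.sum_congr rfl fun j _ => by ring
    _ = (∑ j, (M i j : ℝ) * (A' j l : ℝ)) * a l := by rw [h2]
    _ = ∑ j, (M i j : ℝ) * ((A' j l : ℝ) * a l) := by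
        rw [Finset.sum_mul]
        refine Finset.sum_congr rfl fun j _ => by ring

/-- the case of positive entropy -/
theorem closable_pos {d n : ℕ} {N : Type u} [TopologicalSpace N] [T2Space N]
    [CompactSpace N] [ChartedSpace (V n) N] [IsManifold (𝓡 n) ∞ N] {r : ℕ∞} (hr : 1 ≤ r)
    {R : V d → N → N} (hR : TAct d n N R) (F : DiffM n N r)
    {A : Matrix (Fin d) (Fin d) ℤ} (hA : PosEnt A)
    {K : Set N} (hK : ∀ y ∈ K, F y ∈ K)
    (hF : ∀ a, ∀ y ∈ K, F (R a y) = R (lin A a) (F y))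
    {z : N} (hz : z ∈ K) (hfree : ∀ a : V d, R a z = z → ∀ j, ∃ m : ℤ, a j = (m : ℝ))
    (hnw : NonWandPt F K z) :
    Closable n N r F z := by
  obtain ⟨μ, hμ, hev⟩ := hA
  obtain ⟨e, M, A', he, hAM, hsat, herg⟩ := sub_erg A hμ hev
  have hR' : TAct e n N (fun a y => R (lin' M a) y) := by
    constructor
    · have h1 : ContMDiff ((𝓡 e).prod (𝓡 n)) ((𝓡 d).prod (𝓡 n)) ∞
          (fun q : V e × N => (lin' M q.1, q.2)) :=
        ((lin' M).contMDiff.comp contMDiff_fst).prodMk contMDiff_snd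
      exact hR.smooth.comp h1
    · intro y
      show R (lin' M 0) y = y
      rw [map_zero, hR.zero]
    · intro a b y
      show R (lin' M (a + b)) y = R (lin' M a) (R (lin' M b) y)
      rw [map_add, hR.add]
    · intro a ha y
      refine hR.int _ (fun i => ?_) y
      choose m hm using ha
      refine ⟨∑ j, M i j * m j, ?_⟩
      rw [lin'_apply]
      push_cast
      refine Finset.sum_congr rfl fun j _ => by rw [hm]
  refine closable_erg he hr hR' F herg hK (fun a y hy => ?_) hz (fun a ha => ?_) ?_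
  · show F (R (lin' M a) y) = R (lin' M (lin A' a)) (F y)
    rw [hF _ y hy, lin_lin' hAM]
  · have h1 := hfree (lin' M a) ha
    exact hsat a.ofLp h1
  · intro S hS
    obtain ⟨m, hm, y, hy, hyK, h1⟩ := hnw S hS
    refine ⟨m, hm, y, hy, hyK, 0, ?_⟩
    show R (lin' M 0) (F^[m] y) ∈ S
    rw [map_zero, hR.zero]
    exact h1

theorem closable_torPt {n : ℕ} {N : Type u} [TopologicalSpace N] [T2Space N]
    [CompactSpace N] [ChartedSpace (V n) N] [IsManifold (𝓡 n) ∞ N] {r : ℕ∞} (hr : 1 ≤ r)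
    (F : DiffM n N r) {z : N} (h : TorPt n N F z) : Closable n N r F z := by
  obtain ⟨d, R, A, K, hd, ⟨hR, hK, hz, hF, hfree⟩, ⟨hA, hnw⟩ | ⟨hA, hnw⟩⟩ := h
  · exact closable_erg hd hr hR F hA hK hF hz hfree hnw
  · exact closable_pos hr hR F hA hK hF hz hfree hnw

theorem main1 {n : ℕ} {N : Type u} [TopologicalSpace N] [T2Space N]
    [CompactSpace N] [ChartedSpace (V n) N] [IsManifold (𝓡 n) ∞ N] (r : ℕ∞) (hr : 1 ≤ r)
    (F : DiffM n N r) (z : N) (h : Approx n N r F fun F' => TorPt n N F' z) :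
    Approx n N r F fun G => IsPer G z := by
  intro U hU hFU
  obtain ⟨F', hF', h'⟩ := h U hU hFU
  exact closable_torPt hr F' h' U hU hF'

theorem main2 {n : ℕ} {N : Type u} [TopologicalSpace N] [T2Space N]
    [CompactSpace N] [ChartedSpace (V n) N] [IsManifold (𝓡 n) ∞ N] (r : ℕ∞) (hr : 1 ≤ r) :
    BaireSet n N r
      {f | ∀ z, (Approx n N r f fun f' => TorPt n N f' z) → z ∈ closure (Per f)} := by
  obtain ⟨R, h1, h2, h3⟩ := Pool.Agent.Y368.GG.generic_closable (n := n) (N := N) r hr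
  exact ⟨R, h1, h2, fun f hf z hz => h3 f hf z (main1 r hr f z hz)⟩

end Pool.Agent.H71TB
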