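import Pool.Agent.H71TB.Frac

/-!
# Trigonometric polynomials
-/

set_option autoImplicit false

open MeasureTheory Set Filter
open scoped Topology ENNReal BigOperators Real

noncomputable section

namespace Pool.Agent.H71TB

/-- `k · x` -/
def dot {d : ℕ} (k : Fin d → ℤ) (x : Fin d → ℝ) : ℝ := ∑ i, (k i : ℝ) * x i

theorem dot_add {d : ℕ} (k : Fin d → ℤ) (x y : Fin d → ℝ) : dot k (x + y) = dot k x + dot k y := by
  simp [dot, mul_add, Finset.sum_add_distrib]

theorem add_dot {d : ℕ} (k l : Fin d → ℤ) (x : Fin d → ℝ) :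
    dot (k + l) x = dot k x + dot l x := by
  simp [dot, add_mul, Finset.sum_add_distrib]

theorem zero_dot {d : ℕ} (x : Fin d → ℝ) : dot 0 x = 0 := by simp [dot]

theorem continuous_dot {d : ℕ} (k : Fin d → ℤ) : Continuous (dot k) := by
  unfold dot
  fun_prop

/-- `Θ` is a trigonometric polynomial with frequencies at most `D` and sum of the moduli of the
coefficients at most `S`. -/
def TP {d : ℕ} (D S : ℝ) (Θ : (Fin d → ℝ) → ℂ) : Prop :=
  ∃ (ι : Type) (s : Finset ι) (k : ι → Fin d → ℤ) (c : ι → ℂ),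
    (∀ a ∈ s, ∀ i, |(k a i : ℝ)| ≤ D) ∧ ∑ a ∈ s, ‖c a‖ ≤ S ∧ ∀ x, Θ x = ∑ a ∈ s, c a * e (dot (k a) x)

theorem TP.continuous {d : ℕ} {D S : ℝ} {Θ : (Fin d → ℝ) → ℂ} (h : TP D S Θ) : Continuous Θ := by
  obtain ⟨ι, s, k, c, h1, h2, h3⟩ := h
  have : Θ = fun x => ∑ a ∈ s, c a * e (dot (k a) x) := funext h3
  rw [this]
  refine continuous_finsetSum _ fun a _ => ?_
  exact continuous_const.mul (continuous_e.comp (continuous_dot _))

theorem TP.mono {d : ℕ} {D S D' S' : ℝ} {Θ : (Fin d → ℝ) → ℂ} (h : TP D S Θ) (hD : D ≤ D')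
    (hS : S ≤ S') : TP D' S' Θ := by
  obtain ⟨ι, s, k, c, h1, h2, h3⟩ := h
  exact ⟨ι, s, k, c, fun a ha i => (h1 a ha i).trans hD, h2.trans hS, h3⟩

theorem TP.mul {d : ℕ} {D S D' S' : ℝ} {Θ Θ' : (Fin d → ℝ) → ℂ} (h : TP D S Θ) (h' : TP D' S' Θ') :
    TP (D + D') (S * S') fun x => Θ x * Θ' x := by
  obtain ⟨ι, s, k, c, h1, h2, h3⟩ := h
  obtain ⟨ι', s', k', c', h1', h2', h3'⟩ := h'
  refine ⟨ι × ι', s ×ˢ s', fun a => k a.1 + k' a.2, fun a => c a.1 * c' a.2, ?_, ?_, ?_⟩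
  · rintro ⟨a, a'⟩ ha i
    rw [Finset.mem_product] at ha
    simp only [Pi.add_apply, Int.cast_add]
    exact (abs_add_le _ _).trans (add_le_add (h1 a ha.1 i) (h1' a' ha.2 i))
  · rw [Finset.sum_product]
    simp only [norm_mul]
    rw [← Finset.sum_mul_sum]
    exact mul_le_mul h2 h2' (Finset.sum_nonneg fun _ _ => norm_nonneg _)
      ((Finset.sum_nonneg fun _ _ => norm_nonneg _).trans h2)
  · intro x
    show Θ x * Θ' x = _
    rw [h3, h3', Finset.sum_mul_sum, Finset.sum_product]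
    refine Finset.sum_congr rfl fun a _ => Finset.sum_congr rfl fun a' _ => ?_
    simp only
    rw [add_dot, e_add]
    ring

theorem TP.one {d : ℕ} : TP (d := d) 0 1 fun _ => 1 := by
  refine ⟨Unit, {()}, fun _ => 0, fun _ => 1, ?_, ?_, ?_⟩
  · simp
  · simp
  · intro x
    simp [zero_dot, e_zero]

theorem TP.congr {d : ℕ} {D S : ℝ} {Θ Θ' : (Fin d → ℝ) → ℂ} (h : TP D S Θ) (h' : ∀ x, Θ' x = Θ x) :
    TP D S Θ' := by
  have : Θ' = Θ := funext h'
  rwa [this]

theorem TP.pow {d : ℕ} {D S : ℝ} {Θ : (Fin d → ℝ) → ℂ} (h : TP D S Θ) (n : ℕ) :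
    TP (n * D) (S ^ n) fun x => Θ x ^ n := by
  induction n with
  | zero => simpa using TP.one
  | succ n ih =>
    refine ((ih.mul h).mono (le_of_eq ?_) (le_of_eq ?_)).congr ?_
    · push_cast; ring
    · ring
    · intro x; ring

theorem TP.prod {d : ℕ} {ι : Type} {D S : ℝ} (s : Finset ι) {Θ : ι → (Fin d → ℝ) → ℂ}
    (h : ∀ i ∈ s, TP D S (Θ i)) :
    TP (s.card * D) (S ^ s.card) fun x => ∏ i ∈ s, Θ i x := by
  classical
  induction s using Finset.induction_on with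
  | empty => simpa using TP.one
  | insert a s ha ih =>
    have h1 := (h a (Finset.mem_insert_self a s)).mul
      (ih fun i hi => h i (Finset.mem_insert_of_mem hi))
    refine (h1.mono (le_of_eq ?_) (le_of_eq ?_)).congr ?_
    · rw [Finset.card_insert_of_notMem ha]; push_cast; ring
    · rw [Finset.card_insert_of_notMem ha]; ring
    · intro x; rw [Finset.prod_insert ha]

theorem TP.const_mul {d : ℕ} {D S : ℝ} {Θ : (Fin d → ℝ) → ℂ} (h : TP D S Θ) (r : ℂ) :
    TP D (‖r‖ * S) fun x => r * Θ x := by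
  obtain ⟨ι, s, k, c, h1, h2, h3⟩ := h
  refine ⟨ι, s, k, fun a => r * c a, h1, ?_, ?_⟩
  · simp only [norm_mul]
    rw [← Finset.mul_sum]
    exact mul_le_mul_of_nonneg_left h2 (norm_nonneg _)
  · intro x
    show r * Θ x = _
    rw [h3, Finset.mul_sum]
    exact Finset.sum_congr rfl fun a _ => by ring

/-- the real vector of an integer vector -/
def kR {d : ℕ} (k : Fin d → ℤ) : Fin d → ℝ := fun i => (k i : ℝ)

theorem dot_eq {d : ℕ} (k : Fin d → ℤ) (x : Fin d → ℝ) : dot k x = kR k ⬝ᵥ x := rfl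

theorem dot_mulVec {d u : ℕ} (k : Fin d → ℤ) (L : Matrix (Fin d) (Fin u) ℝ) (x : Fin u → ℝ) :
    dot k (L.mulVec x) = ∑ j, (Matrix.vecMul (kR k) L) j * x j := by
  rw [dot_eq, Matrix.dotProduct_mulVec]
  rfl

/-- the sum of the moduli of the entries -/
def mb {d : ℕ} (M : Matrix (Fin d) (Fin d) ℤ) : ℝ := ∑ i, ∑ j, |(M i j : ℝ)|

theorem mb_nonneg {d : ℕ} (M : Matrix (Fin d) (Fin d) ℤ) : 0 ≤ mb M :=
  Finset.sum_nonneg fun _ _ => Finset.sum_nonneg fun _ _ => abs_nonneg _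

theorem mb_mul {d : ℕ} (M N : Matrix (Fin d) (Fin d) ℤ) : mb (M * N) ≤ mb M * mb N := by
  unfold mb
  have h1 : ∀ i j, |((M * N) i j : ℝ)| ≤ ∑ l, |(M i l : ℝ)| * |(N l j : ℝ)| := by
    intro i j
    rw [Matrix.mul_apply]
    push_cast
    refine (Finset.abs_sum_le_sum_abs _ _).trans (le_of_eq ?_)
    exact Finset.sum_congr rfl fun l _ => abs_mul _ _
  calc _ ≤ ∑ i, ∑ j, ∑ l, |(M i l : ℝ)| * |(N l j : ℝ)| :=
        Finset.sum_le_sum fun i _ => Finset.sum_le_sum fun j _ => h1 i j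
    _ = ∑ i, ∑ l, |(M i l : ℝ)| * ∑ j, |(N l j : ℝ)| := by
        refine Finset.sum_congr rfl fun i _ => ?_
        rw [Finset.sum_comm]
        exact Finset.sum_congr rfl fun l _ => by rw [Finset.mul_sum]
    _ ≤ ∑ i, ∑ l, |(M i l : ℝ)| * ∑ l', ∑ j, |(N l' j : ℝ)| := by
        refine Finset.sum_le_sum fun i _ => Finset.sum_le_sum fun l _ => ?_
        refine mul_le_mul_of_nonneg_left ?_ (abs_nonneg _)
        exact Finset.single_le_sum (f := fun l' => ∑ j, |(N l' j : ℝ)|)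
          (fun l' _ => Finset.sum_nonneg fun _ _ => abs_nonneg _) (Finset.mem_univ l)
    _ = _ := by
        rw [Finset.sum_mul]
        exact Finset.sum_congr rfl fun i _ => by rw [Finset.sum_mul]

theorem mb_pow {d : ℕ} (M : Matrix (Fin d) (Fin d) ℤ) {n : ℕ} (hn : 1 ≤ n) :
    mb (M ^ n) ≤ mb M ^ n := by
  induction n, hn using Nat.le_induction with
  | base => simp
  | succ n hn ih =>
    rw [pow_succ, pow_succ]
    exact (mb_mul _ _).trans (mul_le_mul_of_nonneg_right ih (mb_nonneg _))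

theorem TP.affine {d : ℕ} {D S : ℝ} {Θ : (Fin d → ℝ) → ℂ} (h : TP D S Θ)
    (M : Matrix (Fin d) (Fin d) ℤ) (b : Fin d → ℝ) :
    TP (mb M * D) S fun x => Θ ((M.map (Int.cast : ℤ → ℝ)).mulVec x + b) := by
  obtain ⟨ι, s, k, c, h1, h2, h3⟩ := h
  refine ⟨ι, s, fun a => Matrix.vecMul (k a) M, fun a => c a * e (dot (k a) b), ?_, ?_, ?_⟩
  · intro a ha i
    have h4 : ((Matrix.vecMul (k a) M i : ℤ) : ℝ) = ∑ j, (k a j : ℝ) * (M j i : ℝ) := by
      simp [Matrix.vecMul, dotProduct]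
    rw [h4]
    refine (Finset.abs_sum_le_sum_abs _ _).trans ?_
    calc ∑ j, |(k a j : ℝ) * (M j i : ℝ)| ≤ ∑ j, D * |(M j i : ℝ)| := by
          refine Finset.sum_le_sum fun j _ => ?_
          rw [abs_mul]
          exact mul_le_mul_of_nonneg_right (h1 a ha j) (abs_nonneg _)
      _ = (∑ j, |(M j i : ℝ)|) * D := by rw [← Finset.mul_sum, mul_comm]
      _ ≤ mb M * D := by
          have hD : 0 ≤ D := (abs_nonneg _).trans (h1 a ha i)
          refine mul_le_mul_of_nonneg_right ?_ hD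
          unfold mb
          refine Finset.sum_le_sum fun j _ => ?_
          exact Finset.single_le_sum (f := fun i => |(M j i : ℝ)|) (fun _ _ => abs_nonneg _)
            (Finset.mem_univ i)
  · simpa [norm_mul, norm_e] using h2
  · intro x
    show Θ _ = _
    rw [h3]
    refine Finset.sum_congr rfl fun a _ => ?_
    rw [dot_add, e_add]
    have h5 : dot (k a) ((M.map (Int.cast : ℤ → ℝ)).mulVec x) = dot (Matrix.vecMul (k a) M) x := by
      rw [dot_eq, Matrix.dotProduct_mulVec, dot_eq]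
      congr 1
      ext i
      simp [kR, Matrix.vecMul, dotProduct]
    rw [h5]
    ring

theorem exists_coord {u : ℕ} {c : Fin u → ℝ} {g : ℝ} (hg : 0 < g) (h : g ≤ ‖c‖) :
    ∃ j, g ≤ |c j| := by
  by_contra hcon
  push Not at hcon
  exact absurd h (not_le.2 ((pi_norm_lt_iff hg).2 fun j => by simpa using hcon j))

/-- the average of a product of a nontrivial character and a trigonometric polynomial -/
theorem char_bound {d u : ℕ} {D' S' s g : ℝ} (hs : 0 < s) (hg : 0 < g) {Θ' : (Fin d → ℝ) → ℂ}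
    (h' : TP D' S' Θ') (k : Fin d → ℤ) (L L' : Matrix (Fin d) (Fin u) ℝ) (x₀ x₁ : Fin d → ℝ)
    (hk : ∀ k' : Fin d → ℤ, (∀ i, |(k' i : ℝ)| ≤ D') →
      g ≤ ‖Matrix.vecMul (kR k) L + Matrix.vecMul (kR k') L'‖) :
    ‖∫ η, e (dot k (x₀ + L.mulVec η)) * Θ' (x₁ + L'.mulVec η) ∂(Cu u (-s) s)‖ ≤ S' / (g * s) := by
  obtain ⟨ι, t, k', c, h1, h2, h3⟩ := h'
  have hss : -s < s := by linarith
  have hcont : ∀ (a : ι), Continuous fun η : Fin u → ℝ =>
      e (dot k (x₀ + L.mulVec η)) * (c a * e (dot (k' a) (x₁ + L'.mulVec η))) := by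
    intro a
    refine (continuous_e.comp ((continuous_dot k).comp ?_)).mul (continuous_const.mul
      (continuous_e.comp ((continuous_dot _).comp ?_)))
    · exact continuous_const.add (Continuous.matrix_mulVec continuous_const continuous_id)
    · exact continuous_const.add (Continuous.matrix_mulVec continuous_const continuous_id)
  have h4 : ∀ η : Fin u → ℝ, e (dot k (x₀ + L.mulVec η)) * Θ' (x₁ + L'.mulVec η) =
      ∑ a ∈ t, e (dot k (x₀ + L.mulVec η)) * (c a * e (dot (k' a) (x₁ + L'.mulVec η))) := by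
    intro η
    rw [h3, Finset.mul_sum]
  simp only [h4]
  rw [integral_finsetSum _ fun a _ => integrable_Cu hss (hcont a)]
  refine (norm_sum_le _ _).trans ?_
  have h5 : ∀ a ∈ t, ‖∫ η, e (dot k (x₀ + L.mulVec η)) *
      (c a * e (dot (k' a) (x₁ + L'.mulVec η))) ∂(Cu u (-s) s)‖ ≤ ‖c a‖ * (1 / (g * s)) := by
    intro a ha
    have h6 : ∀ η : Fin u → ℝ, e (dot k (x₀ + L.mulVec η)) *
        (c a * e (dot (k' a) (x₁ + L'.mulVec η))) = (c a * e (dot k x₀) * e (dot (k' a) x₁)) *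
        e (∑ j, (Matrix.vecMul (kR k) L + Matrix.vecMul (kR (k' a)) L') j * η j) := by
      intro η
      rw [dot_add, dot_add, dot_mulVec, dot_mulVec, e_add, e_add]
      simp only [Pi.add_apply, add_mul, Finset.sum_add_distrib]
      rw [e_add]
      ring
    simp only [h6]
    rw [integral_const_mul, norm_mul, norm_mul, norm_mul, norm_e, norm_e, mul_one, mul_one]
    refine mul_le_mul_of_nonneg_left ?_ (norm_nonneg _)
    obtain ⟨j, hj⟩ := exists_coord hg (hk (k' a) (h1 a ha))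
    have hj0 : (Matrix.vecMul (kR k) L + Matrix.vecMul (kR (k' a)) L') j ≠ 0 := by
      intro h0
      rw [h0, abs_zero] at hj
      linarith
    refine (norm_integral_Cu_e_le hss _ j hj0).trans ?_
    apply one_div_le_one_div_of_le (by positivity)
    have hpi := Real.pi_gt_three
    calc g * s ≤ |(Matrix.vecMul (kR k) L + Matrix.vecMul (kR (k' a)) L') j| * s := by gcongr
      _ ≤ π * |(Matrix.vecMul (kR k) L + Matrix.vecMul (kR (k' a)) L') j| * (s - -s) := by
        have : 0 ≤ |(Matrix.vecMul (kR k) L + Matrix.vecMul (kR (k' a)) L') j| * s := by positivity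
        nlinarith
  calc _ ≤ ∑ a ∈ t, ‖c a‖ * (1 / (g * s)) := Finset.sum_le_sum h5
    _ = (∑ a ∈ t, ‖c a‖) * (1 / (g * s)) := by rw [Finset.sum_mul]
    _ ≤ S' * (1 / (g * s)) := by gcongr
    _ = _ := by ring

/-- equidistribution, conditional on another function -/
theorem eq2 {d u : ℕ} {D S D' S' s g : ℝ} (hs : 0 < s) (hg : 0 < g) {Θ Θ' : (Fin d → ℝ) → ℂ}
    (h : TP D S Θ) (h' : TP D' S' Θ') (L L' : Matrix (Fin d) (Fin u) ℝ) (x₀ x₁ : Fin d → ℝ)
    (hk : ∀ k : Fin d → ℤ, k ≠ 0 → (∀ i, |(k i : ℝ)| ≤ D) →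
      ∀ k' : Fin d → ℤ, (∀ i, |(k' i : ℝ)| ≤ D') →
      g ≤ ‖Matrix.vecMul (kR k) L + Matrix.vecMul (kR k') L'‖) :
    ‖∫ η, Θ (x₀ + L.mulVec η) * Θ' (x₁ + L'.mulVec η) ∂(Cu u (-s) s) -
      (∫ x, Θ x ∂(Cu d 0 1)) * ∫ η, Θ' (x₁ + L'.mulVec η) ∂(Cu u (-s) s)‖ ≤ S * (S' / (g * s)) := by
  obtain ⟨ι, t, k, c, h1, h2, h3⟩ := h
  have hss : -s < s := by linarith
  have hS' : 0 ≤ S' := by
    obtain ⟨_, _, _, _, _, h, _⟩ := h'
    exact (Finset.sum_nonneg fun _ _ => norm_nonneg _).trans h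
  have hc1 : Continuous fun η : Fin u → ℝ => Θ' (x₁ + L'.mulVec η) :=
    h'.continuous.comp (continuous_const.add
      (Continuous.matrix_mulVec continuous_const continuous_id))
  have hc2 : ∀ a, Continuous fun η : Fin u → ℝ =>
      c a * (e (dot (k a) (x₀ + L.mulVec η)) * Θ' (x₁ + L'.mulVec η)) := by
    intro a
    refine continuous_const.mul ((continuous_e.comp ((continuous_dot _).comp ?_)).mul hc1)
    exact continuous_const.add (Continuous.matrix_mulVec continuous_const continuous_id)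
  have e1 : ∀ η : Fin u → ℝ, Θ (x₀ + L.mulVec η) * Θ' (x₁ + L'.mulVec η) =
      ∑ a ∈ t, c a * (e (dot (k a) (x₀ + L.mulVec η)) * Θ' (x₁ + L'.mulVec η)) := by
    intro η
    rw [h3, Finset.sum_mul]
    exact Finset.sum_congr rfl fun a _ => by ring
  have hc3 : ∀ a, Continuous fun x : Fin d → ℝ => c a * e (dot (k a) x) := fun a =>
    continuous_const.mul (continuous_e.comp (continuous_dot _))
  have e2 : ∫ x, Θ x ∂(Cu d 0 1) = ∑ a ∈ t, c a * ∫ x, e (dot (k a) x) ∂(Cu d 0 1) := by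
    simp only [h3]
    rw [integral_finsetSum _ fun a _ => integrable_Cu zero_lt_one (hc3 a)]
    exact Finset.sum_congr rfl fun a _ => integral_const_mul _ _
  simp only [e1]
  rw [integral_finsetSum _ fun a _ => integrable_Cu hss (hc2 a), e2, Finset.sum_mul,
    ← Finset.sum_sub_distrib]
  refine (norm_sum_le _ _).trans ?_
  have h5 : ∀ a ∈ t, ‖∫ η, c a * (e (dot (k a) (x₀ + L.mulVec η)) * Θ' (x₁ + L'.mulVec η))
      ∂(Cu u (-s) s) - c a * (∫ x, e (dot (k a) x) ∂(Cu d 0 1)) *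
      ∫ η, Θ' (x₁ + L'.mulVec η) ∂(Cu u (-s) s)‖ ≤ ‖c a‖ * (S' / (g * s)) := by
    intro a ha
    rw [integral_const_mul]
    by_cases h0 : k a = 0
    · have h6 : ∀ x, e (dot (k a) x) = 1 := by
        intro x
        rw [h0, zero_dot, e_zero]
      have := Cu_prob (u := d) zero_lt_one
      simp only [h6, one_mul, integral_const, probReal_univ, one_smul, mul_one, sub_self,
        norm_zero]
      positivity
    · have h6 : ∫ x, e (dot (k a) x) ∂(Cu d 0 1) = 0 := integral_Cu_e_int h0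
      rw [h6, mul_zero, zero_mul, sub_zero, norm_mul]
      exact mul_le_mul_of_nonneg_left (char_bound hs hg h' (k a) L L' x₀ x₁
        (hk (k a) h0 (h1 a ha))) (norm_nonneg _)
  calc _ ≤ ∑ a ∈ t, ‖c a‖ * (S' / (g * s)) := Finset.sum_le_sum h5
    _ = (∑ a ∈ t, ‖c a‖) * (S' / (g * s)) := by rw [Finset.sum_mul]
    _ ≤ S * (S' / (g * s)) := by gcongr

/-- equidistribution -/
theorem eq1 {d u : ℕ} {D S s g : ℝ} (hs : 0 < s) (hg : 0 < g) {Θ : (Fin d → ℝ) → ℂ}
    (h : TP D S Θ) (L : Matrix (Fin d) (Fin u) ℝ) (x₀ : Fin d → ℝ)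
    (hk : ∀ k : Fin d → ℤ, k ≠ 0 → (∀ i, |(k i : ℝ)| ≤ D) → g ≤ ‖Matrix.vecMul (kR k) L‖) :
    ‖∫ η, Θ (x₀ + L.mulVec η) ∂(Cu u (-s) s) - ∫ x, Θ x ∂(Cu d 0 1)‖ ≤ S * (1 / (g * s)) := by
  have := Cu_prob (u := u) (by linarith : -s < s)
  have h1 := eq2 hs hg h (TP.one (d := d)) L L x₀ x₀ (by
    intro k hk0 hkD k' hk'
    have h2 : k' = 0 := by
      ext i
      have := abs_nonpos_iff.1 (hk' i)
      exact_mod_cast this
    have h3 : kR k' = 0 := by
      rw [h2]
      ext i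
      simp [kR]
    rw [h3, Matrix.zero_vecMul, add_zero]
    exact hk k hk0 hkD)
  simpa using h1

/-- the mean of a trigonometric polynomial composed with an endomorphism -/
theorem mean_comp {d : ℕ} {D S : ℝ} {Θ : (Fin d → ℝ) → ℂ} (h : TP D S Θ)
    (M : Matrix (Fin d) (Fin d) ℤ) (b : Fin d → ℝ)
    (hM : ∀ k : Fin d → ℤ, k ≠ 0 → Matrix.vecMul k M ≠ 0) :
    ∫ x, Θ ((M.map (Int.cast : ℤ → ℝ)).mulVec x + b) ∂(Cu d 0 1) = ∫ x, Θ x ∂(Cu d 0 1) := by
  obtain ⟨ι, t, k, c, h1, h2, h3⟩ := h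
  have h5 : ∀ (a : ι) (x : Fin d → ℝ), dot (k a) ((M.map (Int.cast : ℤ → ℝ)).mulVec x) =
      dot (Matrix.vecMul (k a) M) x := by
    intro a x
    rw [dot_eq, Matrix.dotProduct_mulVec, dot_eq]
    congr 1
    ext i
    simp [kR, Matrix.vecMul, dotProduct]
  simp only [h3, dot_add, e_add, h5]
  have hc3 : ∀ a, Continuous fun x : Fin d → ℝ => c a * e (dot (k a) x) := fun a =>
    continuous_const.mul (continuous_e.comp (continuous_dot _))
  have hc4 : ∀ a, Continuous fun x : Fin d → ℝ =>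
      c a * (e (dot (Matrix.vecMul (k a) M) x) * e (dot (k a) b)) := fun a =>
    continuous_const.mul ((continuous_e.comp (continuous_dot _)).mul continuous_const)
  rw [integral_finsetSum _ fun a _ => integrable_Cu zero_lt_one (hc3 a),
    integral_finsetSum _ fun a _ => integrable_Cu zero_lt_one (hc4 a)]
  refine Finset.sum_congr rfl fun a _ => ?_
  have := Cu_prob (u := d) zero_lt_one
  by_cases h0 : k a = 0
  · simp [h0, zero_dot, e_zero]
  · rw [integral_const_mul, integral_const_mul, integral_mul_const]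
    have h6 : ∫ x, e (dot (k a) x) ∂(Cu d 0 1) = 0 := integral_Cu_e_int h0
    have h7 : ∫ x, e (dot (Matrix.vecMul (k a) M) x) ∂(Cu d 0 1) = 0 :=
      integral_Cu_e_int (hM _ h0)
    rw [h6, h7]
    simp

end Pool.Agent.H71TB
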