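import Pool.Agent.H71TB.Fin

/-!
# The avoidance tree
-/

set_option autoImplicit false

open MeasureTheory Set Filter
open scoped Topology ENNReal BigOperators Real

noncomputable section

namespace Pool.Agent.H71TB

variable {d u : ℕ} {A : Matrix (Fin d) (Fin d) ℤ} {W : Matrix (Fin d) (Fin u) ℝ}
    {B B' : Matrix (Fin u) (Fin u) ℝ} {C κ c₀ : ℝ} {D₀ : ℕ}

/-- the enlarged radii -/
def rad (W : Matrix (Fin d) (Fin u) ℝ) (C κ r s : ℝ) (q i : ℕ) : ℝ :=
  r + mW W * (C * κ ^ (q - i) * s)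

theorem G_lt {r t : ℝ} (hr : 0 < r) (hr4 : r ≤ 1 / 4) (h : G r t < 1) (l : ℤ) : r < |t - l| := by
  by_contra hcon
  exact absurd (G_large hr hr4 (not_lt.1 hcon)) (not_le.2 h)

theorem exists_avoid (h : Expd A W B B' C κ c₀ D₀) {s r : ℝ} (hs : 0 < s) (hr : 0 < r)
    (i₀ : Fin d) {q : ℕ} (hrad : r + mW W * (C * s) ≤ 1 / 4)
    (hsum : ∑ i ∈ Finset.range q, (16 * rad W C κ r s q i +
      8 * rad W C κ r s q i * C / (s / 2 * c₀) * κ ^ i) < 1) (x : ℕ → Fin d → ℝ) :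
    ∃ η : Fin u → ℝ, (∀ i, |η i| ≤ s / 2) ∧
      ∀ i < q, ∀ l : ℤ, rad W C κ r s q i < |(x i + (W * B ^ i).mulVec η) i₀ - l| := by
  have hκ := h.κ_pos
  have hκ1 := h.κ_lt
  have hC := h.C_ge
  have hmW := mW_nonneg W
  have hs2 : 0 < s / 2 := by positivity
  have hss : -(s / 2) < s / 2 := by linarith
  have hρ0 : ∀ i, 0 < rad W C κ r s q i := fun i => by unfold rad; positivity
  have hρ4 : ∀ i, rad W C κ r s q i ≤ 1 / 4 := fun i => by
    unfold rad
    refine le_trans ?_ hrad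
    have h1 : κ ^ (q - i) ≤ 1 := pow_le_one₀ hκ.le hκ1.le
    have h2 : C * κ ^ (q - i) * s ≤ C * s := by
      have : C * κ ^ (q - i) ≤ C * 1 := by gcongr
      rw [mul_one] at this
      gcongr
    gcongr
  have := Cu_prob (u := u) hss
  have hcG : ∀ i, Continuous fun η : Fin u → ℝ =>
      G (rad W C κ r s q i) ((x i + (W * B ^ i).mulVec η) i₀) :=
    fun i => (continuous_G _).comp (cont_aff_i _ _ _)
  obtain ⟨η, h1, _, h2⟩ := exists_good (u := u) (s := s / 2) (τ := 0) (n := q) hs2 le_rfl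
    (Φ := fun _ => 1) (Γ := fun i η => G (rad W C κ r s q i) ((x i + (W * B ^ i).mulVec η) i₀))
    (fun _ => zero_le_one) (fun i η => G_nonneg _ _) (by
      have hi2 : ∀ i ∈ Finset.range q, Integrable (fun η : Fin u → ℝ =>
        G (rad W C κ r s q i) ((x i + (W * B ^ i).mulVec η) i₀)) (Cu u (-(s / 2)) (s / 2)) :=
        fun i _ => integrable_Cu hss (hcG i)
      simp only [one_mul]
      rw [integral_sub (integrable_const _) (integrable_finsetSum _ hi2),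
        integral_finsetSum _ hi2, integral_const, probReal_univ, one_smul]
      have h3 := Finset.sum_le_sum fun i (_ : i ∈ Finset.range q) =>
        G_avg h hs2 (hρ0 i) (hρ4 i) i₀ i (x i)
      linarith)
  exact ⟨η, h1, fun i hi l => G_lt (hρ0 i) (hρ4 i) (h2 i hi) l⟩

theorem tree (h : Expd A W B B' C κ c₀ D₀) {s r : ℝ} (hs : 0 < s) (hr : 0 < r)
    (i₀ : Fin d) {q : ℕ} (hrad : r + mW W * (C * s) ≤ 1 / 4) (hq : C * κ ^ q ≤ 1 / 2)
    (hsum : ∑ i ∈ Finset.range q, (16 * rad W C κ r s q i +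
      8 * rad W C κ r s q i * C / (s / 2 * c₀) * κ ^ i) < 1) (z : ℕ → Fin d → ℝ) (t₀ n : ℕ) :
    ∃ ξ : Fin u → ℝ, (∀ η : Fin u → ℝ, ‖η‖ ≤ s → ∃ η₀ : Fin u → ℝ, ‖η₀‖ ≤ s ∧
      ξ + (B' ^ (t₀ + n * q)).mulVec η = (B' ^ t₀).mulVec η₀) ∧
    ∀ i < n * q, ∀ η : Fin u → ℝ, ‖η‖ ≤ s → ∀ l : ℤ,
      r < |(z (t₀ + i) + (W * B ^ (t₀ + i)).mulVec (ξ + (B' ^ (t₀ + n * q)).mulVec η)) i₀ - l| := by
  have hκ := h.κ_pos
  have hκ1 := h.κ_lt
  have hC := h.C_ge
  have hmW := mW_nonneg W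
  induction n with
  | zero =>
    refine ⟨0, fun η hη => ⟨η, hη, by simp⟩, fun i hi => ?_⟩
    simp at hi
  | succ n ih =>
    obtain ⟨ξ, h1, h2⟩ := ih
    obtain ⟨t, ht⟩ : ∃ t, t = t₀ + n * q := ⟨_, rfl⟩
    have ht' : t₀ + (n + 1) * q = t + q := by rw [ht]; ring
    rw [← ht] at h1 h2
    obtain ⟨η', h3, h4⟩ := exists_avoid h hs hr i₀ hrad hsum
      (fun i => z (t + i) + (W * B ^ (t + i)).mulVec ξ)
    have h3' : ‖η'‖ ≤ s / 2 := (pi_norm_le_iff_of_nonneg (by positivity)).2 h3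
    -- the new cube is contained in the old one
    have hin : ∀ η : Fin u → ℝ, ‖η‖ ≤ s → ‖η' + (B' ^ q).mulVec η‖ ≤ s ∧
        (ξ + (B' ^ t).mulVec η') + (B' ^ (t + q)).mulVec η =
          ξ + (B' ^ t).mulVec (η' + (B' ^ q).mulVec η) := by
      intro η hη
      constructor
      · have h5 := h.contr q η
        have h6 : C * κ ^ q * ‖η‖ ≤ 1 / 2 * s := by gcongr
        have := norm_add_le η' ((B' ^ q).mulVec η)
        linarith
      · rw [Matrix.mulVec_add, Matrix.mulVec_mulVec, ← pow_add, add_assoc]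
    refine ⟨ξ + (B' ^ t).mulVec η', ?_, ?_⟩
    · intro η hη
      obtain ⟨h5, h6⟩ := hin η hη
      obtain ⟨η₀, h7, h8⟩ := h1 _ h5
      exact ⟨η₀, h7, by rw [ht', h6, h8]⟩
    · intro i hi η hη l
      rw [ht']
      obtain ⟨h5, h6⟩ := hin η hη
      by_cases hin' : i < n * q
      · have h7 := h2 i hin' _ h5 l
        rw [h6]
        exact h7
      · push Not at hin'
        obtain ⟨j, rfl⟩ := Nat.exists_eq_add_of_le hin'
        have hj : j < q := by
          have : (n + 1) * q = n * q + q := by ring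
          omega
        have h7 := h4 j hj l
        rw [show t₀ + (n * q + j) = t + j by rw [ht]; ring]
        have e1 : z (t + j) + (W * B ^ (t + j)).mulVec
            (ξ + (B' ^ t).mulVec η' + (B' ^ (t + q)).mulVec η) =
            (z (t + j) + (W * B ^ (t + j)).mulVec ξ + (W * B ^ j).mulVec η') +
              (W * B' ^ (q - j)).mulVec η := by
          have e2 : B ^ (t + j) * B' ^ (t + q) = B' ^ (q - j) := by
            have := BB_sub h (q - j) (t + j)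
            rw [show t + j + (q - j) = t + q by omega] at this
            exact this
          rw [Matrix.mulVec_add, Matrix.mulVec_add, Matrix.mulVec_mulVec, Matrix.mulVec_mulVec,
            Matrix.mul_assoc, Matrix.mul_assoc, BB_add h, e2]
          abel
        rw [e1]
        have h8 : |((W * B' ^ (q - j)).mulVec η) i₀| ≤ mW W * (C * κ ^ (q - j) * s) := by
          have h9 : ‖(W * B' ^ (q - j)).mulVec η‖ ≤ mW W * ‖(B' ^ (q - j)).mulVec η‖ := by
            rw [← Matrix.mulVec_mulVec]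
            exact mulVec_le W _
          have h10 := h.contr (q - j) η
          have h11 : ‖(B' ^ (q - j)).mulVec η‖ ≤ C * κ ^ (q - j) * s :=
            h10.trans (by gcongr)
          have h12 := norm_le_pi_norm ((W * B' ^ (q - j)).mulVec η) i₀
          rw [Real.norm_eq_abs] at h12
          exact h12.trans (h9.trans (by gcongr))
        have h9 : ((z (t + j) + (W * B ^ (t + j)).mulVec ξ + (W * B ^ j).mulVec η') +
              (W * B' ^ (q - j)).mulVec η) i₀ - l =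
            ((z (t + j) + (W * B ^ (t + j)).mulVec ξ + (W * B ^ j).mulVec η') i₀ - l) +
              ((W * B' ^ (q - j)).mulVec η) i₀ := by
          rw [Pi.add_apply]
          ring
        rw [h9]
        unfold rad at h7
        have h10 := abs_sub_abs_le_abs_sub
          ((z (t + j) + (W * B ^ (t + j)).mulVec ξ + (W * B ^ j).mulVec η') i₀ - (l:ℝ))
          (-((W * B' ^ (q - j)).mulVec η) i₀)
        rw [abs_neg, sub_neg_eq_add] at h10
        linarith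

/-- The orbit: avoidance up to the time `m`, return at the time `m`. -/
theorem orbit (h : Expd A W B B' C κ c₀ D₀) {N J L q t₀ : ℕ} {r s ε D D' : ℝ} (hs : 0 < s)
    (hr : 0 < r) (hrad : r + mW W * (C * s) ≤ 1 / 4) (hε : 0 < ε) (hε1 : ε ≤ 1) (i₀ : Fin d)
    (hq : C * κ ^ q ≤ 1 / 2)
    (hsum : ∑ i ∈ Finset.range q, (16 * rad W C κ r s q i +
      8 * rad W C κ r s q i * C / (s / 2 * c₀) * κ ^ i) < 1)
    (hJL : J ≤ L) (hq0 : 0 < q) (ht₀ : 0 < t₀)
    (hD : 0 < D) (hDN : d * N ≤ D) (hJ2 : 2 * (NG r * mW W) ≤ c₀ * (1 / κ) ^ J / (C * D ^ D₀))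
    (hD' : 0 < D') (hD'N : ∀ j, 1 ≤ j → j ≤ J → mb (A ^ j) * (d * N) + NG r ≤ D')
    (ha : 16 * r * (L + q) + 8 * r * C / (s * c₀ * (1 - κ)) ≤ 1 / 4)
    (hc : (1 + 4 * (L + q)) / ((c₀ * (1 / κ) ^ L / (2 * C ^ 2 * D ^ D₀)) * s) +
      4 * J / ((c₀ * (1 / κ) ^ (L - J) / (C * D' ^ D₀)) * s) ≤ aN N ^ d / 8)
    (hτ2 : (1 - ε ^ 2) ^ N < aN N ^ d / 2) {m : ℕ} (hm : t₀ + L + q ≤ m)
    (z : ℕ → Fin d → ℝ) (b : ℕ → Fin d → ℝ)
    (hz : ∀ j, 1 ≤ j → j ≤ J → z m = (rM (A ^ j)).mulVec (z (m - j)) + b j)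
    (hz1 : ∀ n, 0 < n → n < t₀ → ∀ l : ℤ, r + mW W * (C * s) < |z n i₀ - l|)
    (hR : ∑ j ∈ Finset.Icc 1 J, ∫ y, F d N ((rM (A ^ j)).mulVec y + b j) * G r (y i₀) ∂(Cu d 0 1) ≤
      aN N ^ d / 8) :
    ∃ ζ : Fin u → ℝ, ‖ζ‖ ≤ C * κ ^ t₀ * s ∧
      (∃ l : Fin d → ℤ, ∀ i, |(z m + (W * B ^ m).mulVec ζ) i - l i| < ε / 2) ∧
      ∀ n, 0 < n → n < m → ∀ l : ℤ, r ≤ |(z n + (W * B ^ n).mulVec ζ) i₀ - l| := by
  have hκ := h.κ_pos
  have hκ1 := h.κ_lt
  have hC := h.C_ge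
  have hc0 := h.c₀_pos
  have hmW := mW_nonneg W
  have hβ : 1 ≤ 1 / κ := by rw [le_div_iff₀ hκ]; linarith
  have hr4 : r ≤ 1 / 4 := by
    have : 0 ≤ mW W * (C * s) := by positivity
    linarith
  obtain ⟨n, hn⟩ : ∃ n, n = (m - L - t₀) / q := ⟨_, rfl⟩
  have hn1 : n * q ≤ m - L - t₀ := by rw [hn]; exact Nat.div_mul_le_self _ _
  have hn2 : m - L - t₀ < n * q + q := by
    rw [hn]
    have := Nat.lt_div_mul_add (a := m - L - t₀) hq0
    exact this
  obtain ⟨ξ, h1, h2⟩ := tree h hs hr i₀ hrad hq hsum z t₀ n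
  obtain ⟨t, ht⟩ : ∃ t, t = t₀ + n * q := ⟨_, rfl⟩
  obtain ⟨ℓ, hℓ⟩ : ∃ ℓ, ℓ = m - t := ⟨_, rfl⟩
  have hℓ1 : L ≤ ℓ := by omega
  have hℓ2 : ℓ ≤ L + q := by omega
  have htm : t + ℓ = m := by omega
  rw [← ht] at h1 h2
  have hℓ2' : (ℓ:ℝ) ≤ L + q := by exact_mod_cast hℓ2
  have hDp : 0 < D ^ D₀ := by positivity
  have hDp' : 0 < D' ^ D₀ := by positivity
  have p1 : (1 / κ) ^ L ≤ (1 / κ) ^ ℓ := pow_le_pow_right₀ hβ hℓ1
  have p2 : (1 / κ) ^ (L - J) ≤ (1 / κ) ^ (ℓ - J) := pow_le_pow_right₀ hβ (by omega)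
  obtain ⟨η, h3, h4, h5⟩ := final h (N := N) (ℓ := ℓ) (J := J) (r := r) (s := s)
    (τ := (1 - ε ^ 2) ^ N) (D := D) (D' := D') hs hr hr4
    (pow_nonneg (by nlinarith) _) i₀ (by omega)
    (fun i => z (t + i) + (W * B ^ (t + i)).mulVec ξ) b (by
      intro j hj1 hj2
      have e1 := hz j hj1 hj2
      rw [htm, show t + (ℓ - j) = m - j by omega, e1, Matrix.mulVec_add, Matrix.mulVec_mulVec,
        ← Matrix.mul_assoc, A_W h, Matrix.mul_assoc, ← pow_add, show j + (m - j) = m by omega]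
      abel) hR hD hDN hJ2 hD' hD'N (by
        refine le_trans ?_ ha
        gcongr) (by
        refine le_trans ?_ hc
        gcongr) hτ2
  have h3' : ‖η‖ ≤ s := (pi_norm_le_iff_of_nonneg hs.le).2 h3
  have hX : ∀ i, z (t + i) + (W * B ^ (t + i)).mulVec (ξ + (B' ^ t).mulVec η) =
      z (t + i) + (W * B ^ (t + i)).mulVec ξ + (W * B ^ i).mulVec η := by
    intro i
    rw [Matrix.mulVec_add, Matrix.mulVec_mulVec, Matrix.mul_assoc, BB_add h]
    abel
  obtain ⟨η₀, h6, h7⟩ := h1 η h3'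
  refine ⟨ξ + (B' ^ t).mulVec η, ?_, ?_, ?_⟩
  · rw [h7]
    exact (h.contr t₀ η₀).trans (by gcongr)
  · have e1 := hX ℓ
    rw [htm] at e1
    rw [e1]
    simp only [htm] at h4
    exact F_close hε hε1 h4
  · intro n' hn'0 hn'm l
    rcases lt_or_ge n' t₀ with hlt | hge
    · -- early times
      have h8 := hz1 n' hn'0 hlt l
      rw [h7]
      have e1 : (W * B ^ n').mulVec ((B' ^ t₀).mulVec η₀) = (W * B' ^ (t₀ - n')).mulVec η₀ := by
        have e2 : B ^ n' * B' ^ t₀ = B' ^ (t₀ - n') := by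
          have := BB_sub h (t₀ - n') n'
          rwa [show n' + (t₀ - n') = t₀ by omega] at this
        rw [Matrix.mulVec_mulVec, Matrix.mul_assoc, e2]
      have h9 : |((W * B' ^ (t₀ - n')).mulVec η₀) i₀| ≤ mW W * (C * s) := by
        have h9 : ‖(W * B' ^ (t₀ - n')).mulVec η₀‖ ≤ mW W * ‖(B' ^ (t₀ - n')).mulVec η₀‖ := by
          rw [← Matrix.mulVec_mulVec]
          exact mulVec_le W _
        have h10 := h.contr (t₀ - n') η₀
        have h10' : κ ^ (t₀ - n') ≤ 1 := pow_le_one₀ hκ.le hκ1.le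
        have h11 : ‖(B' ^ (t₀ - n')).mulVec η₀‖ ≤ C * s := by
          calc _ ≤ C * κ ^ (t₀ - n') * ‖η₀‖ := h10
            _ ≤ C * 1 * s := by gcongr
            _ = C * s := by ring
        have h12 := norm_le_pi_norm ((W * B' ^ (t₀ - n')).mulVec η₀) i₀
        rw [Real.norm_eq_abs] at h12
        exact h12.trans (h9.trans (by gcongr))
      rw [e1, Pi.add_apply]
      have h10 := abs_sub_abs_le_abs_sub (z n' i₀ - (l:ℝ)) (-((W * B' ^ (t₀ - n')).mulVec η₀) i₀)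
      rw [abs_neg, sub_neg_eq_add] at h10
      rw [show z n' i₀ + ((W * B' ^ (t₀ - n')).mulVec η₀) i₀ - l =
        z n' i₀ - l + ((W * B' ^ (t₀ - n')).mulVec η₀) i₀ by ring]
      linarith
    · obtain ⟨i, rfl⟩ := Nat.exists_eq_add_of_le hge
      rcases lt_or_ge i (n * q) with hlt | hge'
      · exact (h2 i hlt η h3' l).le
      · obtain ⟨j, rfl⟩ := Nat.exists_eq_add_of_le hge'
        have e0 : t₀ + (n * q + j) = t + j := by omega
        rw [e0, hX j]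
        exact (G_lt hr hr4 (h5 j (by omega)) l).le

end Pool.Agent.H71TB
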